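import Pool.Agent.Lib.MP_ae5b4e_an_LL.Int

/-!
# Library layer: subharmonic functions in the plane, part 3: maximum principles, Liouville
-/

set_option autoImplicit false

namespace Pool.Agent.Lib.MP_ae5b4e_an_LL

open Topology Filter Set Metric InnerProductSpace
open Real (circleAverage)

theorem harmonicOnNhd_log_norm_sub {a : ℂ} {V : Set ℂ} (h : a ∉ V) :
    HarmonicOnNhd (fun z => Real.log ‖z - a‖) V := by
  intro z hz
  apply AnalyticAt.harmonicAt_log_norm (f := fun z => z - a) (by fun_prop)
  exact sub_ne_zero.2 (fun h1 => h (h1 ▸ hz))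

namespace SubH

variable {f g : ℂ → ℝ} {U V : Set ℂ}

/-- **Strong maximum principle** -/
theorem eq_of_isMax (hU : IsOpen U) (hc : IsPreconnected U) (hf : SubH f U) {z : ℂ}
    (hz : z ∈ U) (hm : ∀ w ∈ U, f w ≤ f z) : ∀ w ∈ U, f w = f z := by
  by_contra hcon
  push Not at hcon
  obtain ⟨w, hw, hne⟩ := hcon
  set A : Set ℂ := {x | x ∈ U ∧ f x = f z} with hA
  set B : Set ℂ := {x | x ∈ U ∧ f x < f z} with hB
  have hAo : IsOpen A := by
    rw [isOpen_iff_mem_nhds]
    rintro x ⟨hx, hxz⟩
    have h1 := hf.eventually_eq_of_isLocalMax hU hx (by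
      filter_upwards [hU.mem_nhds hx] with y hy
      rw [hxz]; exact hm y hy)
    filter_upwards [h1, hU.mem_nhds hx] with y hy1 hy2
    exact ⟨hy2, by rw [hy1, hxz]⟩
  have hBo : IsOpen B := by
    rw [isOpen_iff_mem_nhds]
    rintro x ⟨hx, hxz⟩
    have h1 := hf.usc x hx _ hxz
    rw [nhdsWithin_eq_nhds.2 (hU.mem_nhds hx)] at h1
    filter_upwards [h1, hU.mem_nhds hx] with y hy1 hy2
    exact ⟨hy2, hy1⟩
  obtain ⟨x, _, hx1, hx2⟩ := hc A B hAo hBo (fun x hx => by
    rcases (hm x hx).eq_or_lt with h1 | h1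
    · exact Or.inl ⟨hx, h1⟩
    · exact Or.inr ⟨hx, h1⟩) ⟨z, hz, hz, rfl⟩ ⟨w, hw, hw, lt_of_le_of_ne (hm w hw) hne⟩
  have h1 := hx1.2
  have h2 := hx2.2
  linarith

/-- **Extended maximum principle**: finitely many exceptional boundary points, near which the
function is only bounded above. -/
theorem le_of_frontier_diff (hV : IsOpen V) (hb : Bornology.IsBounded V) (hf : SubH f V)
    {B : ℝ} (hB : ∀ z ∈ V, f z ≤ B) {E : Set ℂ} (hE : E.Finite) {M : ℝ}
    (hfr : ∀ ζ ∈ frontier V, ζ ∉ E → ∀ ε > 0, ∀ᶠ z in 𝓝[V] ζ, f z ≤ M + ε) :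
    ∀ z ∈ V, f z ≤ M := by
  classical
  obtain ⟨E', hE'⟩ : ∃ E' : Finset ℂ, ∀ x, x ∈ E' ↔ x ∈ E ∧ x ∈ frontier V :=
    ⟨(hE.inter_of_left (frontier V)).toFinset, fun x => by simp⟩
  obtain ⟨R, hR0, hR⟩ : ∃ R : ℝ, 0 < R ∧ ∀ z ∈ V, ‖z‖ ≤ R := by
    obtain ⟨R, hR⟩ := hb.exists_norm_le
    exact ⟨Max.max R 1, lt_max_of_lt_right one_pos, fun z hz => (hR z hz).trans (le_max_left _ _)⟩
  have hRf : ∀ z ∈ frontier V, ‖z‖ ≤ R := by
    intro z hz
    have h1 : closure V ⊆ closedBall 0 R :=
      closure_minimal (fun z hz => mem_closedBall_zero_iff.2 (hR z hz)) isClosed_closedBall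
    exact mem_closedBall_zero_iff.1 (h1 hz.1)
  set u : ℂ → ℝ := fun z => ∑ a ∈ E', (Real.log ‖z - a‖ - Real.log (2 * R)) with hu
  have hEV : ∀ a ∈ E', a ∉ V := by
    intro a ha haV
    have h1 := ((hE' a).1 ha).2.2
    rw [hV.interior_eq] at h1
    exact h1 haV
  have huh : ∀ T : Finset ℂ, (∀ a ∈ T, a ∉ V) →
      HarmonicOnNhd (fun z => ∑ a ∈ T, (Real.log ‖z - a‖ - Real.log (2 * R))) V := by
    intro T
    induction T using Finset.induction_on with
    | empty => intro _; simp
    | insert a T ha ih =>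
      intro hT
      simp only [Finset.sum_insert ha]
      apply HarmonicOnNhd.add
      · exact (harmonicOnNhd_log_norm_sub (hT a (Finset.mem_insert_self a T))).sub
          (harmonicOnNhd_const _)
      · exact ih fun b hb => hT b (Finset.mem_insert_of_mem hb)
  have hterm : ∀ z ∈ V, ∀ a ∈ E', Real.log ‖z - a‖ - Real.log (2 * R) ≤ 0 := by
    intro z hz a ha
    have h1 : ‖z - a‖ ≤ 2 * R := by
      have := norm_sub_le z a
      have h2 := hR z hz
      have h3 := hRf a ((hE' a).1 ha).2
      linarith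
    have h4 : 0 < ‖z - a‖ := norm_pos_iff.2 (sub_ne_zero.2 fun h => hEV a ha (h ▸ hz))
    have := Real.log_le_log h4 h1
    linarith
  have hu0 : ∀ z ∈ V, u z ≤ 0 := fun z hz => Finset.sum_nonpos (hterm z hz)
  have key : ∀ δ > 0, ∀ z ∈ V, f z + δ * u z ≤ M := by
    intro δ hδ
    have hsub : SubH (fun z => f z + δ * u z) V := by
      apply hf.add_harmonic hV
      exact (huh E' hEV).const_smul (c := δ)
    apply hsub.le_of_frontier hV hb
    intro ζ hζ ε hε
    by_cases hζE : ζ ∈ E
    · have hζE' : ζ ∈ E' := (hE' ζ).2 ⟨hζE, hζ⟩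
      have h1 : Tendsto (fun z => Real.log ‖z - ζ‖) (𝓝[≠] ζ) atBot := by
        apply Real.tendsto_log_nhdsGT_zero.comp
        rw [tendsto_nhdsWithin_iff]
        refine ⟨?_, ?_⟩
        · have : Tendsto (fun z => ‖z - ζ‖) (𝓝 ζ) (𝓝 ‖ζ - ζ‖) := by
            apply Continuous.tendsto; fun_prop
          rw [sub_self, norm_zero] at this
          exact this.mono_left nhdsWithin_le_nhds
        · filter_upwards [self_mem_nhdsWithin] with z hz
          exact norm_pos_iff.2 (sub_ne_zero.2 hz)
      have h2 : 𝓝[V] ζ ≤ 𝓝[≠] ζ := nhdsWithin_mono ζ fun z hz h => hEV ζ hζE' (h ▸ hz)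
      have h3 := (h1.mono_left h2).eventually_le_atBot (Real.log (2 * R) + (M - B) / δ)
      filter_upwards [h3, self_mem_nhdsWithin] with z hz1 hz2
      have h4 : u z ≤ Real.log ‖z - ζ‖ - Real.log (2 * R) := by
        have : u z = (Real.log ‖z - ζ‖ - Real.log (2 * R)) +
            ∑ a ∈ E'.erase ζ, (Real.log ‖z - a‖ - Real.log (2 * R)) := by
          simp only [hu]
          rw [Finset.add_sum_erase E' (fun a => Real.log ‖z - a‖ - Real.log (2 * R)) hζE']
        rw [this]
        have h5 := Finset.sum_nonpos (s := E'.erase ζ)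
          (f := fun a => Real.log ‖z - a‖ - Real.log (2 * R))
          fun a ha => hterm z hz2 a (Finset.mem_of_mem_erase ha)
        linarith
      have h5 : u z ≤ (M - B) / δ := by linarith
      have h6 : δ * u z ≤ M - B := by
        rw [le_div_iff₀ hδ] at h5; linarith
      have := hB z hz2
      linarith
    · filter_upwards [hfr ζ hζ hζE ε hε, self_mem_nhdsWithin] with z hz1 hz2
      have h6 : δ * u z ≤ 0 := mul_nonpos_of_nonneg_of_nonpos hδ.le (hu0 z hz2)
      linarith
  intro z hz
  by_contra hcon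
  push Not at hcon
  have h1 := key ((f z - M) / (2 * (1 - u z))) (by
    have := hu0 z hz
    apply div_pos <;> linarith) z hz
  have h2 : 0 < 1 - u z := by linarith [hu0 z hz]
  have h3 : (f z - M) / (2 * (1 - u z)) * (-u z) ≤ (f z - M) / 2 := by
    rw [div_mul_eq_mul_div, div_le_div_iff₀ (by positivity) (by norm_num)]
    have h4 : 0 < f z - M := by linarith
    nlinarith [hu0 z hz]
  linarith

/-- **Phragmen-Lindelöf**: the extended maximum principle on an open set whose complement contains
a disc. -/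
theorem le_of_frontier_unbounded (hV : IsOpen V) (hf : SubH f V) {B : ℝ} (hB : ∀ z ∈ V, f z ≤ B)
    {a : ℂ} {δ : ℝ} (hδ : 0 < δ) (ha : ∀ z ∈ V, δ ≤ ‖z - a‖) {E : Set ℂ} (hE : E.Finite) {M : ℝ}
    (hfr : ∀ ζ ∈ frontier V, ζ ∉ E → ∀ ε > 0, ∀ᶠ z in 𝓝[V] ζ, f z ≤ M + ε) :
    ∀ z ∈ V, f z ≤ M := by
  have haV : a ∉ V := fun h => by
    have := ha a h
    rw [sub_self, norm_zero] at this
    linarith
  have key : ∀ η > 0, ∀ z ∈ V, f z - η * (Real.log ‖z - a‖ - Real.log δ) ≤ M := by
    intro η hη z₀ hz₀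
    have hlog : ∀ z ∈ V, 0 ≤ Real.log ‖z - a‖ - Real.log δ := fun z hz => by
      have := Real.log_le_log hδ (ha z hz)
      linarith
    obtain ⟨R, hR1, hR2, hR3⟩ : ∃ R : ℝ, 0 < R ∧ ‖z₀ - a‖ < R ∧
        B - η * (Real.log (R / 2) - Real.log δ) ≤ M := by
      have h1 : Tendsto (fun R : ℝ => Real.log (R / 2)) atTop atTop :=
        Real.tendsto_log_atTop.comp (tendsto_id.atTop_div_const (by norm_num))
      have h2 := (h1.eventually_ge_atTop (Real.log δ + (B - M) / η)).and
        ((eventually_gt_atTop ‖z₀ - a‖).and (eventually_gt_atTop 0))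
      obtain ⟨R, hR1, hR2, hR3⟩ := h2.exists
      refine ⟨R, hR3, hR2, ?_⟩
      have h3 : (B - M) / η ≤ Real.log (R / 2) - Real.log δ := by linarith
      rw [div_le_iff₀ hη] at h3
      linarith
    set W : Set ℂ := V ∩ ball a R with hW
    have hWo : IsOpen W := hV.inter isOpen_ball
    have hsub : SubH (fun z => f z - η * (Real.log ‖z - a‖ - Real.log δ)) V := by
      apply hf.sub_harmonic hV
      exact ((harmonicOnNhd_log_norm_sub haV).sub
        (harmonicOnNhd_const (Real.log δ))).const_smul (c := η)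
    have hsubW := hsub.mono (inter_subset_left (s := V) (t := ball a R))
    refine hsubW.le_of_frontier_diff hWo (isBounded_ball.subset inter_subset_right)
      (B := B) (fun z hz => ?_) hE (fun ζ hζ hζE ε hε => ?_) z₀ ⟨hz₀, by
        rw [mem_ball, dist_eq_norm]; exact hR2⟩
    · have h1 := hB z hz.1
      have h2 := mul_nonneg hη.le (hlog z hz.1)
      linarith
    · by_cases hζV : ζ ∈ frontier V
      · have h1 := (hfr ζ hζV hζE ε hε).filter_mono
          (nhdsWithin_mono ζ (inter_subset_left (s := V) (t := ball a R)))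
        filter_upwards [h1, self_mem_nhdsWithin] with z hz1 hz2
        have h2 := mul_nonneg hη.le (hlog z hz2.1)
        linarith
      · have hζcl : ζ ∈ closure V := closure_mono inter_subset_left hζ.1
        have hζV' : ζ ∈ V := by
          by_contra h
          exact hζV ⟨hζcl, by rwa [hV.interior_eq]⟩
        have hζb : ζ ∉ ball a R := fun h => by
          have := hζ.2
          rw [hWo.interior_eq] at this
          exact this ⟨hζV', h⟩
        have hζR : R / 2 < ‖ζ - a‖ := by
          rw [mem_ball, dist_eq_norm, not_lt] at hζb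
          linarith
        have h1 : ∀ᶠ z in 𝓝 ζ, R / 2 < ‖z - a‖ := by
          have : Tendsto (fun z => ‖z - a‖) (𝓝 ζ) (𝓝 ‖ζ - a‖) := by
            apply Continuous.tendsto; fun_prop
          exact this (Ioi_mem_nhds hζR)
        filter_upwards [h1.filter_mono nhdsWithin_le_nhds, self_mem_nhdsWithin] with z hz1 hz2
        have h2 := Real.log_le_log (by positivity) hz1.le
        have h3 : η * (Real.log (R / 2) - Real.log δ) ≤
            η * (Real.log ‖z - a‖ - Real.log δ) :=
          mul_le_mul_of_nonneg_left (by linarith) hη.le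
        have := hB z hz2.1
        linarith
  intro z hz
  have h1 : Tendsto (fun η : ℝ => f z - η * (Real.log ‖z - a‖ - Real.log δ)) (𝓝[>] 0)
      (𝓝 (f z - 0 * (Real.log ‖z - a‖ - Real.log δ))) := by
    apply Tendsto.mono_left _ nhdsWithin_le_nhds
    apply Continuous.tendsto
    fun_prop
  rw [zero_mul, sub_zero] at h1
  exact le_of_tendsto h1 (by
    filter_upwards [self_mem_nhdsWithin] with η hη
    exact key η hη z hz)

/-- A subharmonic function on the plane which is bounded above is constant. -/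
theorem eq_of_bddAbove (hf : SubH f univ) {B : ℝ} (hB : ∀ z, f z ≤ B) (z w : ℂ) : f z = f w := by
  obtain ⟨z₁, hz₁, hmax⟩ := (hf.usc.mono (subset_univ (closedBall (0 : ℂ) 1))).exists_isMaxOn
    ⟨0, mem_closedBall_self zero_le_one⟩ (isCompact_closedBall _ _)
  have h1 : ∀ z, f z ≤ f z₁ := by
    intro z
    by_cases hz : z ∈ closedBall (0 : ℂ) 1
    · exact hmax hz
    · refine (hf.mono (subset_univ (closedBall (0 : ℂ) 1)ᶜ)).le_of_frontier_unbounded
        isClosed_closedBall.isOpen_compl (fun z _ => hB z) (a := 0) (δ := 1) one_pos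
        (fun z hz => ?_) finite_empty (fun ζ hζ _ ε hε => ?_) z hz
      · rw [mem_compl_iff, mem_closedBall, dist_eq_norm, not_le] at hz
        exact hz.le
      · rw [frontier_compl, frontier_closedBall _ one_ne_zero] at hζ
        have h2 := hmax (sphere_subset_closedBall hζ)
        have h3 := hf.usc ζ (mem_univ ζ) (f z₁ + ε) (by
          have : f ζ ≤ f z₁ := h2
          linarith)
        filter_upwards [h3.filter_mono (nhdsWithin_mono ζ (subset_univ _))] with z hz
        exact le_of_lt hz
  have h2 := hf.eq_of_isMax isOpen_univ isPreconnected_univ (mem_univ z₁) (fun w _ => h1 w)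
  rw [h2 z (mem_univ z), h2 w (mem_univ w)]

/-- The value at a point is not larger than the upper limit at this point. -/
theorem frequently_gt (hf : SubH f U) {c : ℂ} (hc : c ∈ U) {ε : ℝ} (hε : 0 < ε) :
    ∃ᶠ z in 𝓝[≠] c, f c - ε < f z := by
  intro hcon
  simp only [not_lt] at hcon
  rw [eventually_nhdsWithin_iff, Metric.eventually_nhds_iff] at hcon
  obtain ⟨δ, hδ, h1⟩ := hcon
  obtain ⟨r, hr1, hr2⟩ := ((hf.mean c hc).and (Ioo_mem_nhdsGT hδ)).exists
  have h2 := hr1 (fun _ => f c - ε) continuousOn_const (fun z hz => h1 (by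
    rw [mem_sphere] at hz
    rw [hz]; exact hr2.2) (by
    rintro rfl
    rw [mem_sphere, dist_self] at hz
    exact absurd hz.symm hr2.1.ne'))
  rw [Real.circleAverage_const] at h2
  linarith

/-- **Removable singularities.** -/
theorem of_punctured {a : ℂ} (hU : IsOpen U) (hf : SubH f (U \ {a}))
    (hus : UpperSemicontinuousOn f U) (hfr : a ∈ U → ∀ ε > 0, ∃ᶠ z in 𝓝[≠] a, f a - ε < f z) :
    SubH f U := by
  refine ⟨hus, fun c hc => ?_⟩
  by_cases hca : c = a
  · subst hca
    filter_upwards [eventually_closedBall_subset (hU.mem_nhds hc)] with r hr g hg1 hg2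
    obtain ⟨u, hu1, hu2, hu3⟩ := MP_1f4a82_an.exists_dirichlet hr.1 hg1
    set W : Set ℂ := ball c r \ {c} with hW
    have hWo : IsOpen W := isOpen_ball.sdiff isClosed_singleton
    have hWU : W ⊆ U \ {c} := fun z hz => ⟨hr.2 (ball_subset_closedBall hz.1), hz.2⟩
    have husK : UpperSemicontinuousOn (fun z => f z - u z) (closedBall c r) := by
      intro z hz y hy
      have h1 : f z < y + u z - (y + u z - f z) / 2 := by
        have : f z - u z < y := hy
        linarith
      have h2 := (hus z (hr.2 hz) _ h1).filter_mono (nhdsWithin_mono z hr.2)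
      have h4 : ∀ᶠ w in 𝓝[closedBall c r] z, u z - (y + u z - f z) / 2 < u w :=
        (hu1 z hz) (Ioi_mem_nhds (by
          have : f z - u z < y := hy
          linarith))
      filter_upwards [h2, h4] with w hw1 hw2
      have h5 : f w < y + u z - (y + u z - f z) / 2 := hw1
      show f w - u w < y
      linarith
    obtain ⟨z₁, hz₁, hmax⟩ := husK.exists_isMaxOn ⟨c, mem_closedBall_self hr.1.le⟩
      (isCompact_closedBall _ _)
    have hle : ∀ z ∈ W, f z - u z ≤ 0 := by
      refine ((hf.mono hWU).sub_harmonic hWo (hu2.mono fun z hz => hz.1)).le_of_frontier_diff hWo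
        (isBounded_ball.subset fun z hz => hz.1) (B := f z₁ - u z₁)
        (fun z hz => hmax (ball_subset_closedBall hz.1)) (finite_singleton c)
        (fun ζ hζ hζc ε hε => ?_)
      have hζK : ζ ∈ closedBall c r :=
        closure_minimal (fun z hz => ball_subset_closedBall hz.1) isClosed_closedBall hζ.1
      have hζs : ζ ∈ sphere c r := by
        rw [mem_sphere]
        refine le_antisymm hζK (not_lt.1 fun hlt => ?_)
        have := hζ.2
        rw [hWo.interior_eq] at this
        exact this ⟨hlt, hζc⟩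
      have h1 : f ζ - u ζ < ε := by
        have := hg2 ζ hζs
        rw [hu3 ζ hζs]
        linarith
      have h2 := (husK ζ hζK ε h1).filter_mono
        (nhdsWithin_mono ζ (fun z (hz : z ∈ W) => ball_subset_closedBall hz.1))
      filter_upwards [h2] with z hz
      have : f z - u z < ε := hz
      linarith
    have hcc : circleAverage g c r = u c := by
      have h2 : circleAverage u c r = u c := by
        have : HarmonicContOnCl u (ball c |r|) := by
          rw [abs_of_pos hr.1]
          exact HarmonicContOnCl.mk_ball hu2 hu1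
        exact this.circleAverage_eq
      rw [← h2]
      symm
      apply Real.circleAverage_congr_sphere
      rw [abs_of_pos hr.1]
      exact fun z hz => hu3 z hz
    rw [hcc]
    by_contra hcon
    push Not at hcon
    have hcb : c ∈ ball c r := mem_ball_self hr.1
    have h3 : ContinuousAt u c := hu1.continuousAt (closedBall_mem_nhds c hr.1)
    have h4' : ∀ᶠ z in 𝓝 c, u z < u c + (f c - u c) / 2 := h3 (Iio_mem_nhds (by linarith))
    have h4 : ∀ᶠ z in 𝓝[≠] c, u z < u c + (f c - u c) / 2 := h4'.filter_mono nhdsWithin_le_nhds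
    have h5 : ∀ᶠ z in 𝓝[≠] c, z ∈ W := by
      rw [eventually_nhdsWithin_iff]
      filter_upwards [isOpen_ball.mem_nhds hcb] with z hz1 hz2
      exact ⟨hz1, hz2⟩
    obtain ⟨z, hz1, hz2, hz3⟩ := ((hfr hc ((f c - u c) / 2) (by linarith)).and_eventually
      (h4.and h5)).exists
    have := hle z hz3
    linarith
  · have hopen : IsOpen (U \ {a}) := hU.sdiff isClosed_singleton
    exact hf.mean c ⟨hc, hca⟩

end SubH

end Pool.Agent.Lib.MP_ae5b4e_an_LL
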