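import Pool.Agent.Lib.MP_ae5b4e_an_LL.Bridge
import Pool.Agent.Lib.MP_ae5b4e_an_LL.Max

/-!
# Library layer: subharmonic functions in the plane, part 5: upper limits of sequences

`UL u z a` : `limsup_{n → ∞, z' → z} u n z' < a` in the form: eventually `u n z' ≤ b < a`.
The regularised upper limit `ulim u` of a sequence which is locally bounded on both sides is
subharmonic.  (A sequence which is only bounded above is treated through `max (u n) (-N)`.)
-/

set_option autoImplicit false

namespace Pool.Agent.Lib.MP_ae5b4e_an_LL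

open Topology Filter Set Metric InnerProductSpace
open Real (circleAverage)

/-- the regularised upper limit `limsup_{n → ∞, z' → z} u n z'` -/
noncomputable def ulim (u : ℕ → ℂ → ℝ) (z : ℂ) : ℝ :=
  sInf {b : ℝ | ∀ᶠ p in (atTop ×ˢ 𝓝 z : Filter (ℕ × ℂ)), u p.1 p.2 ≤ b}

/-- locally bounded sequences -/
def LocBdd (u : ℕ → ℂ → ℝ) (z : ℂ) : Prop :=
  ∃ A B : ℝ, ∀ᶠ p in (atTop ×ˢ 𝓝 z : Filter (ℕ × ℂ)), A ≤ u p.1 p.2 ∧ u p.1 p.2 ≤ B

variable {u : ℕ → ℂ → ℝ} {z : ℂ} {U : Set ℂ}

theorem LocBdd.bddBelow (h : LocBdd u z) :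
    BddBelow {b : ℝ | ∀ᶠ p in (atTop ×ˢ 𝓝 z : Filter (ℕ × ℂ)), u p.1 p.2 ≤ b} := by
  obtain ⟨A, B, h⟩ := h
  refine ⟨A, fun b hb => ?_⟩
  obtain ⟨p, hp1, hp2⟩ := (h.and hb).exists
  exact hp1.1.trans hp2

theorem LocBdd.nonempty (h : LocBdd u z) :
    {b : ℝ | ∀ᶠ p in (atTop ×ˢ 𝓝 z : Filter (ℕ × ℂ)), u p.1 p.2 ≤ b}.Nonempty := by
  obtain ⟨A, B, h⟩ := h
  exact ⟨B, h.mono fun p hp => hp.2⟩

theorem ulim_le (h : LocBdd u z) {b : ℝ}
    (hb : ∀ᶠ p in (atTop ×ˢ 𝓝 z : Filter (ℕ × ℂ)), u p.1 p.2 ≤ b) : ulim u z ≤ b :=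
  csInf_le h.bddBelow hb

theorem eventually_lt_of_ulim_lt (h : LocBdd u z) {b : ℝ} (hb : ulim u z < b) :
    ∀ᶠ p in (atTop ×ˢ 𝓝 z : Filter (ℕ × ℂ)), u p.1 p.2 < b := by
  obtain ⟨c, hc1, hc2⟩ := exists_lt_of_csInf_lt h.nonempty hb
  filter_upwards [hc1] with p hp
  exact lt_of_le_of_lt hp hc2

theorem le_ulim (h : LocBdd u z) {b : ℝ}
    (hb : ∃ᶠ p in (atTop ×ˢ 𝓝 z : Filter (ℕ × ℂ)), b ≤ u p.1 p.2) : b ≤ ulim u z := by
  apply le_csInf h.nonempty
  intro c hc
  obtain ⟨p, hp1, hp2⟩ := (hb.and_eventually hc).exists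
  exact hp1.trans hp2

/-- upper bounds of the upper limit are locally uniform -/
theorem exists_unif_of_ulim_lt {K : Set ℂ} (hK : IsCompact K) (h : ∀ z ∈ K, LocBdd u z)
    {g : ℂ → ℝ} (hg : Continuous g) (hb : ∀ z ∈ K, ulim u z < g z) :
    ∃ N : ℕ, ∃ O : Set ℂ, IsOpen O ∧ K ⊆ O ∧ ∀ n ≥ N, ∀ z ∈ O, u n z < g z := by
  have h1 : ∀ z ∈ K, ∃ N : ℕ, ∃ O : Set ℂ, IsOpen O ∧ z ∈ O ∧ ∀ n ≥ N, ∀ w ∈ O, u n w < g w := by
    intro z hz
    obtain ⟨b, hb1, hb2⟩ := exists_between (hb z hz)
    have h2 := eventually_lt_of_ulim_lt (h z hz) hb1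
    rw [eventually_prod_iff] at h2
    obtain ⟨p1, hp1, p2, hp2, h2⟩ := h2
    obtain ⟨N, hN⟩ := eventually_atTop.1 hp1
    have h3 : ∀ᶠ w in 𝓝 z, b < g w := hg.continuousAt (Ioi_mem_nhds hb2)
    obtain ⟨O, hO1, hO2, hO3⟩ := _root_.mem_nhds_iff.1 (hp2.and h3)
    refine ⟨N, O, hO2, hO3, fun n hn w hw => ?_⟩
    obtain ⟨h4, h5⟩ := hO1 hw
    exact (h2 (hN n hn) h4).trans h5
  choose! N O hO1 hO2 hO3 using h1
  obtain ⟨t, ht2⟩ := hK.elim_nhds_subcover' (fun z _ => O z)
    (fun z hz => (hO1 z hz).mem_nhds (hO2 z hz))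
  classical
  refine ⟨t.sup fun z => N z, ⋃ z ∈ t, O (z : ℂ), ?_, ht2, ?_⟩
  · exact isOpen_biUnion fun z _ => hO1 z z.2
  · intro n hn w hw
    simp only [mem_iUnion] at hw
    obtain ⟨z, hz, hw⟩ := hw
    exact hO3 z z.2 n ((Finset.le_sup (f := fun z : K => N z) hz).trans hn) w hw

theorem LocBdd.eventually_nhds (h : LocBdd u z) : ∀ᶠ w in 𝓝 z, LocBdd u w := by
  obtain ⟨A, B, h⟩ := h
  rw [eventually_prod_iff] at h
  obtain ⟨p1, hp1, p2, hp2, h2⟩ := h
  filter_upwards [hp2.eventually_nhds] with w hw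
  refine ⟨A, B, ?_⟩
  rw [eventually_prod_iff]
  exact ⟨p1, hp1, p2, hw, h2⟩

/-- **The regularised upper limit of subharmonic functions is subharmonic.** -/
theorem subH_ulim (hU : IsOpen U) (hb : ∀ z ∈ U, LocBdd u z)
    (hu : ∀ z ∈ U, ∃ δ > 0, ∀ᶠ n in atTop, SubH (u n) (ball z δ)) : SubH (ulim u) U := by
  refine ⟨fun z hz y hy => ?_, fun c hc => ?_⟩
  · have h1 := eventually_lt_of_ulim_lt (hb z hz) (b := (ulim u z + y) / 2) (by
      have : ulim u z < y := hy
      linarith)
    rw [eventually_prod_iff] at h1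
    obtain ⟨p1, hp1, p2, hp2, h2⟩ := h1
    filter_upwards [hp2.eventually_nhds.filter_mono nhdsWithin_le_nhds,
      (hb z hz).eventually_nhds.filter_mono nhdsWithin_le_nhds] with w hw1 hw2
    have h3 : ulim u w ≤ (ulim u z + y) / 2 := by
      apply ulim_le hw2
      rw [eventually_prod_iff]
      exact ⟨p1, hp1, p2, hw1, fun hx _ hy => (h2 hx hy).le⟩
    have : ulim u z < y := hy
    show ulim u w < y
    linarith
  · obtain ⟨δ, hδ, hsub⟩ := hu c hc
    have hmem : ball c δ ∩ U ∈ 𝓝 c := inter_mem (ball_mem_nhds c hδ) (hU.mem_nhds hc)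
    filter_upwards [eventually_closedBall_subset hmem] with r hr g hg1 hg2
    obtain ⟨G, hG1, hG2⟩ := exists_continuous_eqOn isClosed_sphere hg1
    have hav : circleAverage g c r = circleAverage G c r := by
      apply Real.circleAverage_congr_sphere
      rw [abs_of_pos hr.1]
      exact fun z hz => (hG2 hz).symm
    rw [hav]
    apply le_of_forall_pos_le_add
    intro ε hε
    obtain ⟨N, O, hO1, hO2, hO3⟩ := exists_unif_of_ulim_lt (isCompact_sphere c r)
      (fun z hz => hb z (hr.2 (sphere_subset_closedBall hz)).2) (g := fun z => G z + ε / 2)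
      (hG1.add continuous_const) (fun z hz => by
        have := hg2 z hz
        rw [hG2 hz]; linarith)
    -- circles with centre near `c`
    have hcont : Continuous fun w => circleAverage G w r := by
      have h1 : (fun w => circleAverage G w r) = fun w =>
          (2 * Real.pi)⁻¹ * ∫ θ in (0 : ℝ)..2 * Real.pi, G (circleMap w r θ) := by
        funext w
        rw [Real.circleAverage_def, smul_eq_mul]
      rw [h1]
      apply continuous_const.mul
      apply intervalIntegral.continuous_parametric_intervalIntegral_of_continuous'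
      have : Continuous fun p : ℂ × ℝ => circleMap p.1 r p.2 := by
        unfold circleMap
        fun_prop
      exact hG1.comp this
    have h2 : ∀ᶠ w in 𝓝 c, circleAverage G w r < circleAverage G c r + ε / 2 :=
      hcont.continuousAt (Iio_mem_nhds (by linarith))
    have h3 : ∀ᶠ w in 𝓝 c, sphere w r ⊆ O ∧ closedBall w r ⊆ ball c δ := by
      obtain ⟨η, hη, hη2⟩ := (isCompact_sphere c r).exists_thickening_subset_open hO1 hO2
      obtain ⟨η', hη', hη2'⟩ := (isCompact_closedBall c r).exists_thickening_subset_open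
        isOpen_ball (fun z hz => (hr.2 hz).1)
      filter_upwards [ball_mem_nhds c hη, ball_mem_nhds c hη'] with w hw1 hw2
      constructor
      · intro x hx
        apply hη2
        rw [mem_thickening_iff]
        have h5 : x - w + c ∈ sphere c r := by
          rw [mem_sphere, dist_eq_norm] at hx ⊢
          rw [add_sub_cancel_right]; exact hx
        refine ⟨_, h5, ?_⟩
        rw [dist_eq_norm]
        have : x - (x - w + c) = w - c := by ring
        rw [this, ← dist_eq_norm]
        exact mem_ball.1 hw1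
      · intro x hx
        apply hη2'
        rw [mem_thickening_iff]
        have h5 : x - w + c ∈ closedBall c r := by
          rw [mem_closedBall, dist_eq_norm] at hx ⊢
          rw [add_sub_cancel_right]; exact hx
        refine ⟨_, h5, ?_⟩
        rw [dist_eq_norm]
        have : x - (x - w + c) = w - c := by ring
        rw [this, ← dist_eq_norm]
        exact mem_ball.1 hw2
    apply ulim_le (hb c hc)
    rw [eventually_prod_iff]
    refine ⟨fun n => N ≤ n ∧ SubH (u n) (ball c δ), (eventually_ge_atTop N).and hsub, _, h2.and h3,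
      ?_⟩
    rintro n ⟨hn1, hn2⟩ w ⟨hw1, hw2, hw3⟩
    have h4 := (hn2.mono (ball_subset_closedBall.trans hw3)).le_circleAverage hr.1
      (hn2.usc.mono hw3) (g := fun z => G z + ε / 2) (hG1.add continuous_const).continuousOn
      (fun z hz => (hO3 n hn1 z (hw2 hz)).le)
    rw [Real.circleAverage_fun_add (hG1.continuousOn.circleIntegrable hr.1.le)
      (continuousOn_const.circleIntegrable hr.1.le), Real.circleAverage_const] at h4
    show u n w ≤ circleAverage G c r + ε
    linarith

/-- decreasing limits -/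
theorem subH_of_antitone (hU : IsOpen U) {f : ℂ → ℝ} (hu : ∀ n, SubH (u n) U)
    (hmono : ∀ z ∈ U, Antitone fun n => u n z)
    (hlim : ∀ z ∈ U, Tendsto (fun n => u n z) atTop (𝓝 (f z))) : SubH f U := by
  have hle : ∀ n, ∀ z ∈ U, f z ≤ u n z := fun n z hz =>
    (hmono z hz).le_of_tendsto (hlim z hz) n
  refine ⟨fun z hz y hy => ?_, fun c hc => ?_⟩
  · obtain ⟨n, hn⟩ := ((hlim z hz).eventually_lt_const hy).exists
    filter_upwards [(hu n).usc z hz y hn, self_mem_nhdsWithin] with w hw1 hw2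
    exact lt_of_le_of_lt (hle n w hw2) hw1
  · filter_upwards [eventually_closedBall_subset (hU.mem_nhds hc)] with r hr g hg1 hg2
    obtain ⟨G, hG1, hG2⟩ := exists_continuous_eqOn isClosed_sphere hg1
    apply le_of_forall_pos_le_add
    intro ε hε
    -- a uniform `n` by compactness
    have h1 : ∀ z ∈ sphere c r, ∃ n, ∀ᶠ w in 𝓝[sphere c r] z, u n w < G w + ε := by
      intro z hz
      have hzU := hr.2 (sphere_subset_closedBall hz)
      have h2 : f z < G z + ε / 2 := by
        have := hg2 z hz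
        rw [hG2 hz]; linarith
      obtain ⟨n, hn⟩ := ((hlim z hzU).eventually_lt_const h2).exists
      refine ⟨n, ?_⟩
      have h3 := ((hu n).usc z hzU _ hn).filter_mono
        (nhdsWithin_mono z (sphere_subset_closedBall.trans hr.2))
      have h4 : ∀ᶠ w in 𝓝[sphere c r] z, G z - ε / 2 < G w :=
        Filter.Eventually.filter_mono nhdsWithin_le_nhds
          (hG1.continuousAt (Ioi_mem_nhds (by linarith)))
      filter_upwards [h3, h4] with w hw1 hw2
      have : u n w < G z + ε / 2 := hw1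
      linarith
    choose! N hN using h1
    obtain ⟨t, ht1, ht2⟩ := (isCompact_sphere c r).elim_nhdsWithin_subcover
      (fun z => {w | u (N z) w < G w + ε}) (fun z hz => hN z hz)
    classical
    set n := t.sup N with hn
    have h5 : ∀ w ∈ sphere c r, u n w ≤ G w + ε := by
      intro w hw
      have h6 := ht2 hw
      simp only [mem_iUnion] at h6
      obtain ⟨z, hz, h6⟩ := h6
      have h7 : u (N z) w < G w + ε := h6
      have h8 := hmono w (hr.2 (sphere_subset_closedBall hw)) (Finset.le_sup (f := N) hz)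
      have h9 : u n w ≤ u (N z) w := h8
      linarith
    have h6 := ((hu n).mono (ball_subset_closedBall.trans hr.2)).le_circleAverage hr.1
      ((hu n).usc.mono hr.2) (g := fun z => G z + ε) (hG1.add continuous_const).continuousOn h5
    rw [Real.circleAverage_fun_add (hG1.continuousOn.circleIntegrable hr.1.le)
      (continuousOn_const.circleIntegrable hr.1.le), Real.circleAverage_const] at h6
    have hav : circleAverage g c r = circleAverage G c r := by
      apply Real.circleAverage_congr_sphere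
      rw [abs_of_pos hr.1]
      exact fun z hz => (hG2 hz).symm
    have := hle n c hc
    rw [hav]
    linarith

end Pool.Agent.Lib.MP_ae5b4e_an_LL
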