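import Pool.Agent.Lib.MP_ae5b4e_an_LL.Max

/-!
# Library layer: subharmonic functions in the plane, part 4: composition with holomorphic maps
-/

set_option autoImplicit false

namespace Pool.Agent.Lib.MP_ae5b4e_an_LL

open Topology Filter Set Metric InnerProductSpace
open Real (circleAverage)

/-- a harmonic function is locally the real part of a holomorphic function -/
theorem HarmonicAt.exists_analytic {u : ℂ → ℝ} {z : ℂ} (hu : HarmonicAt u z) :
    ∃ F : ℂ → ℂ, AnalyticAt ℂ F z ∧ ∀ᶠ w in 𝓝 z, u w = (F w).re := by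
  obtain ⟨R, hR, hball⟩ := Metric.eventually_nhds_iff_ball.1 hu.eventually
  obtain ⟨F, hF1, hF2⟩ := HarmonicOnNhd.exists_analyticOnNhd_ball_re_eq (f := u) (z := z) (R := R)
    (fun w hw => hball w hw)
  refine ⟨F, hF1 z (mem_ball_self hR), ?_⟩
  filter_upwards [ball_mem_nhds z hR] with w hw
  exact (hF2 hw).symm

theorem harmonicAt_comp {u : ℂ → ℝ} {ψ : ℂ → ℂ} {w : ℂ} (hu : HarmonicAt u (ψ w))
    (hψ : AnalyticAt ℂ ψ w) : HarmonicAt (fun z => u (ψ z)) w := by
  obtain ⟨F, hF1, hF2⟩ := HarmonicAt.exists_analytic hu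
  have h1 : HarmonicAt (fun z => (F (ψ z)).re) w :=
    AnalyticAt.harmonicAt_re (hF1.comp hψ)
  refine (harmonicAt_congr_nhds ?_).2 h1
  exact hψ.continuousAt.eventually hF2

namespace SubH

variable {f g : ℂ → ℝ} {U V : Set ℂ}

/-- transport of the mean value inequality by an injective holomorphic map -/
theorem comp_of_injOn {φ : ℂ → ℂ} {c : ℂ} {r : ℝ} (hr : 0 < r)
    (hφ : AnalyticOnNhd ℂ φ (closedBall c r)) (hinj : InjOn φ (closedBall c r))
    (hd : ∀ z ∈ ball c r, deriv φ z ≠ 0) (hf : SubH f U) (hm : MapsTo φ (closedBall c r) U)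
    {g : ℂ → ℝ} (hg : ContinuousOn g (sphere c r)) (h : ∀ z ∈ sphere c r, f (φ z) ≤ g z) :
    f (φ c) ≤ circleAverage g c r := by
  obtain ⟨u, hu1, hu2, hu3⟩ := MP_1f4a82_an.exists_dirichlet hr hg
  set K : Set ℂ := φ '' closedBall c r with hK
  set D : Set ℂ := φ '' ball c r with hD
  set ι : ℂ → ℂ := Function.invFunOn φ (closedBall c r) with hι
  have hιφ : ∀ z ∈ closedBall c r, ι (φ z) = z := fun z hz => hinj.leftInvOn_invFunOn hz
  set v : ℂ → ℝ := fun w => u (ι w) with hv
  have hvφ : ∀ z ∈ closedBall c r, v (φ z) = u z := fun z hz => by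
    simp only [hv]
    rw [hιφ z hz]
  have hφc : ContinuousOn φ (closedBall c r) := hφ.continuousOn
  have hKc : IsCompact K := (isCompact_closedBall c r).image_of_continuousOn hφc
  have hDK : D ⊆ K := image_mono ball_subset_closedBall
  have hDo : IsOpen D := by
    rw [isOpen_iff_mem_nhds]
    rintro _ ⟨z, hz, rfl⟩
    have h1 := (hφ z (ball_subset_closedBall hz)).hasStrictDerivAt.map_nhds_eq (hd z hz)
    rw [← h1]
    exact image_mem_map (isOpen_ball.mem_nhds hz)
  have hvc : ContinuousOn v K := by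
    rw [continuousOn_iff_isClosed]
    intro t ht
    have h1 : IsCompact (closedBall c r ∩ u ⁻¹' t) :=
      (isCompact_closedBall c r).of_isClosed_subset
        (hu1.preimage_isClosed_of_isClosed isClosed_closedBall ht) inter_subset_left
    have h2 : IsCompact (φ '' (closedBall c r ∩ u ⁻¹' t)) :=
      h1.image_of_continuousOn (hφc.mono inter_subset_left)
    refine ⟨_, h2.isClosed, ?_⟩
    ext w
    constructor
    · rintro ⟨hw1, z, hz, rfl⟩
      refine ⟨⟨z, ⟨hz, ?_⟩, rfl⟩, ⟨z, hz, rfl⟩⟩
      have : v (φ z) ∈ t := hw1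
      rwa [hvφ z hz] at this
    · rintro ⟨⟨z, ⟨hz1, hz2⟩, rfl⟩, _⟩
      refine ⟨?_, ⟨z, hz1, rfl⟩⟩
      show v (φ z) ∈ t
      rw [hvφ z hz1]
      exact hz2
  have hvh : HarmonicOnNhd v D := by
    rintro _ ⟨z, hz, rfl⟩
    have hzc := ball_subset_closedBall hz
    have han := hφ z hzc
    set ψ := han.hasStrictDerivAt.localInverse _ _ _ (hd z hz) with hψ
    have hψa : AnalyticAt ℂ ψ (φ z) := han.analyticAt_localInverse (hd z hz)
    have hψz : ψ (φ z) = z := HasStrictFDerivAt.localInverse_apply_image ..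
    have hright : ∀ᶠ w in 𝓝 (φ z), φ (ψ w) = w := HasStrictDerivAt.eventually_right_inverse ..
    have h1 : HarmonicAt (fun w => u (ψ w)) (φ z) := by
      apply harmonicAt_comp _ hψa
      rw [hψz]
      exact hu2 z hz
    refine (harmonicAt_congr_nhds ?_).2 h1
    have h2 : ∀ᶠ w in 𝓝 (φ z), ψ w ∈ ball c r := by
      have := hψa.continuousAt
      rw [ContinuousAt, hψz] at this
      exact this (isOpen_ball.mem_nhds hz)
    filter_upwards [hright, h2] with w hw1 hw2
    have h3 := hvφ (ψ w) (ball_subset_closedBall hw2)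
    rwa [hw1] at h3
  have hKU : K ⊆ U := by
    rintro _ ⟨z, hz, rfl⟩
    exact hm hz
  have h1 := (hf.mono (hDK.trans hKU)).le_harmonic_of_compact hKc hDo hDK (hf.usc.mono hKU) hvh hvc
    (fun w hw hwD => by
      obtain ⟨z, hz, rfl⟩ := hw
      have hzs : z ∈ sphere c r := by
        rw [mem_sphere]
        exact le_antisymm hz (not_lt.1 fun hlt => hwD ⟨z, hlt, rfl⟩)
      rw [hvφ z hz, hu3 z hzs]
      exact h z hzs) (φ c) ⟨c, mem_closedBall_self hr.le, rfl⟩
  rw [hvφ c (mem_closedBall_self hr.le)] at h1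
  have h2 : circleAverage u c r = u c := by
    have : HarmonicContOnCl u (ball c |r|) := by
      rw [abs_of_pos hr]
      exact HarmonicContOnCl.mk_ball hu2 hu1
    exact this.circleAverage_eq
  have h3 : circleAverage u c r = circleAverage g c r := by
    apply Real.circleAverage_congr_sphere
    rw [abs_of_pos hr]
    exact fun z hz => hu3 z hz
  rw [← h3, h2]
  exact h1

/-- **Composition with a holomorphic map.** -/
theorem comp {φ : ℂ → ℂ} (hU : IsOpen U) (hV : IsOpen V) (hf : SubH f U)
    (hφ : AnalyticOnNhd ℂ φ V) (hm : MapsTo φ V U) : SubH (fun z => f (φ z)) V := by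
  have husc : UpperSemicontinuousOn (fun z => f (φ z)) V := by
    intro z hz y hy
    have h1 := hf.usc (φ z) (hm hz) y hy
    rw [nhdsWithin_eq_nhds.2 (hU.mem_nhds (hm hz))] at h1
    exact ((hφ z hz).continuousAt.eventually h1).filter_mono nhdsWithin_le_nhds
  have step1 : ∀ W : Set ℂ, IsOpen W → W ⊆ V → (∀ z ∈ W, deriv φ z ≠ 0) →
      SubH (fun z => f (φ z)) W := by
    intro W hW hWV hd
    refine ⟨husc.mono hWV, fun c hc => ?_⟩
    have han := hφ c (hWV hc)
    set ψ := han.hasStrictDerivAt.localInverse _ _ _ (hd c hc) with hψ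
    have hleft : ∀ᶠ z in 𝓝 c, ψ (φ z) = z := HasStrictDerivAt.eventually_left_inverse ..
    filter_upwards [eventually_closedBall_subset
      (inter_mem (hW.mem_nhds hc) hleft)] with r hr g hg1 hg2
    have hinj : InjOn φ (closedBall c r) := by
      intro x hx y hy hxy
      have h1 : ψ (φ x) = x := (hr.2 hx).2
      have h2 : ψ (φ y) = y := (hr.2 hy).2
      rw [← h1, ← h2, hxy]
    exact comp_of_injOn hr.1 (fun z hz => hφ z (hWV (hr.2 hz).1)) hinj
      (fun z hz => hd z (hr.2 (ball_subset_closedBall hz)).1) hf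
      (fun z hz => hm (hWV (hr.2 hz).1)) hg1 hg2
  apply of_local
  intro p hp
  have hda : AnalyticAt ℂ (deriv φ) p := (hφ p hp).deriv
  by_cases hdp : deriv φ p = 0
  · rcases hda.eventually_eq_zero_or_eventually_ne_zero with h0 | h0
    · -- locally constant
      obtain ⟨δ, hδ, hball⟩ := Metric.eventually_nhds_iff_ball.1 (h0.and (hV.mem_nhds hp))
      refine ⟨ball p δ, ball_mem_nhds p hδ, ?_⟩
      have hconst : ∀ z ∈ ball p δ, φ z = φ p := by
        intro z hz
        apply (convex_ball p δ).is_const_of_fderivWithin_eq_zero (𝕜 := ℂ) (f := φ)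
          (fun w hw => (hφ w (hball w hw).2).differentiableAt.differentiableWithinAt)
          (fun w hw => ?_) hz (mem_ball_self hδ)
        rw [fderivWithin_of_isOpen isOpen_ball hw]
        have := (hball w hw).1
        ext
        rw [fderiv_apply_one_eq_deriv]
        simpa using this
      refine (SubH.const (f (φ p)) (ball p δ)).congr isOpen_ball fun z hz => ?_
      rw [hconst z hz]
    · rw [eventually_nhdsWithin_iff] at h0
      obtain ⟨δ, hδ, hball⟩ := Metric.eventually_nhds_iff_ball.1 (h0.and (hV.mem_nhds hp))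
      refine ⟨ball p δ, ball_mem_nhds p hδ, ?_⟩
      have hWo : IsOpen (ball p δ \ {p}) := isOpen_ball.sdiff isClosed_singleton
      apply of_punctured isOpen_ball (a := p)
        (step1 _ hWo (fun z hz => (hball z hz.1).2) fun z hz => (hball z hz.1).1 hz.2)
        (husc.mono fun z hz => (hball z hz).2)
      intro _ ε hε
      have hopen : 𝓝 (φ p) ≤ map φ (𝓝 p) := by
        refine (hφ p hp).eventually_constant_or_nhds_le_map_nhds.resolve_left ?_
        intro hc
        -- then the derivative vanishes near `p`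
        have h2 : ∀ᶠ z in 𝓝 p, deriv φ z = 0 := by
          filter_upwards [hc.eventually_nhds] with z hz
          have h3 : φ =ᶠ[𝓝 z] fun _ => φ p := hz
          rw [h3.deriv_eq, deriv_const]
        have h3 : ∀ᶠ z in 𝓝[≠] p, deriv φ z = 0 := h2.filter_mono nhdsWithin_le_nhds
        have h4 : ∀ᶠ z in 𝓝[≠] p, deriv φ z ≠ 0 := by
          rw [eventually_nhdsWithin_iff]; exact h0
        obtain ⟨z, hz1, hz2⟩ := (h3.and h4).exists
        exact hz2 hz1
      have hfreq := hf.frequently_gt (hm hp) hε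
      intro hcon
      simp only [not_lt] at hcon
      rw [eventually_nhdsWithin_iff] at hcon
      -- points near `φ p` are images of points near `p`
      have h5 : φ '' {z | z ∈ ({p}ᶜ : Set ℂ) → f (φ z) ≤ f (φ p) - ε} ∈ 𝓝 (φ p) :=
        hopen (image_mem_map hcon)
      have h6 : ∀ᶠ w in 𝓝[≠] (φ p), f w ≤ f (φ p) - ε := by
        rw [eventually_nhdsWithin_iff]
        filter_upwards [h5] with w hw hwne
        obtain ⟨z, hz, rfl⟩ := hw
        apply hz
        rintro rfl
        exact hwne rfl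
      obtain ⟨w, hw1, hw2⟩ := (hfreq.and_eventually h6).exists
      linarith
  · have h0 : ∀ᶠ z in 𝓝 p, deriv φ z ≠ 0 := hda.continuousAt.eventually_ne hdp
    obtain ⟨δ, hδ, hball⟩ := Metric.eventually_nhds_iff_ball.1 (h0.and (hV.mem_nhds hp))
    exact ⟨ball p δ, ball_mem_nhds p hδ, step1 _ isOpen_ball (fun z hz => (hball z hz).2)
      fun z hz => (hball z hz).1⟩

end SubH

end Pool.Agent.Lib.MP_ae5b4e_an_LL
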