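import Pool.Agent.Lib.MP_ae5b4e_an_LL.Half
import Pool.Agent.Lib.MP_ae5b4e_an_LL.Comp

/-!
# Library layer: the log gain lemma (POR_NB_2, (2.5'))

A subharmonic function on a disc with `u 0 ≥ 0`, `u ≤ A |η|` which is `≤ - c |η|` on the two
vertical segments `r₀ ≤ |η| < r₁`: then `r₁ / r₀` is bounded.
-/

set_option autoImplicit false

namespace Pool.Agent.Lib.MP_ae5b4e_an_LL

open Topology Filter Set Metric InnerProductSpace
open Real (circleAverage)

theorem mul_log_ge {x R : ℝ} (hx : 0 < x) (hR : 0 < R) : x - R ≤ x * (Real.log x - Real.log R) := by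
  have h1 := Real.one_sub_inv_le_log_of_pos (div_pos hx hR)
  rw [Real.log_div hx.ne' hR.ne', inv_div] at h1
  have h2 := mul_le_mul_of_nonneg_left h1 hx.le
  have h3 : x * (1 - R / x) = x - R := by field_simp
  rw [h3] at h2
  exact h2

/-- the half disc part of the log gain lemma -/
theorem gain_half {v : ℂ → ℝ} {A c r₀ r₁ : ℝ} (hA : 0 ≤ A) (hc : 0 < c) (h0 : 0 < r₀)
    (h01 : 100 * r₀ < r₁) (hs : SubH v (ball 0 r₁)) (hA' : ∀ η, ‖η‖ < r₁ → v η ≤ A * ‖η‖)
    (hc' : ∀ ζ : ℂ, ζ.re = 0 → r₀ < ‖ζ‖ → ‖ζ‖ < r₁ → v ζ ≤ -c * ‖ζ‖)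
    (hL : Real.log 10 + 3 * ((A + c) / c) < Real.log (r₁ / r₀)) :
    ∀ η : ℂ, 0 < η.re → ‖η‖ = 10 * r₀ → v η < 0 := by
  have hpi := Real.pi_pos
  have hr1 : 0 < r₁ := by linarith
  have hAc : 0 < A + c := by linarith
  set V : ℂ → ℝ := fun η => 2 * c / Real.pi * tlog r₁ η +
    (A + c) * r₁ * (2 - 2 / Real.pi * ang r₁ η) + (A + c) * r₀ * (1 / Real.pi * ang r₀ η) with hV
  have hVh : HarmonicOnNhd V (RHD r₁) := by
    have e : V = ((2 * c / Real.pi) • tlog r₁ + ((fun _ => (A + c) * r₁ * 2) +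
        (-((A + c) * r₁ * (2 / Real.pi))) • ang r₁)) +
        ((A + c) * r₀ * (1 / Real.pi)) • ang r₀ := by
      funext η
      simp only [hV, Pi.add_apply, Pi.smul_apply, smul_eq_mul]
      ring
    rw [e]
    refine HarmonicOnNhd.add (HarmonicOnNhd.add ?_ (HarmonicOnNhd.add ?_ ?_)) ?_
    · exact HarmonicOnNhd.const_smul fun z hz => tlog_harmonic hz.1
    · exact harmonicOnNhd_const _
    · exact HarmonicOnNhd.const_smul fun z hz => ang_harmonic hr1 hz.1
    · exact HarmonicOnNhd.const_smul fun z hz => ang_harmonic h0 hz.1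
  -- lower bounds for `V`
  have hw2 : ∀ η : ℂ, 0 ≤ 2 - 2 / Real.pi * ang r₁ η := by
    intro η
    have h1 := ang_le_pi (a := r₁) (η := η)
    have h2 : 2 / Real.pi * ang r₁ η ≤ 2 := by
      rw [div_mul_eq_mul_div, div_le_iff₀ hpi]; linarith
    linarith
  have hw1 : ∀ η ∈ RHD r₁, 0 ≤ 1 / Real.pi * ang r₀ η := fun η hη =>
    mul_nonneg (by positivity) (ang_nonneg h0 hη.1)
  have hT : ∀ η ∈ RHD r₁, 2 * c / Real.pi * (η.re * (Real.log ‖η‖ - Real.log r₁)) - c * ‖η‖ ≤
      2 * c / Real.pi * tlog r₁ η := by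
    intro η hη
    have h1 := mul_le_mul_of_nonneg_left (tlog_bounds (R := r₁) hη.1).1
      (show 0 ≤ 2 * c / Real.pi by positivity)
    have h2 : 2 * c / Real.pi * (η.re * (Real.log ‖η‖ - Real.log r₁) - Real.pi / 2 * ‖η‖) =
        2 * c / Real.pi * (η.re * (Real.log ‖η‖ - Real.log r₁)) - c * ‖η‖ := by
      field_simp
    linarith
  have hnorm : ∀ η ∈ RHD r₁, 0 < ‖η‖ := fun η hη => by
    apply norm_pos_iff.2
    intro h
    have := hη.1
    rw [h] at this
    simp at this
  have hV1 : ∀ η ∈ RHD r₁, 2 * c / Real.pi * (η.re * (Real.log ‖η‖ - Real.log r₁)) - c * ‖η‖ ≤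
      V η := by
    intro η hη
    have h1 := hT η hη
    have h2 := mul_nonneg (mul_nonneg hAc.le hr1.le) (hw2 η)
    have h3 := mul_nonneg (mul_nonneg hAc.le h0.le) (hw1 η hη)
    simp only [hV]
    linarith
  have hVlow : ∀ η ∈ RHD r₁, -(2 * c * r₁) ≤ V η := by
    intro η hη
    refine le_trans ?_ (hV1 η hη)
    have h1 := mul_log_ge (hnorm η hη) hr1
    have hn := hη.2
    have h2 : Real.log ‖η‖ - Real.log r₁ ≤ 0 := by
      have := Real.log_le_log (hnorm η hη) hn.le
      linarith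
    have h3 : ‖η‖ * (Real.log ‖η‖ - Real.log r₁) ≤ η.re * (Real.log ‖η‖ - Real.log r₁) := by
      apply mul_le_mul_of_nonpos_right _ h2
      exact (le_abs_self _).trans (Complex.abs_re_le_norm η)
    have h4 : -r₁ ≤ η.re * (Real.log ‖η‖ - Real.log r₁) := by
      have := (hnorm η hη).le
      linarith
    have h5 : 2 * c / Real.pi * (-r₁) ≤ 2 * c / Real.pi * (η.re * (Real.log ‖η‖ - Real.log r₁)) :=
      mul_le_mul_of_nonneg_left h4 (by positivity)
    have h6 : 2 * c / Real.pi ≤ c := by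
      rw [div_le_iff₀ hpi]
      nlinarith [Real.pi_gt_three]
    have h7 : -(c * r₁) ≤ 2 * c / Real.pi * (-r₁) := by nlinarith
    have h8 : c * ‖η‖ ≤ c * r₁ := mul_le_mul_of_nonneg_left hn.le hc.le
    linarith
  -- the key limit
  have hk : ∀ ζ : ℂ, ζ ≠ 0 → (ζ.re = 0 ∨ ‖ζ‖ = r₁) → Tendsto (fun η : ℂ => 2 * c / Real.pi *
      (η.re * (Real.log ‖η‖ - Real.log r₁)) - c * ‖η‖) (𝓝 ζ) (𝓝 (-(c * ‖ζ‖))) := by
    intro ζ hζ h
    have h1 : ContinuousAt (fun η : ℂ => 2 * c / Real.pi *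
        (η.re * (Real.log ‖η‖ - Real.log r₁)) - c * ‖η‖) ζ := by
      have h2 : ContinuousAt (fun η : ℂ => Real.log ‖η‖) ζ :=
        ContinuousAt.log continuous_norm.continuousAt (norm_ne_zero_iff.2 hζ)
      have h3 : ContinuousAt (fun η : ℂ => η.re) ζ := Complex.continuous_re.continuousAt
      exact ((continuousAt_const.mul (h3.mul (h2.sub continuousAt_const))).sub
        (continuousAt_const.mul continuous_norm.continuousAt))
    have h2 : 2 * c / Real.pi * (ζ.re * (Real.log ‖ζ‖ - Real.log r₁)) - c * ‖ζ‖ =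
        -(c * ‖ζ‖) := by
      rcases h with h | h
      · rw [h]; ring
      · rw [h]; ring
    rw [← h2]
    exact h1
  have key := (hs.mono (fun z (hz : z ∈ RHD r₁) => mem_ball_zero_iff.2 hz.2)).le_harmonic_diff
    (isOpen_RHD r₁) (isBounded_RHD r₁) hVh (B := A * r₁ + 2 * c * r₁)
    (fun z hz => by
      have h1 := hA' z hz.2
      have h2 := hVlow z hz
      have h3 : A * ‖z‖ ≤ A * r₁ := mul_le_mul_of_nonneg_left hz.2.le hA
      linarith)
    (E := {0, Complex.I * r₀, -(Complex.I * r₀), Complex.I * r₁, -(Complex.I * r₁)})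
    (by simp) (fun ζ hζ hζE ε hε => by
      simp only [mem_insert_iff, mem_singleton_iff, not_or] at hζE
      obtain ⟨e1, e2, e3, e4, e5⟩ := hζE
      rcases frontier_RHD hζ with h | h | h | h
      · -- the imaginary axis
        have hlim := hk ζ e1 (Or.inl h.1)
        have hζim : ζ = Complex.I * ζ.im := by
          apply Complex.ext <;> simp [h.1]
        have hζn : ‖ζ‖ = |ζ.im| := by
          conv_lhs => rw [hζim]
          rw [norm_mul, Complex.norm_I, one_mul, Complex.norm_real, Real.norm_eq_abs]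
        rcases lt_trichotomy ‖ζ‖ r₀ with h3 | h3 | h3
        · -- inside
          have h4 : ∀ᶠ η in 𝓝 ζ, -(c * ‖ζ‖) - ε / 4 < 2 * c / Real.pi *
              (η.re * (Real.log ‖η‖ - Real.log r₁)) - c * ‖η‖ :=
            hlim (Ioi_mem_nhds (by linarith))
          have h5 : ∀ᶠ η in 𝓝 ζ, ‖η‖ < r₀ := continuous_norm.continuousAt (Iio_mem_nhds h3)
          have h6 : ContinuousAt (fun η : ℂ => (A + c) * r₀ * (1 / Real.pi *
              (Real.pi - 2 * r₀ * η.re / (r₀ ^ 2 - ‖η‖ ^ 2)))) ζ := by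
            have h7 : ContinuousAt (fun η : ℂ => η.re) ζ := Complex.continuous_re.continuousAt
            have h8 : ContinuousAt (fun η : ℂ => ‖η‖) ζ := continuous_norm.continuousAt
            refine continuousAt_const.mul (continuousAt_const.mul (continuousAt_const.sub
              (ContinuousAt.div (continuousAt_const.mul h7) (continuousAt_const.sub (h8.pow 2))
                ?_)))
            have : ‖ζ‖ ^ 2 < r₀ ^ 2 := by nlinarith [norm_nonneg ζ]
            linarith
          have h6' : (A + c) * r₀ * (1 / Real.pi *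
              (Real.pi - 2 * r₀ * ζ.re / (r₀ ^ 2 - ‖ζ‖ ^ 2))) = (A + c) * r₀ := by
            rw [h.1]
            field_simp
            ring
          have h7 : ∀ᶠ η in 𝓝 ζ, (A + c) * r₀ - ε / 4 < (A + c) * r₀ * (1 / Real.pi *
              (Real.pi - 2 * r₀ * η.re / (r₀ ^ 2 - ‖η‖ ^ 2))) := by
            have := h6.tendsto
            rw [h6'] at this
            exact this (Ioi_mem_nhds (by linarith))
          have h8c : Tendsto (fun η : ℂ => A * ‖η‖) (𝓝 ζ) (𝓝 (A * ‖ζ‖)) :=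
            (continuous_const.mul continuous_norm).tendsto ζ
          have h8 : ∀ᶠ η in 𝓝 ζ, A * ‖η‖ < A * ‖ζ‖ + ε / 4 := h8c (Iio_mem_nhds (by linarith))
          filter_upwards [h4.filter_mono nhdsWithin_le_nhds, h5.filter_mono nhdsWithin_le_nhds,
            h7.filter_mono nhdsWithin_le_nhds, h8.filter_mono nhdsWithin_le_nhds,
            self_mem_nhdsWithin] with η g1 g2 g3 g4 g5
          have g6 := hA' η g5.2
          have g7 := hT η g5
          have g8 := mul_nonneg (mul_nonneg hAc.le hr1.le) (hw2 η)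
          have g9 : (A + c) * r₀ * (1 / Real.pi *
              (Real.pi - 2 * r₀ * η.re / (r₀ ^ 2 - ‖η‖ ^ 2))) ≤
              (A + c) * r₀ * (1 / Real.pi * ang r₀ η) :=
            mul_le_mul_of_nonneg_left (mul_le_mul_of_nonneg_left (le_ang h0 g5.1 g2)
              (by positivity)) (by positivity)
          have g10 : (A + c) * ‖ζ‖ ≤ (A + c) * r₀ := mul_le_mul_of_nonneg_left h3.le hAc.le
          simp only [hV]
          linarith
        · exfalso
          rw [hζn] at h3
          rcases abs_cases ζ.im with ⟨h7, _⟩ | ⟨h7, _⟩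
          · apply e2
            rw [hζim, ← h3, h7]
          · apply e3
            rw [hζim, ← h3, h7]
            push_cast
            ring
        · -- outside
          have h4 : ∀ᶠ η in 𝓝 ζ, -(c * ‖ζ‖) - ε / 4 < 2 * c / Real.pi *
              (η.re * (Real.log ‖η‖ - Real.log r₁)) - c * ‖η‖ :=
            hlim (Ioi_mem_nhds (by linarith))
          have h5 := hc' ζ h.1 h3 h.2
          have h6 := hs.usc ζ (mem_ball_zero_iff.2 h.2) (-(c * ‖ζ‖) + ε / 4) (by
            show v ζ < _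
            linarith)
          have h7 := h6.filter_mono (nhdsWithin_mono ζ
            (fun z (hz : z ∈ RHD r₁) => mem_ball_zero_iff.2 hz.2))
          filter_upwards [h4.filter_mono nhdsWithin_le_nhds, h7, self_mem_nhdsWithin]
            with η g1 g2 g3
          have g4 := hV1 η g3
          have g5 : v η < -(c * ‖ζ‖) + ε / 4 := g2
          linarith
      · -- the arc
        have hlim := hk ζ e1 (Or.inr h.2)
        have h1 := ang_tendsto hr1 h.1 h.2
        have h2 : Tendsto (fun η => (A + c) * r₁ * (2 - 2 / Real.pi * ang r₁ η)) (𝓝 ζ)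
            (𝓝 ((A + c) * r₁ * (2 - 2 / Real.pi * (Real.pi / 2)))) :=
          tendsto_const_nhds.mul (tendsto_const_nhds.sub (tendsto_const_nhds.mul h1))
        have h3 : (A + c) * r₁ * (2 - 2 / Real.pi * (Real.pi / 2)) = (A + c) * r₁ := by
          field_simp
          ring
        rw [h3] at h2
        have h4 : ∀ᶠ η in 𝓝 ζ, -(c * ‖ζ‖) - ε / 4 < 2 * c / Real.pi *
              (η.re * (Real.log ‖η‖ - Real.log r₁)) - c * ‖η‖ :=
            hlim (Ioi_mem_nhds (by linarith))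
        have h5 : ∀ᶠ η in 𝓝 ζ, (A + c) * r₁ - ε / 4 <
            (A + c) * r₁ * (2 - 2 / Real.pi * ang r₁ η) := h2 (Ioi_mem_nhds (by linarith))
        filter_upwards [h4.filter_mono nhdsWithin_le_nhds, h5.filter_mono nhdsWithin_le_nhds,
          self_mem_nhdsWithin] with η g1 g2 g3
        have g4 := hT η g3
        have g5 := mul_nonneg (mul_nonneg hAc.le h0.le) (hw1 η g3)
        have g6 := hA' η g3.2
        have g7 : A * ‖η‖ ≤ A * r₁ := mul_le_mul_of_nonneg_left g3.2.le hA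
        rw [h.2] at g1
        simp only [hV]
        linarith
      · exact absurd h e4
      · exact absurd h e5)
  intro η hη hn
  have hηR : η ∈ RHD r₁ := ⟨hη, by rw [hn]; linarith⟩
  refine lt_of_le_of_lt (key η hηR) ?_
  have h1 : 2 * c / Real.pi * tlog r₁ η ≤
      2 * c / Real.pi * (η.re * (Real.log (10 * r₀) - Real.log r₁)) := by
    apply mul_le_mul_of_nonneg_left _ (by positivity)
    rw [← hn]
    exact (tlog_bounds hη).2
  have h2 : (A + c) * r₁ * (2 - 2 / Real.pi * ang r₁ η) ≤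
      (A + c) * (4 / Real.pi * (r₁ ^ 2 * η.re / (r₁ ^ 2 - (10 * r₀) ^ 2))) := by
    have h3 := le_ang hr1 hη hηR.2
    rw [hn] at h3
    have h4 : 2 / Real.pi * (Real.pi - 2 * r₁ * η.re / (r₁ ^ 2 - (10 * r₀) ^ 2)) ≤
        2 / Real.pi * ang r₁ η := mul_le_mul_of_nonneg_left h3 (by positivity)
    have h5 : (A + c) * r₁ * (2 - 2 / Real.pi * ang r₁ η) ≤ (A + c) * r₁ *
        (2 - 2 / Real.pi * (Real.pi - 2 * r₁ * η.re / (r₁ ^ 2 - (10 * r₀) ^ 2))) :=
      mul_le_mul_of_nonneg_left (by linarith) (by positivity)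
    refine h5.trans (le_of_eq ?_)
    have h6 : r₁ ^ 2 - (10 * r₀) ^ 2 ≠ 0 := by nlinarith
    field_simp
    ring
  have h3 : (A + c) * r₀ * (1 / Real.pi * ang r₀ η) ≤
      (A + c) * (1 / Real.pi * (2 * r₀ ^ 2 * η.re / ((10 * r₀) ^ 2 - r₀ ^ 2))) := by
    have h4 := ang_le h0 hη (by rw [hn]; linarith)
    rw [hn] at h4
    have h5 : (A + c) * r₀ * (1 / Real.pi * ang r₀ η) ≤ (A + c) * r₀ *
        (1 / Real.pi * (2 * r₀ * η.re / ((10 * r₀) ^ 2 - r₀ ^ 2))) :=
      mul_le_mul_of_nonneg_left (mul_le_mul_of_nonneg_left h4 (by positivity)) (by positivity)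
    refine h5.trans (le_of_eq ?_)
    have h6 : (10 * r₀) ^ 2 - r₀ ^ 2 ≠ 0 := by nlinarith
    field_simp
  have h4 : r₁ ^ 2 * η.re / (r₁ ^ 2 - (10 * r₀) ^ 2) ≤ 100 / 99 * η.re := by
    rw [div_le_iff₀ (by nlinarith)]
    have h5 : (10 * r₀) ^ 2 ≤ r₁ ^ 2 / 100 := by nlinarith
    have h6 : r₁ ^ 2 ≤ 100 / 99 * (r₁ ^ 2 - (10 * r₀) ^ 2) := by nlinarith
    have h7 := mul_le_mul_of_nonneg_left h6 hη.le
    nlinarith
  have h5 : 2 * r₀ ^ 2 * η.re / ((10 * r₀) ^ 2 - r₀ ^ 2) = 2 / 99 * η.re := by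
    have h6 : (10 * r₀) ^ 2 - r₀ ^ 2 ≠ 0 := by nlinarith
    field_simp
    ring
  have h6 : (A + c) * (4 / Real.pi * (r₁ ^ 2 * η.re / (r₁ ^ 2 - (10 * r₀) ^ 2))) ≤
      (A + c) * (4 / Real.pi * (100 / 99 * η.re)) :=
    mul_le_mul_of_nonneg_left (mul_le_mul_of_nonneg_left h4 (by positivity)) hAc.le
  rw [h5] at h3
  have h7 : Real.log r₁ - Real.log (10 * r₀) = Real.log (r₁ / r₀) - Real.log 10 := by
    rw [Real.log_mul (by norm_num) h0.ne', Real.log_div hr1.ne' h0.ne']
    ring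
  have h8 : 3 * ((A + c) / c) < Real.log r₁ - Real.log (10 * r₀) := by rw [h7]; linarith
  have h9 : 3 * (A + c) < c * (Real.log r₁ - Real.log (10 * r₀)) := by
    have := mul_lt_mul_of_pos_left h8 hc
    have e : c * (3 * ((A + c) / c)) = 3 * (A + c) := by field_simp
    linarith
  have h10 : V η ≤ η.re / Real.pi * (-(2 * (c * (Real.log r₁ - Real.log (10 * r₀)))) +
      402 / 99 * (A + c)) := by
    have e1 : η.re / Real.pi * (-(2 * (c * (Real.log r₁ - Real.log (10 * r₀)))) +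
      402 / 99 * (A + c)) = 2 * c / Real.pi * (η.re * (Real.log (10 * r₀) - Real.log r₁)) +
        (A + c) * (4 / Real.pi * (100 / 99 * η.re)) + (A + c) * (1 / Real.pi * (2 / 99 * η.re)) := by
      field_simp
      ring
    rw [e1]
    simp only [hV]
    linarith
  refine lt_of_le_of_lt h10 ?_
  apply mul_neg_of_pos_of_neg (by positivity)
  nlinarith

/-- **The log gain lemma** -/
theorem log_gain {u : ℂ → ℝ} {A c r₀ r₁ : ℝ} (hA : 0 ≤ A) (hc : 0 < c) (h0 : 0 < r₀)
    (h01 : r₀ < r₁) (hs : SubH u (ball 0 r₁)) (hu0 : 0 ≤ u 0)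
    (hA' : ∀ η, ‖η‖ < r₁ → u η ≤ A * ‖η‖)
    (hc' : ∀ ζ : ℂ, ζ.re = 0 → r₀ ≤ ‖ζ‖ → ‖ζ‖ < r₁ → u ζ ≤ -c * ‖ζ‖) :
    Real.log (r₁ / r₀) ≤ 5 + 3 * ((A + c) / c) := by
  by_contra hcon
  push Not at hcon
  have hr1 : 0 < r₁ := by linarith
  have hAc : 0 ≤ (A + c) / c := by positivity
  have hlog10 : Real.log 10 < 2.31 := by
    rw [show (10 : ℝ) = 2 ^ 3 * (5 / 4) by norm_num, Real.log_mul (by norm_num) (by norm_num),
      Real.log_pow]
    have h1 := Real.log_two_lt_d9
    have h2 := Real.log_le_sub_one_of_pos (show (0 : ℝ) < 5 / 4 by norm_num)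
    have h3 : Real.log (5 / 4) < 0.23 := by
      rw [Real.log_lt_iff_lt_exp (by norm_num)]
      have h4 : (1 : ℝ) + 0.23 + 0.23 ^ 2 / 2 ≤ Real.exp 0.23 :=
        Real.quadratic_le_exp_of_nonneg (by norm_num)
      norm_num at h4 ⊢
      linarith
    push_cast
    linarith
  have h100 : 100 * r₀ < r₁ := by
    have h1 : Real.log 100 < Real.log (r₁ / r₀) := by
      rw [show (100 : ℝ) = 10 * 10 by norm_num, Real.log_mul (by norm_num) (by norm_num)]
      linarith
    have h2 := (Real.log_lt_log_iff (by norm_num) (by positivity)).1 h1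
    rwa [lt_div_iff₀ h0] at h2
  have hL : Real.log 10 + 3 * ((A + c) / c) < Real.log (r₁ / r₀) := by linarith
  have hp := gain_half hA hc h0 h100 hs hA' (fun ζ h1 h2 h3 => hc' ζ h1 h2.le h3) hL
  have hsn : SubH (fun z => u (-z)) (ball 0 r₁) :=
    hs.comp (φ := fun z => -z) isOpen_ball isOpen_ball
      (fun z _ => (analyticAt_id (𝕜 := ℂ)).neg) (fun z hz => by
        rw [mem_ball_zero_iff] at hz ⊢
        rwa [norm_neg])
  have hm := gain_half (v := fun z => u (-z)) hA hc h0 h100 hsn (fun η hη => by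
      have := hA' (-η) (by rwa [norm_neg])
      rwa [norm_neg] at this) (fun ζ h1 h2 h3 => by
      have := hc' (-ζ) (by rw [Complex.neg_re, h1, neg_zero]) (by rw [norm_neg]; exact h2.le)
        (by rwa [norm_neg])
      rwa [norm_neg] at this) hL
  have hneg : ∀ z ∈ sphere (0 : ℂ) (10 * r₀), u z < 0 := by
    intro z hz
    rw [mem_sphere_zero_iff_norm] at hz
    rcases lt_trichotomy z.re 0 with h | h | h
    · have := hm (-z) (by simpa using h) (by rw [norm_neg]; exact hz)
      rwa [neg_neg] at this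
    · have := hc' z h (by rw [hz]; linarith) (by rw [hz]; linarith)
      rw [hz] at this
      have h2 : 0 < c * (10 * r₀) := by positivity
      linarith
    · exact hp z h hz
  have hsub : closedBall (0 : ℂ) (10 * r₀) ⊆ ball 0 r₁ := closedBall_subset_ball (by linarith)
  obtain ⟨z₀, hz₀, hmax⟩ := (hs.usc.mono (sphere_subset_closedBall.trans hsub)).exists_isMaxOn
    (NormedSpace.sphere_nonempty.2 (by linarith)) (isCompact_sphere (0 : ℂ) (10 * r₀))
  have h1 := (hs.mono (ball_subset_closedBall.trans hsub)).le_circleAverage (by linarith)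
    (hs.usc.mono hsub) (g := fun _ => u z₀) continuousOn_const (fun z hz => hmax hz)
  rw [Real.circleAverage_const] at h1
  have h2 := hneg z₀ hz₀
  linarith

end Pool.Agent.Lib.MP_ae5b4e_an_LL
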