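import Pool.Agent.Lib.MP_ae5b4e_an_LL.Rabs
import Pool.Agent.Lib.MP_ae5b4e_an_NBT.Levi

/-!
# Library layer: the radius of meromorphic extension is log superharmonic

`F (t, η)` is given near `{t₁} × V`; `ExtR F t₁ s η`: `F` extends meromorphically to a
neighbourhood of `ball t₁ s × {η}`.
-/

set_option autoImplicit false

namespace Pool.Agent.Lib.MP_ae5b4e_an_LL

open Topology Filter Set Metric InnerProductSpace
open Pool.Agent.MP_ae5b4e_an_NBT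

/-- `F` extends meromorphically near `ball t₁ s × {η}` -/
def ExtR (F : ℂ × ℂ → ℂ) (t₁ : ℂ) (s : ℝ) (η : ℂ) : Prop :=
  ∃ δ > 0, ∃ G : ℂ × ℂ → ℂ, Mer G (ball t₁ s ×ˢ ball η δ) ∧ ∀ η' ∈ ball η δ, EqM G F (t₁, η')

/-- the domain of the maximal extension -/
def mdom (F : ℂ × ℂ → ℂ) (t₁ : ℂ) : Set (ℂ × ℂ) :=
  {p | ∃ s, dist p.1 t₁ < s ∧ ExtR F t₁ s p.2}

variable {F : ℂ × ℂ → ℂ} {t₁ η : ℂ} {s s' Y : ℝ} {V : Set ℂ}

theorem ExtR.mono (h : ExtR F t₁ s η) (hs : s' ≤ s) : ExtR F t₁ s' η := by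
  obtain ⟨δ, hδ, G, h1, h2⟩ := h
  exact ⟨δ, hδ, G, h1.mono (prod_mono (ball_subset_ball hs) le_rfl), h2⟩

theorem ExtR.eventually (h : ExtR F t₁ s η) : ∀ᶠ η' in 𝓝 η, ExtR F t₁ s η' := by
  obtain ⟨δ, hδ, G, h1, h2⟩ := h
  filter_upwards [ball_mem_nhds η hδ] with η' hη'
  obtain ⟨δ', hδ', hsub⟩ := Metric.isOpen_iff.1 isOpen_ball η' hη'
  exact ⟨δ', hδ', G, h1.mono (prod_mono le_rfl hsub), fun ζ hζ => h2 ζ (hsub hζ)⟩

theorem ExtR.of_merAt (hF : ∀ᶠ p in 𝓝 (t₁, η), MerAt F p) : ∃ s > 0, ExtR F t₁ s η := by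
  rw [Metric.eventually_nhds_iff_ball] at hF
  obtain ⟨δ, hδ, h⟩ := hF
  refine ⟨δ, hδ, δ, hδ, F, ?_, fun _ _ => EqM.refl _ _⟩
  rw [ball_prod_same]
  exact h

theorem isOpen_mdom : IsOpen (mdom F t₁) := by
  rw [isOpen_iff_mem_nhds]
  rintro ⟨t, η⟩ ⟨s, hs, h⟩
  have h1 : ∀ᶠ p : ℂ × ℂ in 𝓝 (t, η), dist p.1 t₁ < s :=
    (continuous_fst.dist continuous_const).continuousAt.eventually (gt_mem_nhds hs)
  have h2 : ∀ᶠ p : ℂ × ℂ in 𝓝 (t, η), ExtR F t₁ s p.2 :=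
    (continuous_snd.continuousAt (x := (t, η))).eventually h.eventually
  filter_upwards [h1, h2] with p hp1 hp2
  exact ⟨s, hp1, hp2⟩

/-- the maximal extension -/
theorem exists_mext (F : ℂ × ℂ → ℂ) (t₁ : ℂ) :
    ∃ E : ℂ × ℂ → ℂ, Mer E (mdom F t₁) ∧ ∀ η, (t₁, η) ∈ mdom F t₁ → EqM E F (t₁, η) := by
  obtain ⟨E, hE, hEG⟩ := exists_glue
    (ι := {i : ℂ × ℝ × ℝ × (ℂ × ℂ → ℂ) //
      Mer i.2.2.2 (ball t₁ i.2.1 ×ˢ ball i.1 i.2.2.1) ∧
      ∀ η' ∈ ball i.1 i.2.2.1, EqM i.2.2.2 F (t₁, η')})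
    (fun i => ball t₁ i.1.2.1 ×ˢ ball i.1.1 i.1.2.2.1)
    (fun i => isOpen_ball.prod isOpen_ball) (fun i => i.1.2.2.2) (fun i => i.2.1) (by
      rintro i j q ⟨hqi, hqj⟩
      have hc : IsPreconnected ((ball t₁ i.1.2.1 ×ˢ ball i.1.1 i.1.2.2.1) ∩
          (ball t₁ j.1.2.1 ×ˢ ball j.1.1 j.1.2.2.1)) :=
        (((convex_ball _ _).prod (convex_ball _ _)).inter
          ((convex_ball _ _).prod (convex_ball _ _))).isPreconnected
      have hi0 : 0 < i.1.2.1 := dist_nonneg.trans_lt hqi.1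
      have hj0 : 0 < j.1.2.1 := dist_nonneg.trans_lt hqj.1
      exact Mer.eqM hc (i.2.1.mono inter_subset_left) (j.2.1.mono inter_subset_right)
        (p := (t₁, q.2)) ⟨⟨mem_ball_self hi0, hqi.2⟩, ⟨mem_ball_self hj0, hqj.2⟩⟩
        ((i.2.2 _ hqi.2).trans (j.2.2 _ hqj.2).symm) q ⟨hqi, hqj⟩)
  refine ⟨E, hE.mono ?_, ?_⟩
  · rintro p ⟨s, hs, δ, hδ, G, hG, hG2⟩
    exact mem_iUnion.2 ⟨⟨(p.2, s, δ, G), hG, hG2⟩, hs, mem_ball_self hδ⟩
  · rintro η ⟨s, hs, δ, hδ, G, hG, hG2⟩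
    exact (hEG ⟨(η, s, δ, G), hG, hG2⟩ (t₁, η) ⟨hs, mem_ball_self hδ⟩).trans
      (hG2 η (mem_ball_self hδ))

/-- the homeomorphism `(z, η) ↦ (t₁ + exp (Q η) z, η)` -/
noncomputable def scal (t₁ : ℂ) (Q : ℂ → ℂ) (hQ : Continuous Q) : (ℂ × ℂ) ≃ₜ (ℂ × ℂ) where
  toFun p := (t₁ + Complex.exp (Q p.2) * p.1, p.2)
  invFun p := (Complex.exp (-Q p.2) * (p.1 - t₁), p.2)
  left_inv p := by
    ext
    · show Complex.exp (-Q p.2) * (t₁ + Complex.exp (Q p.2) * p.1 - t₁) = p.1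
      rw [add_sub_cancel_left, ← mul_assoc, ← Complex.exp_add, neg_add_cancel, Complex.exp_zero,
        one_mul]
    · rfl
  right_inv p := by
    ext
    · show t₁ + Complex.exp (Q p.2) * (Complex.exp (-Q p.2) * (p.1 - t₁)) = p.1
      rw [← mul_assoc, ← Complex.exp_add, add_neg_cancel, Complex.exp_zero, one_mul,
        add_sub_cancel]
    · rfl
  continuous_toFun := by fun_prop
  continuous_invFun := by fun_prop

theorem analyticAt_scal {Q : ℂ → ℂ} (hQ : Differentiable ℂ Q) (p : ℂ × ℂ) :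
    AnalyticAt ℂ (scal t₁ Q hQ.continuous) p := by
  change AnalyticAt ℂ (fun p : ℂ × ℂ => (t₁ + Complex.exp (Q p.2) * p.1, p.2)) p
  have h : AnalyticAt ℂ (fun p : ℂ × ℂ => Q p.2) p :=
    AnalyticAt.fun_comp (g := Q) (f := fun p : ℂ × ℂ => p.2) (hQ.analyticAt _) analyticAt_snd
  exact AnalyticAt.prod (analyticAt_const.add (h.cexp.mul analyticAt_fst)) analyticAt_snd

theorem analyticAt_scal_symm {Q : ℂ → ℂ} (hQ : Differentiable ℂ Q) (p : ℂ × ℂ) :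
    AnalyticAt ℂ (scal t₁ Q hQ.continuous).symm p := by
  change AnalyticAt ℂ (fun p : ℂ × ℂ => (Complex.exp (-Q p.2) * (p.1 - t₁), p.2)) p
  have h : AnalyticAt ℂ (fun p : ℂ × ℂ => Q p.2) p :=
    AnalyticAt.fun_comp (g := Q) (f := fun p : ℂ × ℂ => p.2) (hQ.analyticAt _) analyticAt_snd
  exact AnalyticAt.prod (h.neg.cexp.mul (analyticAt_fst.sub analyticAt_const)) analyticAt_snd

/-- the disc theorem for the radius of meromorphic extension -/
theorem mdisc {c : ℂ} {r : ℝ} (hr : 0 < r) {Q : ℂ → ℂ} (hQ : Differentiable ℂ Q)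
    (h1 : ∀ η ∈ closedBall c r, ∃ s > 0, ExtR F t₁ s η)
    (h2 : ∀ η ∈ sphere c r, ∃ s > Real.exp (Q η).re, ExtR F t₁ s η)
    (hσ : s < Real.exp (Q c).re) : ExtR F t₁ s c := by
  obtain ⟨E, hE1, hE2⟩ := exists_mext F t₁
  set e := scal t₁ Q hQ.continuous with he
  have hea : ∀ p, e p = (t₁ + Complex.exp (Q p.2) * p.1, p.2) := fun p => rfl
  have hes : ∀ p, e.symm p = (Complex.exp (-Q p.2) * (p.1 - t₁), p.2) := fun p => rfl
  set U : Set (ℂ × ℂ) := e ⁻¹' mdom F t₁ with hU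
  have hUo : IsOpen U := isOpen_mdom.preimage e.continuous
  have hHa : Mer (fun p => E (e p)) U := fun p hp =>
    MerAt.comp e (analyticAt_scal hQ p) (hE1 _ hp)
  have hsph : ball (0:ℂ) 1 ×ˢ sphere c r ⊆ U := by
    rintro ⟨z, η⟩ ⟨hz, hη⟩
    obtain ⟨s, hs, h⟩ := h2 η hη
    refine ⟨s, ?_, h⟩
    rw [hea]
    simp only [dist_self_add_left, norm_mul, Complex.norm_exp]
    rw [mem_ball_zero_iff] at hz
    calc Real.exp (Q η).re * ‖z‖ ≤ Real.exp (Q η).re * 1 := by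
          apply mul_le_mul_of_nonneg_left hz.le (Real.exp_pos _).le
      _ < s := by rwa [mul_one]
  have hzero : ∀ η ∈ closedBall c r, ((0:ℂ), η) ∈ U := by
    intro η hη
    obtain ⟨s, hs, h⟩ := h1 η hη
    refine ⟨s, ?_, h⟩
    rw [hea]
    simpa using hs
  obtain ⟨g, hg1, hg2⟩ := levi_figure U hUo (fun p => E (e p)) hHa (ball (0:ℂ) 1) isOpen_ball
    (convex_ball _ _).isPreconnected c r hr hsph 0 (mem_ball_self one_pos) hzero
  have hev : ∀ᶠ t in 𝓝 c, s < Real.exp (Q t).re := by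
    have hc : Continuous fun t => Real.exp (Q t).re :=
      Real.continuous_exp.comp (Complex.continuous_re.comp hQ.continuous)
    exact hc.continuousAt.eventually (lt_mem_nhds hσ)
  obtain ⟨ε, hε, hεb⟩ := Metric.eventually_nhds_iff_ball.1
    (hev.and (isOpen_ball.mem_nhds (mem_ball_self hr) : ball c r ∈ 𝓝 c))
  refine ⟨ε, hε, fun p => g (e.symm p), fun p hp => ?_, fun η hη => ?_⟩
  · refine MerAt.comp e.symm (analyticAt_scal_symm hQ p) (hg1.mer _ ?_)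
    rw [hes]
    refine ⟨?_, (hεb p.2 hp.2).2⟩
    have h3 : ‖p.1 - t₁‖ < s := by
      have := hp.1
      rwa [mem_ball, dist_eq_norm] at this
    simp only [mem_ball_zero_iff, norm_mul, Complex.norm_exp, Complex.neg_re, Real.exp_neg]
    rw [inv_mul_lt_iff₀ (Real.exp_pos _), mul_one]
    exact h3.trans (hεb p.2 hp.2).1
  · have hηr := (hεb η hη).2
    have h3 := (hg2.self_of_nhds η hηr).2
    have h4 : EqM g (fun p => E (e p)) (e.symm (t₁, η)) := by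
      rw [hes]
      simpa using h3
    have h5 := EqM.comp e.symm (analyticAt_scal_symm hQ (t₁, η)) h4
    have h6 : (fun q => (fun p => E (e p)) (e.symm q)) = E := by
      funext q
      show E (e (e.symm q)) = E q
      rw [e.apply_symm_apply]
    rw [h6] at h5
    refine h5.trans (hE2 η ?_)
    obtain ⟨s', hs', h⟩ := h1 η (ball_subset_closedBall hηr)
    exact ⟨s', by simpa using hs', h⟩

theorem discP_extR (hV : IsOpen V) (h : ∀ η ∈ V, ∃ s > 0, ExtR F t₁ s η) :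
    DiscP (ExtR F t₁) V where
  isOpen := hV
  mono _ _ _ _ h hs := h.mono hs
  open' _ _ _ h := h.eventually
  pos := h
  disc _ _ hr hcV _ hQ h2 _ hs := mdisc hr hQ (fun η hη => h η (hcV hη)) h2 hs

/-- **the radius of meromorphic extension is log superharmonic** -/
theorem subH_neg_log_mrad (hV : IsOpen V) (hY : 0 < Y) (h : ∀ η ∈ V, ∃ s > 0, ExtR F t₁ s η) :
    SubH (fun η => -Real.log (prad (ExtR F t₁) Y η)) V :=
  (discP_extR hV h).subH_neg_log hY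

end Pool.Agent.Lib.MP_ae5b4e_an_LL
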