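import Pool.Agent.Lib.MP_ae5b4e_an_LL.Int
import Pool.Agent.Lib.MP_ae5b4e_an_NBT.Defs

/-!
# Library layer: subharmonic and superharmonic
-/

set_option autoImplicit false

namespace Pool.Agent.Lib.MP_ae5b4e_an_LL

open Topology Filter Set Metric InnerProductSpace MeasureTheory
open Real (circleAverage)
open Pool.Agent.MP_ae5b4e_an_NBT (SupH)

/-- Tietze extension from a circle -/
theorem exists_continuous_eqOn {g : ℂ → ℝ} {s : Set ℂ} (hs : IsClosed s)
    (hg : ContinuousOn g s) : ∃ φ : ℂ → ℝ, Continuous φ ∧ EqOn φ g s := by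
  obtain ⟨φ, hφ⟩ := ContinuousMap.exists_restrict_eq hs
    (⟨s.domRestrict g, hg.domRestrict⟩ : C(s, ℝ))
  refine ⟨φ, φ.continuous, fun z hz => ?_⟩
  exact congrArg (fun k : C(s, ℝ) => k ⟨z, hz⟩) hφ

theorem subH_neg_of_supH {h : ℂ → ℝ} {W : Set ℂ} (hW : IsOpen W) (hh : SupH h W) :
    SubH (fun z => -h z) W := by
  refine ⟨fun z hz y hy => ?_, fun c hc => ?_⟩
  · have h1 : -y < h z := by
      have : -h z < y := hy
      linarith
    have h2 := hh.lsc z hz (-y) h1
    filter_upwards [h2.filter_mono nhdsWithin_le_nhds] with w hw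
    have : -y < h w := hw
    linarith
  · filter_upwards [eventually_closedBall_subset (hW.mem_nhds hc)] with r hr g hg1 hg2
    obtain ⟨φ, hφ1, hφ2⟩ := exists_continuous_eqOn isClosed_sphere hg1
    have h1 := hh.mean c r hr.1 hr.2 (fun z => -φ z) hφ1.neg (fun z hz => by
      have := hg2 z hz
      rw [hφ2 hz]
      linarith)
    have h2 : circleAverage (fun z => -φ z) c r = - circleAverage g c r := by
      have h3 : circleAverage (fun z => -φ z) c r = circleAverage (fun z => -g z) c r := by
        apply Real.circleAverage_congr_sphere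
        intro z hz
        rw [abs_of_pos hr.1] at hz
        show -φ z = -g z
        rw [hφ2 hz]
      rw [h3]
      have := Real.circleAverage_fun_smul (a := (-1 : ℝ)) (f := g) (c := c) (R := r)
      simpa using this
    rw [h2] at h1
    linarith

theorem supH_of_subH {h : ℂ → ℝ} {W : Set ℂ} (hW : IsOpen W) (hh : SubH (fun z => -h z) W) :
    SupH h W := by
  refine ⟨fun z hz y hy => ?_, fun c s hs hcs φ hφ1 hφ2 => ?_⟩
  · have h1 : -h z < -y := by
      have : y < h z := hy
      linarith
    have h2 := hh.usc z hz (-y) h1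
    rw [nhdsWithin_eq_nhds.2 (hW.mem_nhds hz)] at h2
    filter_upwards [h2] with w hw
    have : -h w < -y := hw
    linarith
  · have h1 := (hh.mono (ball_subset_closedBall.trans hcs)).le_circleAverage hs (hh.usc.mono hcs)
      (g := fun z => -φ z) hφ1.neg.continuousOn (fun z hz => by
        have := hφ2 z hz
        linarith)
    have h2 : circleAverage (fun z => -φ z) c s = - circleAverage φ c s := by
      have := Real.circleAverage_fun_smul (a := (-1 : ℝ)) (f := φ) (c := c) (R := s)
      simpa using this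
    rw [h2] at h1
    linarith

theorem supH_iff {h : ℂ → ℝ} {W : Set ℂ} (hW : IsOpen W) :
    SupH h W ↔ SubH (fun z => -h z) W := ⟨subH_neg_of_supH hW, supH_of_subH hW⟩

end Pool.Agent.Lib.MP_ae5b4e_an_LL
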