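import Pool.Agent.Lib.MP_ae5b4e_an_LL.Max
import Pool.Agent.Lib.MP_ae5b4e_an_LL.Bridge
import Pool.Agent.Lib.MP_ae5b4e_an_NBT.SupA
import Pool.Agent.Lib.SCV.Hartogs

/-!
# Library layer: the Hartogs radius of a holomorphic function with values in a given set

`Φ (t, η)` is given near `V × {η₀}`; `hrad t` is the largest radius `s ≤ Y` such that `Φ` extends,
holomorphically and with values in `Ω`, to a neighbourhood of `{t} × ball η₀ s'` for all `s' < s`.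
Then `- log (hrad t)` is subharmonic on `V`; the extensions glue to one function.
-/

set_option autoImplicit false

namespace Pool.Agent.Lib.MP_ae5b4e_an_LL

open Topology Filter Set Metric InnerProductSpace
open Real (circleAverage)
open Pool.Agent.MP_ae5b4e_an_NBT (SupH supH_of_disc)
open Pool.Agent.SCV (hartogs_figure)

/-- `Φ` extends near `{t} × ball η₀ s`, with values in `Ω` -/
def ExtH (Φ : ℂ × ℂ → ℂ) (η₀ : ℂ) (Ω : Set ℂ) (s : ℝ) (t : ℂ) : Prop :=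
  ∃ ε > 0, ∃ G : ℂ × ℂ → ℂ, AnalyticOnNhd ℂ G (ball t ε ×ˢ ball η₀ s) ∧
    MapsTo G (ball t ε ×ˢ ball η₀ s) Ω ∧ ∀ t' ∈ ball t ε, ∀ᶠ p in 𝓝 (t', η₀), G p = Φ p

/-- the Hartogs radius, cut off at `Y` -/
noncomputable def hrad (Φ : ℂ × ℂ → ℂ) (η₀ : ℂ) (Ω : Set ℂ) (Y : ℝ) (t : ℂ) : ℝ :=
  sSup {s | 0 < s ∧ s ≤ Y ∧ ExtH Φ η₀ Ω s t}

/-- the domain of the maximal extension -/
def hdom (Φ : ℂ × ℂ → ℂ) (η₀ : ℂ) (Ω : Set ℂ) : Set (ℂ × ℂ) :=
  {p | ∃ s, dist p.2 η₀ < s ∧ ExtH Φ η₀ Ω s p.1}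

variable {Φ : ℂ × ℂ → ℂ} {η₀ : ℂ} {Ω : Set ℂ} {s s' Y : ℝ} {t : ℂ} {V : Set ℂ}

theorem ExtH.mono (h : ExtH Φ η₀ Ω s t) (hs : s' ≤ s) : ExtH Φ η₀ Ω s' t := by
  obtain ⟨ε, hε, G, h1, h2, h3⟩ := h
  have hsub : ball t ε ×ˢ ball η₀ s' ⊆ ball t ε ×ˢ ball η₀ s :=
    prod_mono le_rfl (ball_subset_ball hs)
  exact ⟨ε, hε, G, h1.mono hsub, h2.mono_left hsub, h3⟩

theorem ExtH.eventually (h : ExtH Φ η₀ Ω s t) : ∀ᶠ t' in 𝓝 t, ExtH Φ η₀ Ω s t' := by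
  obtain ⟨ε, hε, G, h1, h2, h3⟩ := h
  filter_upwards [ball_mem_nhds t hε] with t' ht'
  obtain ⟨δ, hδ, hsub⟩ := Metric.isOpen_iff.1 isOpen_ball t' ht'
  have hsub' : ball t' δ ×ˢ ball η₀ s ⊆ ball t ε ×ˢ ball η₀ s := prod_mono hsub le_rfl
  exact ⟨δ, hδ, G, h1.mono hsub', h2.mono_left hsub', fun t'' ht'' => h3 t'' (hsub ht'')⟩

theorem ExtH.of_analytic (hΦ : AnalyticAt ℂ Φ (t, η₀)) (hΩ : ∀ᶠ p in 𝓝 (t, η₀), Φ p ∈ Ω) :
    ∃ s > 0, ExtH Φ η₀ Ω s t := by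
  have h1 := hΦ.eventually_analyticAt.and hΩ
  rw [Metric.eventually_nhds_iff_ball] at h1
  obtain ⟨δ, hδ, h1⟩ := h1
  have hsub : ball t δ ×ˢ ball η₀ δ ⊆ ball (t, η₀) δ := by
    rw [ball_prod_same]
  refine ⟨δ, hδ, δ, hδ, Φ, fun p hp => (h1 p (hsub hp)).1, fun p hp => (h1 p (hsub hp)).2,
    fun t' _ => Eventually.of_forall fun _ => rfl⟩

theorem hrad_bddAbove : BddAbove {s | 0 < s ∧ s ≤ Y ∧ ExtH Φ η₀ Ω s t} :=
  ⟨Y, fun _ hs => hs.2.1⟩

theorem le_hrad (hs : 0 < s) (hsY : s ≤ Y) (h : ExtH Φ η₀ Ω s t) : s ≤ hrad Φ η₀ Ω Y t :=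
  le_csSup hrad_bddAbove ⟨hs, hsY, h⟩

theorem hrad_pos (hY : 0 < Y) (h : ∃ s > 0, ExtH Φ η₀ Ω s t) : 0 < hrad Φ η₀ Ω Y t := by
  obtain ⟨s, hs, h⟩ := h
  exact lt_of_lt_of_le (lt_min hs hY)
    (le_hrad (lt_min hs hY) (min_le_right _ _) (h.mono (min_le_left _ _)))

theorem hrad_le (hY : 0 < Y) (h : ∃ s > 0, ExtH Φ η₀ Ω s t) : hrad Φ η₀ Ω Y t ≤ Y := by
  obtain ⟨s, hs, h⟩ := h
  exact csSup_le ⟨min s Y, lt_min hs hY, min_le_right _ _, h.mono (min_le_left _ _)⟩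
    fun _ hs => hs.2.1

theorem extH_of_lt (hs : 0 < s) (h : s < hrad Φ η₀ Ω Y t) : ExtH Φ η₀ Ω s t := by
  have hne : {s | 0 < s ∧ s ≤ Y ∧ ExtH Φ η₀ Ω s t}.Nonempty := by
    by_contra hne
    rw [not_nonempty_iff_eq_empty] at hne
    rw [hrad, hne, Real.sSup_empty] at h
    exact lt_asymm hs h
  obtain ⟨s₁, hs₁, hlt⟩ := exists_lt_of_lt_csSup hne h
  exact hs₁.2.2.mono hlt.le

theorem hrad_lsc (hY : 0 < Y) (h : ∃ s > 0, ExtH Φ η₀ Ω s t) :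
    LowerSemicontinuousAt (hrad Φ η₀ Ω Y) t := by
  intro y hy
  obtain ⟨m, hm1, hm2⟩ := exists_between (max_lt hy (hrad_pos hY h))
  have hm0 : 0 < m := (le_max_right _ _).trans_lt hm1
  have hmY : m ≤ Y := hm2.le.trans (hrad_le hY h)
  filter_upwards [(extH_of_lt hm0 hm2).eventually] with t' ht'
  exact ((le_max_left _ _).trans_lt hm1).trans_le (le_hrad hm0 hmY ht')

/-! ### the maximal extension -/

theorem isOpen_hdom : IsOpen (hdom Φ η₀ Ω) := by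
  rw [isOpen_iff_mem_nhds]
  rintro ⟨t, η⟩ ⟨s, hs, h⟩
  have h1 : ∀ᶠ p : ℂ × ℂ in 𝓝 (t, η), dist p.2 η₀ < s :=
    (continuous_snd.dist continuous_const).continuousAt.eventually (gt_mem_nhds hs)
  have h2 : ∀ᶠ p : ℂ × ℂ in 𝓝 (t, η), ExtH Φ η₀ Ω s p.1 :=
    continuous_fst.continuousAt.eventually h.eventually
  filter_upwards [h1, h2] with p hp1 hp2
  exact ⟨s, hp1, hp2⟩

/-- two extensions agree on the common part of their domains -/
theorem extH_unique {t₁ t₂ : ℂ} {ε₁ ε₂ s₁ s₂ : ℝ} {G₁ G₂ : ℂ × ℂ → ℂ}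
    (h1 : AnalyticOnNhd ℂ G₁ (ball t₁ ε₁ ×ˢ ball η₀ s₁))
    (h1' : ∀ t' ∈ ball t₁ ε₁, ∀ᶠ p in 𝓝 (t', η₀), G₁ p = Φ p)
    (h2 : AnalyticOnNhd ℂ G₂ (ball t₂ ε₂ ×ˢ ball η₀ s₂))
    (h2' : ∀ t' ∈ ball t₂ ε₂, ∀ᶠ p in 𝓝 (t', η₀), G₂ p = Φ p) {p : ℂ × ℂ}
    (hp1 : p ∈ ball t₁ ε₁ ×ˢ ball η₀ s₁) (hp2 : p ∈ ball t₂ ε₂ ×ˢ ball η₀ s₂) :
    G₁ p = G₂ p := by
  have hc : IsPreconnected ((ball t₁ ε₁ ×ˢ ball η₀ s₁) ∩ (ball t₂ ε₂ ×ˢ ball η₀ s₂)) :=
    (((convex_ball _ _).prod (convex_ball _ _)).inter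
      ((convex_ball _ _).prod (convex_ball _ _))).isPreconnected
  have hs1 : 0 < s₁ := dist_nonneg.trans_lt hp1.2
  have hs2 : 0 < s₂ := dist_nonneg.trans_lt hp2.2
  have hq : (p.1, η₀) ∈ (ball t₁ ε₁ ×ˢ ball η₀ s₁) ∩ (ball t₂ ε₂ ×ˢ ball η₀ s₂) :=
    ⟨⟨hp1.1, mem_ball_self hs1⟩, ⟨hp2.1, mem_ball_self hs2⟩⟩
  have he : G₁ =ᶠ[𝓝 (p.1, η₀)] G₂ := by
    filter_upwards [h1' p.1 hp1.1, h2' p.1 hp2.1] with q hq1 hq2
    rw [hq1, hq2]
  exact (h1.mono inter_subset_left).eqOn_of_preconnected_of_eventuallyEq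
    (h2.mono inter_subset_right) hc hq he ⟨hp1, hp2⟩

/-- the maximal extension -/
theorem exists_hext (Φ : ℂ × ℂ → ℂ) (η₀ : ℂ) (Ω : Set ℂ) :
    ∃ F : ℂ × ℂ → ℂ, AnalyticOnNhd ℂ F (hdom Φ η₀ Ω) ∧ MapsTo F (hdom Φ η₀ Ω) Ω ∧
      ∀ t, (t, η₀) ∈ hdom Φ η₀ Ω → ∀ᶠ p in 𝓝 (t, η₀), F p = Φ p := by
  classical
  have hch : ∀ p : ℂ × ℂ, p ∈ hdom Φ η₀ Ω → ∃ (ε s : ℝ) (G : ℂ × ℂ → ℂ),
      0 < ε ∧ dist p.2 η₀ < s ∧ AnalyticOnNhd ℂ G (ball p.1 ε ×ˢ ball η₀ s) ∧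
      MapsTo G (ball p.1 ε ×ˢ ball η₀ s) Ω ∧
      ∀ t' ∈ ball p.1 ε, ∀ᶠ q in 𝓝 (t', η₀), G q = Φ q := by
    rintro p ⟨s, hs, ε, hε, G, h1, h2, h3⟩
    exact ⟨ε, s, G, hε, hs, h1, h2, h3⟩
  choose! ε s G hε hs h1 h2 h3 using hch
  set F : ℂ × ℂ → ℂ := fun p => G p p with hF
  have hmem : ∀ p ∈ hdom Φ η₀ Ω, p ∈ ball p.1 (ε p) ×ˢ ball η₀ (s p) := fun p hp =>
    ⟨mem_ball_self (hε p hp), hs p hp⟩
  have hloc : ∀ p ∈ hdom Φ η₀ Ω, ∀ q ∈ ball p.1 (ε p) ×ˢ ball η₀ (s p), F q = G p q := by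
    intro p hp q hq
    have hqD : q ∈ hdom Φ η₀ Ω := by
      refine ⟨s p, hq.2, ?_⟩
      obtain ⟨δ, hδ, hsub⟩ := Metric.isOpen_iff.1 isOpen_ball q.1 hq.1
      have hsub' : ball q.1 δ ×ˢ ball η₀ (s p) ⊆ ball p.1 (ε p) ×ˢ ball η₀ (s p) :=
        prod_mono hsub le_rfl
      exact ⟨δ, hδ, G p, (h1 p hp).mono hsub', (h2 p hp).mono_left hsub',
        fun t'' ht'' => h3 p hp t'' (hsub ht'')⟩
    exact extH_unique (h1 q hqD) (h3 q hqD) (h1 p hp) (h3 p hp) (hmem q hqD) hq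
  have hev : ∀ p ∈ hdom Φ η₀ Ω, F =ᶠ[𝓝 p] G p := fun p hp => by
    filter_upwards [(isOpen_ball.prod isOpen_ball).mem_nhds (hmem p hp)] with q hq
    exact hloc p hp q hq
  refine ⟨F, fun p hp => (h1 p hp p (hmem p hp)).congr (hev p hp).symm, fun p hp => ?_, ?_⟩
  · exact h2 p hp (hmem p hp)
  · intro t ht
    filter_upwards [hev _ ht, h3 _ ht t (mem_ball_self (hε _ ht))] with q hq1 hq2
    rw [hq1, hq2]

/-! ### the radius is log superharmonic -/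

/-- the disc theorem for the radius -/
theorem hdisc {c : ℂ} {r : ℝ} (hr : 0 < r) {Q : ℂ → ℂ} (hQ : Differentiable ℂ Q)
    (h1 : ∀ t ∈ closedBall c r, ∃ s > 0, ExtH Φ η₀ Ω s t)
    (h2 : ∀ t ∈ sphere c r, ∃ s > Real.exp (Q t).re, ExtH Φ η₀ Ω s t)
    (hσ : s < Real.exp (Q c).re) : ExtH Φ η₀ Ω s c := by
  obtain ⟨F, hF1, hF2, hF3⟩ := exists_hext Φ η₀ Ω
  set T : ℂ × ℂ → ℂ × ℂ := fun p => (p.2, η₀ + Complex.exp (Q p.2) * p.1) with hT
  have hTc : Continuous T := by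
    have := hQ.continuous
    fun_prop
  have hTa : ∀ p, AnalyticAt ℂ T p := fun p => by
    have h : AnalyticAt ℂ (fun p : ℂ × ℂ => Q p.2) p :=
      (hQ.analyticAt p.2).comp analyticAt_snd
    have h2 : AnalyticAt ℂ (fun p : ℂ × ℂ => p.2) p := analyticAt_snd
    exact AnalyticAt.prod h2 (analyticAt_const.add (h.cexp.mul analyticAt_fst))
  set U : Set (ℂ × ℂ) := T ⁻¹' hdom Φ η₀ Ω with hU
  have hUo : IsOpen U := isOpen_hdom.preimage hTc
  set H : ℂ × ℂ → ℂ := fun p => F (T p) with hH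
  have hHa : AnalyticOnNhd ℂ H U := fun p hp => (hF1 _ hp).comp (hTa p)
  have hHΩ : MapsTo H U Ω := fun p hp => hF2 hp
  have hsph : ball (0:ℂ) 1 ×ˢ sphere c r ⊆ U := by
    rintro ⟨z, t⟩ ⟨hz, ht⟩
    obtain ⟨s, hs, h⟩ := h2 t ht
    refine ⟨s, ?_, h⟩
    simp only [hT, dist_self_add_left, norm_mul, Complex.norm_exp]
    rw [mem_ball_zero_iff] at hz
    calc Real.exp (Q t).re * ‖z‖ ≤ Real.exp (Q t).re * 1 := by
          apply mul_le_mul_of_nonneg_left hz.le (Real.exp_pos _).le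
      _ < s := by rwa [mul_one]
  have hzero : ∀ t ∈ closedBall c r, ((0:ℂ), t) ∈ U := by
    intro t ht
    obtain ⟨s, hs, h⟩ := h1 t ht
    exact ⟨s, by simpa [hT] using hs, h⟩
  obtain ⟨g, hg1, hg2, hg3⟩ := hartogs_figure U hUo H hHa (ball (0:ℂ) 1) isOpen_ball
    (convex_ball _ _).isPreconnected c r hr hsph 0 (mem_ball_self one_pos) hzero
  -- values
  have hgΩ : MapsTo g (ball (0:ℂ) 1 ×ˢ ball c r) Ω := by
    intro p hp
    by_contra hpΩ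
    set a := g p with ha
    have hne : ∀ q ∈ U, H q - a ≠ 0 := by
      intro q hq h0
      apply hpΩ
      have := hHΩ hq
      rwa [sub_eq_zero.1 h0] at this
    obtain ⟨k, hk1, hk2, -⟩ := hartogs_figure U hUo (fun q => (H q - a)⁻¹)
      (fun q hq => ((hHa q hq).sub analyticAt_const).inv (hne q hq)) (ball (0:ℂ) 1) isOpen_ball
      (convex_ball _ _).isPreconnected c r hr hsph 0 (mem_ball_self one_pos) hzero
    have hc : IsPreconnected (ball (0:ℂ) 1 ×ˢ ball c r) :=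
      ((convex_ball _ _).prod (convex_ball _ _)).isPreconnected
    have h0 : ((0:ℂ), c) ∈ ball (0:ℂ) 1 ×ˢ ball c r :=
      ⟨mem_ball_self one_pos, mem_ball_self hr⟩
    have hev : (fun q => k q * (g q - a)) =ᶠ[𝓝 ((0:ℂ), c)] fun _ => 1 := by
      have e1 : ∀ᶠ q : ℂ × ℂ in 𝓝 ((0:ℂ), c), ∀ w ∈ ball c r, (q.1, w) ∈ U ∧
          g (q.1, w) = H (q.1, w) :=
        (continuous_fst.continuousAt (x := ((0:ℂ), c))).eventually hg2
      have e2 : ∀ᶠ q : ℂ × ℂ in 𝓝 ((0:ℂ), c), ∀ w ∈ ball c r, (q.1, w) ∈ U ∧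
          k (q.1, w) = (H (q.1, w) - a)⁻¹ :=
        (continuous_fst.continuousAt (x := ((0:ℂ), c))).eventually hk2
      have e3 : ∀ᶠ q : ℂ × ℂ in 𝓝 ((0:ℂ), c), q.2 ∈ ball c r :=
        continuous_snd.continuousAt.eventually (isOpen_ball.mem_nhds (mem_ball_self hr))
      filter_upwards [e1, e2, e3] with q hq1 hq2 hq3
      obtain ⟨hqU, hq4⟩ := hq1 q.2 hq3
      have hq5 := (hq2 q.2 hq3).2
      rw [hq4, hq5]
      exact inv_mul_cancel₀ (hne q hqU)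
    have h4 := AnalyticOnNhd.eqOn_of_preconnected_of_eventuallyEq
      (hk1.mul (hg1.sub analyticOnNhd_const)) analyticOnNhd_const hc h0 hev hp
    have h5 : k p * (g p - a) = 1 := h4
    rw [← ha, sub_self, mul_zero] at h5
    exact zero_ne_one h5
  -- back
  set G : ℂ × ℂ → ℂ := fun p => g (Complex.exp (-Q p.1) * (p.2 - η₀), p.1) with hG
  have hexp : ∀ t, Complex.exp (Q t) * Complex.exp (-Q t) = 1 := fun t => by
    rw [← Complex.exp_add, add_neg_cancel, Complex.exp_zero]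
  have hev : ∀ᶠ t in 𝓝 c, s < Real.exp (Q t).re := by
    have hc : Continuous fun t => Real.exp (Q t).re :=
      Real.continuous_exp.comp (Complex.continuous_re.comp hQ.continuous)
    exact hc.continuousAt.eventually (lt_mem_nhds hσ)
  obtain ⟨ε, hε, hεb⟩ := Metric.eventually_nhds_iff_ball.1
    (hev.and (isOpen_ball.mem_nhds (mem_ball_self hr) : ball c r ∈ 𝓝 c))
  have hmem : ∀ p ∈ ball c ε ×ˢ ball η₀ s,
      (Complex.exp (-Q p.1) * (p.2 - η₀), p.1) ∈ ball (0:ℂ) 1 ×ˢ ball c r := by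
    rintro ⟨t, η⟩ ⟨ht, hη⟩
    refine ⟨?_, (hεb t ht).2⟩
    rw [mem_ball_zero_iff, norm_mul, Complex.norm_exp, Complex.neg_re, Real.exp_neg,
      inv_mul_lt_iff₀ (Real.exp_pos _), mul_one]
    rw [mem_ball, dist_eq_norm] at hη
    exact hη.trans (hεb t ht).1
  refine ⟨ε, hε, G, fun p hp => ?_, fun p hp => hgΩ (hmem p hp), fun t ht => ?_⟩
  · have h : AnalyticAt ℂ (fun p : ℂ × ℂ => Q p.1) p :=
      (hQ.analyticAt p.1).comp analyticAt_fst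
    have h5 : AnalyticAt ℂ (fun p : ℂ × ℂ => (Complex.exp (-Q p.1) * (p.2 - η₀), p.1)) p :=
      AnalyticAt.prod (h.neg.cexp.mul (analyticAt_snd.sub analyticAt_const)) analyticAt_fst
    exact AnalyticAt.comp (g := g) (f := fun p : ℂ × ℂ => (Complex.exp (-Q p.1) * (p.2 - η₀), p.1))
      (x := p) (hg1 _ (hmem p hp)) h5
  · have hcont : Continuous fun p : ℂ × ℂ => (Complex.exp (-Q p.1) * (p.2 - η₀), p.1) := by
      have := hQ.continuous
      fun_prop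
    have e1 : ∀ᶠ p : ℂ × ℂ in 𝓝 (t, η₀), ∀ w ∈ ball c r,
        ((Complex.exp (-Q p.1) * (p.2 - η₀), w) ∈ U ∧
          g (Complex.exp (-Q p.1) * (p.2 - η₀), w) = H (Complex.exp (-Q p.1) * (p.2 - η₀), w)) := by
      have : Tendsto (fun p : ℂ × ℂ => Complex.exp (-Q p.1) * (p.2 - η₀)) (𝓝 (t, η₀)) (𝓝 0) := by
        have h6 := (continuous_fst.comp hcont).continuousAt (x := (t, η₀))
        have h7 : (Prod.fst ∘ fun p : ℂ × ℂ => (Complex.exp (-Q p.1) * (p.2 - η₀), p.1)) (t, η₀)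
            = 0 := by simp
        rw [ContinuousAt, h7] at h6
        exact h6
      exact this.eventually hg2
    have e2 : ∀ᶠ p : ℂ × ℂ in 𝓝 (t, η₀), p.1 ∈ ball c ε :=
      continuous_fst.continuousAt.eventually (isOpen_ball.mem_nhds ht)
    have htD : (t, η₀) ∈ hdom Φ η₀ Ω := by
      obtain ⟨s', hs', h⟩ := h1 t (ball_subset_closedBall (hεb t ht).2)
      exact ⟨s', by simpa using hs', h⟩
    filter_upwards [e1, e2, hF3 t htD] with p hp1 hp2 hp3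
    obtain ⟨h7, h8⟩ := hp1 p.1 (hεb p.1 hp2).2
    show g (Complex.exp (-Q p.1) * (p.2 - η₀), p.1) = Φ p
    rw [h8]
    show F (p.1, η₀ + Complex.exp (Q p.1) * (Complex.exp (-Q p.1) * (p.2 - η₀))) = Φ p
    rw [← mul_assoc, hexp, one_mul, add_sub_cancel]
    exact hp3

/-- **the Hartogs radius is log superharmonic** -/
theorem subH_neg_log_hrad (hV : IsOpen V) (hY : 0 < Y)
    (h : ∀ t ∈ V, ∃ s > 0, ExtH Φ η₀ Ω s t) :
    SubH (fun t => -Real.log (hrad Φ η₀ Ω Y t)) V := by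
  apply SubH.of_local
  intro t₀ ht₀
  have h0 := hrad_pos hY (h t₀ ht₀)
  set m := hrad Φ η₀ Ω Y t₀ / 2 with hm
  have hm0 : 0 < m := half_pos h0
  have hmlt : m < hrad Φ η₀ Ω Y t₀ := half_lt_self h0
  obtain ⟨ε, hε, hb⟩ := Metric.eventually_nhds_iff_ball.1
    ((hrad_lsc hY (h t₀ ht₀) m hmlt).and (hV.mem_nhds ht₀ : V ∈ 𝓝 t₀))
  refine ⟨ball t₀ ε, isOpen_ball.mem_nhds (mem_ball_self hε), ?_⟩
  have hpos : ∀ z ∈ ball t₀ ε, 0 < hrad Φ η₀ Ω Y z := fun z hz => hm0.trans (hb z hz).1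
  have hkey : SupH (fun t => Real.log (hrad Φ η₀ Ω Y t) - Real.log m + 1) (ball t₀ ε) := by
    refine supH_of_disc isOpen_ball one_pos (fun z hz => ?_) (fun z hz => ?_) ?_
    · intro y hy
      have hy' : y < Real.log (hrad Φ η₀ Ω Y z) - Real.log m + 1 := hy
      have h2 : Real.exp (y + Real.log m - 1) < hrad Φ η₀ Ω Y z := by
        rw [← Real.lt_log_iff_exp_lt (hpos z hz)]
        linarith
      filter_upwards [hrad_lsc hY (h z (hb z hz).2) _ h2,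
        isOpen_ball.mem_nhds hz] with w hw1 hw2
      have hw1 : Real.exp (y + Real.log m - 1) < hrad Φ η₀ Ω Y w := hw1
      rw [← Real.lt_log_iff_exp_lt (hpos w hw2)] at hw1
      show y < Real.log (hrad Φ η₀ Ω Y w) - Real.log m + 1
      linarith
    · have := Real.log_lt_log hm0 (hb z hz).1
      show (1:ℝ) ≤ Real.log (hrad Φ η₀ Ω Y z) - Real.log m + 1
      linarith
    · intro c s hs hcs q hq hq1 hq2
      set Q : ℂ → ℂ := fun t => q t + (Real.log m - 1 : ℝ) with hQ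
      have hQd : Differentiable ℂ Q := hq.add (differentiable_const _)
      have hQre : ∀ t, (Q t).re = (q t).re + (Real.log m - 1) := fun t => by
        simp [hQ]
      have hsph : ∀ t ∈ sphere c s, Real.exp (Q t).re < hrad Φ η₀ Ω Y t := by
        intro t ht
        have h3 := hq2 t ht
        rw [← Real.lt_log_iff_exp_lt (hpos t (hcs (sphere_subset_closedBall ht))), hQre]
        have h4 : (q t).re < Real.log (hrad Φ η₀ Ω Y t) - Real.log m + 1 := h3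
        linarith
      have hYle : Real.exp (Q c).re ≤ Y := by
        have hd : DiffContOnCl ℂ (fun z => Complex.exp (Q z)) (ball c s) :=
          (hQd.cexp).diffContOnCl
        have h3 := Complex.norm_le_of_forall_mem_frontier_norm_le isBounded_ball hd
          (C := Y) (fun z hz => by
            rw [Complex.norm_exp]
            have hz' : z ∈ sphere c s := by rwa [frontier_ball c hs.ne'] at hz
            exact (hsph z hz').le.trans (hrad_le hY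
              (h z (hb z (hcs (sphere_subset_closedBall hz'))).2))) (z := c)
          (subset_closure (mem_ball_self hs))
        rwa [Complex.norm_exp] at h3
      have hmain : Real.exp (Q c).re ≤ hrad Φ η₀ Ω Y c := by
        apply le_of_forall_lt
        intro x hx
        obtain ⟨y, hy1, hy2⟩ := exists_between (max_lt hx (Real.exp_pos (Q c).re))
        have hy0 : 0 < y := (le_max_right _ _).trans_lt hy1
        refine ((le_max_left _ _).trans_lt hy1).trans_le (le_hrad hy0 (hy2.le.trans hYle) ?_)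
        refine hdisc hs hQd (fun t ht => h t (hb t (hcs ht)).2) (fun t ht => ?_) hy2
        obtain ⟨z, hz1, hz2⟩ := exists_between (hsph t ht)
        exact ⟨z, hz1, extH_of_lt ((Real.exp_pos _).trans hz1) hz2⟩
      have hc : c ∈ ball t₀ ε := hcs (mem_closedBall_self hs.le)
      rw [← Real.le_log_iff_exp_le (hpos c hc), hQre] at hmain
      show (q c).re ≤ Real.log (hrad Φ η₀ Ω Y c) - Real.log m + 1
      linarith
  have h5 := (subH_neg_of_supH isOpen_ball hkey).add_const (1 - Real.log m)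
  refine h5.congr isOpen_ball fun z hz => ?_
  show -(Real.log (hrad Φ η₀ Ω Y z) - Real.log m + 1) + (1 - Real.log m) =
    -Real.log (hrad Φ η₀ Ω Y z)
  ring

end Pool.Agent.Lib.MP_ae5b4e_an_LL
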