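import Mathlib

/-!
# Library layer: the equation `y'' + Q y = 0` on a disc
-/

set_option autoImplicit false

namespace Pool.Agent.Lib.MP_ae5b4e_an_LL

open Topology Filter Set Metric

/-- integration of a bound along the radii -/
theorem norm_le_of_deriv_pow {c : ℂ} {R A : ℝ} {k : ℕ} {g φ : ℂ → ℂ}
    (hg : ∀ z ∈ ball c R, HasDerivAt g (φ z) z) (h0 : g c = 0)
    (hφ : ∀ z ∈ ball c R, ‖φ z‖ ≤ A * ‖z - c‖ ^ k) :
    ∀ z ∈ ball c R, ‖g z‖ ≤ A * ‖z - c‖ ^ (k + 1) / (k + 1) := by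
  intro z hz
  have hseg : ∀ t ∈ Icc (0:ℝ) 1, c + t * (z - c) ∈ ball c R := by
    intro t ht
    rw [mem_ball, dist_eq_norm, add_sub_cancel_left, norm_mul, Complex.norm_real,
      Real.norm_eq_abs, abs_of_nonneg ht.1]
    rw [mem_ball, dist_eq_norm] at hz
    nlinarith [norm_nonneg (z - c), ht.2]
  have hf : ∀ t ∈ Icc (0:ℝ) 1, HasDerivAt (fun t : ℝ => g (c + t * (z - c)))
      (φ (c + t * (z - c)) * (z - c)) t := by
    intro t ht
    have h1 := hg _ (hseg t ht)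
    have h2 : HasDerivAt (fun t : ℂ => c + t * (z - c)) (1 * (z - c)) (t : ℂ) :=
      ((hasDerivAt_id (t : ℂ)).mul_const (z - c)).const_add c
    have h3 := (h1.comp (t : ℂ) h2).comp_ofReal
    simpa using h3
  have key := image_norm_le_of_norm_deriv_right_le_deriv_boundary
    (f := fun t : ℝ => g (c + t * (z - c))) (f' := fun t => φ (c + t * (z - c)) * (z - c))
    (a := 0) (b := 1)
    (B := fun t => A * ‖z - c‖ ^ (k + 1) * t ^ (k + 1) / (k + 1))
    (B' := fun t => A * ‖z - c‖ ^ (k + 1) * t ^ k)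
    (fun t ht => (hf t ht).continuousAt.continuousWithinAt)
    (fun t ht => (hf t ⟨ht.1, ht.2.le⟩).hasDerivWithinAt) (by simp [h0]) (fun t => by
      have h1 := (hasDerivAt_pow (k + 1) t).const_mul (A * ‖z - c‖ ^ (k + 1))
      have h2 := h1.div_const ((k : ℝ) + 1)
      have h3 : (k : ℝ) + 1 ≠ 0 := by positivity
      convert! h2 using 1
      push_cast
      field_simp) (fun t ht => by
      have h1 := hφ _ (hseg t ⟨ht.1, ht.2.le⟩)
      rw [add_sub_cancel_left, norm_mul, Complex.norm_real, Real.norm_eq_abs,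
        abs_of_nonneg ht.1] at h1
      rw [norm_mul]
      calc ‖φ (c + t * (z - c))‖ * ‖z - c‖ ≤ A * (t * ‖z - c‖) ^ k * ‖z - c‖ := by gcongr
        _ = A * ‖z - c‖ ^ (k + 1) * t ^ k := by ring)
  have h1 := key (right_mem_Icc.2 zero_le_one)
  simpa using h1

/-- double integration -/
theorem norm_le_of_deriv2_pow {c : ℂ} {R A : ℝ} {k : ℕ} {g g' φ : ℂ → ℂ}
    (hg : ∀ z ∈ ball c R, HasDerivAt g (g' z) z) (hg' : ∀ z ∈ ball c R, HasDerivAt g' (φ z) z)
    (h0 : g c = 0) (h0' : g' c = 0) (hφ : ∀ z ∈ ball c R, ‖φ z‖ ≤ A * ‖z - c‖ ^ k) :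
    ∀ z ∈ ball c R, ‖g z‖ ≤ A * ‖z - c‖ ^ (k + 2) / ((k + 1) * (k + 2)) := by
  have h1 := norm_le_of_deriv_pow hg' h0' hφ
  have h2 : ∀ z ∈ ball c R, ‖g' z‖ ≤ A / (k + 1) * ‖z - c‖ ^ (k + 1) := by
    intro z hz
    have := h1 z hz
    rwa [div_mul_eq_mul_div]
  have h3 := norm_le_of_deriv_pow hg h0 h2
  intro z hz
  have h4 := h3 z hz
  have h5 : (k : ℝ) + 1 ≠ 0 := by positivity
  have h6 : (k : ℝ) + 2 ≠ 0 := by positivity
  refine h4.trans (le_of_eq ?_)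
  push_cast
  have h7 : (k : ℝ) + 1 + 1 = k + 2 := by ring
  rw [h7]
  field_simp

/-- the iterates of the integral equation -/
theorem exists_iterates {c : ℂ} {R : ℝ} {Q : ℂ → ℂ} (hQ : DifferentiableOn ℂ Q (ball c R))
    {u₀ v₀ : ℂ → ℂ} (hu₀ : ∀ z ∈ ball c R, HasDerivAt u₀ (v₀ z) z) :
    ∃ u v : ℕ → ℂ → ℂ, u 0 = u₀ ∧ v 0 = v₀ ∧
      (∀ n, ∀ z ∈ ball c R, HasDerivAt (u n) (v n z) z) ∧
      (∀ n, ∀ z ∈ ball c R, HasDerivAt (v (n + 1)) (-(Q z * u n z)) z) ∧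
      ∀ n, u (n + 1) c = 0 ∧ v (n + 1) c = 0 := by
  classical
  have hstep : ∀ p : {p : (ℂ → ℂ) × (ℂ → ℂ) // ∀ z ∈ ball c R, HasDerivAt p.1 (p.2 z) z},
      ∃ q : {p : (ℂ → ℂ) × (ℂ → ℂ) // ∀ z ∈ ball c R, HasDerivAt p.1 (p.2 z) z},
        (∀ z ∈ ball c R, HasDerivAt q.1.2 (-(Q z * p.1.1 z)) z) ∧ q.1.1 c = 0 ∧ q.1.2 c = 0 := by
    rintro ⟨⟨u, v⟩, huv⟩
    have hu : DifferentiableOn ℂ u (ball c R) := fun z hz =>
      (huv z hz).differentiableAt.differentiableWithinAt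
    obtain ⟨v', hv'0, hv'⟩ := ((hQ.mul hu).neg.isExactOn_ball).with_val_at c 0
    have hv'd : DifferentiableOn ℂ v' (ball c R) := fun z hz =>
      (hv' z hz).differentiableAt.differentiableWithinAt
    obtain ⟨u', hu'0, hu'⟩ := (hv'd.isExactOn_ball).with_val_at c 0
    exact ⟨⟨(u', v'), hu'⟩, fun z hz => hv' z hz, hu'0, hv'0⟩
  choose S hS1 hS2 hS3 using hstep
  set s : ℕ → {p : (ℂ → ℂ) × (ℂ → ℂ) // ∀ z ∈ ball c R, HasDerivAt p.1 (p.2 z) z} :=
    fun n => Nat.rec ⟨(u₀, v₀), hu₀⟩ (fun _ p => S p) n with hs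
  have hsucc : ∀ n, s (n + 1) = S (s n) := fun n => rfl
  refine ⟨fun n => (s n).1.1, fun n => (s n).1.2, rfl, rfl, fun n => (s n).2, fun n => ?_,
    fun n => ?_⟩
  · show ∀ z ∈ ball c R, HasDerivAt (s (n + 1)).1.2 _ z
    rw [hsucc]
    exact hS1 (s n)
  · show (s (n + 1)).1.1 c = 0 ∧ (s (n + 1)).1.2 c = 0
    rw [hsucc]
    exact ⟨hS2 _, hS3 _⟩

/-- the bounds for the iterates -/
theorem iterates_bound {c : ℂ} {r M A : ℝ} {k : ℕ} {Q : ℂ → ℂ} (hM : 0 ≤ M)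
    (hQ : ∀ z ∈ ball c r, ‖Q z‖ ≤ M) {u v : ℕ → ℂ → ℂ}
    (h1 : ∀ n, ∀ z ∈ ball c r, HasDerivAt (u n) (v n z) z)
    (h2 : ∀ n, ∀ z ∈ ball c r, HasDerivAt (v (n + 1)) (-(Q z * u n z)) z)
    (h3 : ∀ n, u (n + 1) c = 0 ∧ v (n + 1) c = 0)
    (h0 : ∀ z ∈ ball c r, ‖u 0 z‖ ≤ A * ‖z - c‖ ^ k) (n : ℕ) : ∀ z ∈ ball c r,
      ‖u n z‖ ≤ A * M ^ n * k.factorial * ‖z - c‖ ^ (2 * n + k) / (2 * n + k).factorial := by
  induction n with
  | zero =>
    intro z hz
    have h4 : (k.factorial : ℝ) ≠ 0 := by positivity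
    refine (h0 z hz).trans (le_of_eq ?_)
    simp only [pow_zero, mul_one, Nat.mul_zero, Nat.zero_add]
    field_simp
  | succ n ih =>
    have h4 : ∀ z ∈ ball c r, ‖-(Q z * u n z)‖ ≤
        (A * M ^ (n + 1) * k.factorial / (2 * n + k).factorial) * ‖z - c‖ ^ (2 * n + k) := by
      intro z hz
      rw [norm_neg, norm_mul]
      calc ‖Q z‖ * ‖u n z‖ ≤ M * (A * M ^ n * k.factorial * ‖z - c‖ ^ (2 * n + k) /
          (2 * n + k).factorial) := mul_le_mul (hQ z hz) (ih z hz) (norm_nonneg _) hM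
        _ = _ := by ring
    intro z hz
    refine (norm_le_of_deriv2_pow (h1 (n + 1)) (h2 n) (h3 n).1 (h3 n).2 h4 z hz).trans
      (le_of_eq ?_)
    have e1 : 2 * (n + 1) + k = (2 * n + k) + 2 := by ring
    rw [e1, Nat.factorial_succ, Nat.factorial_succ]
    have h5 : ((2 * n + k).factorial : ℝ) ≠ 0 := by positivity
    push_cast
    have h6 : (2 * (n:ℝ) + k + 1) ≠ 0 := by positivity
    have h7 : (2 * (n:ℝ) + k + 2) ≠ 0 := by positivity
    have h8 : (2 * (n:ℝ) + k + 1 + 1) ≠ 0 := by positivity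
    field_simp
    ring

/-- the bounds for the derivatives of the iterates -/
theorem iterates_bound' {c : ℂ} {r M A : ℝ} {k : ℕ} {Q : ℂ → ℂ} (hM : 0 ≤ M)
    (hQ : ∀ z ∈ ball c r, ‖Q z‖ ≤ M) {u v : ℕ → ℂ → ℂ}
    (h1 : ∀ n, ∀ z ∈ ball c r, HasDerivAt (u n) (v n z) z)
    (h2 : ∀ n, ∀ z ∈ ball c r, HasDerivAt (v (n + 1)) (-(Q z * u n z)) z)
    (h3 : ∀ n, u (n + 1) c = 0 ∧ v (n + 1) c = 0)
    (h0 : ∀ z ∈ ball c r, ‖u 0 z‖ ≤ A * ‖z - c‖ ^ k) (n : ℕ) : ∀ z ∈ ball c r,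
      ‖v (n + 1) z‖ ≤ A * M ^ (n + 1) * k.factorial * ‖z - c‖ ^ (2 * n + k + 1) /
        (2 * n + k + 1).factorial := by
  have h4 : ∀ z ∈ ball c r, ‖-(Q z * u n z)‖ ≤
      (A * M ^ (n + 1) * k.factorial / (2 * n + k).factorial) * ‖z - c‖ ^ (2 * n + k) := by
    intro z hz
    rw [norm_neg, norm_mul]
    calc ‖Q z‖ * ‖u n z‖ ≤ M * (A * M ^ n * k.factorial * ‖z - c‖ ^ (2 * n + k) /
        (2 * n + k).factorial) := mul_le_mul (hQ z hz)
          (iterates_bound hM hQ h1 h2 h3 h0 n z hz) (norm_nonneg _) hM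
      _ = _ := by ring
  intro z hz
  refine (norm_le_of_deriv_pow (h2 n) (h3 n).2 h4 z hz).trans (le_of_eq ?_)
  rw [Nat.factorial_succ]
  have h5 : ((2 * n + k).factorial : ℝ) ≠ 0 := by positivity
  push_cast
  have h6 : (2 * (n:ℝ) + k + 1) ≠ 0 := by positivity
  field_simp

/-- uniqueness -/
theorem ode_unique {c : ℂ} {R : ℝ} {Q y y' : ℂ → ℂ} (hQ : ContinuousOn Q (ball c R))
    (h1 : ∀ z ∈ ball c R, HasDerivAt y (y' z) z)
    (h2 : ∀ z ∈ ball c R, HasDerivAt y' (-(Q z * y z)) z) (h0 : y c = 0) (h0' : y' c = 0) :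
    ∀ z ∈ ball c R, y z = 0 := by
  intro z hz
  obtain ⟨r, hr1, hr2⟩ := exists_between (mem_ball.1 hz)
  have hr0 : 0 ≤ r := dist_nonneg.trans hr1.le
  have hsub : closedBall c r ⊆ ball c R := closedBall_subset_ball hr2
  have hyc : ContinuousOn y (ball c R) := fun z hz => (h1 z hz).continuousAt.continuousWithinAt
  obtain ⟨M, hM⟩ := (isCompact_closedBall c r).exists_bound_of_continuousOn (hQ.mono hsub)
  obtain ⟨W, hW⟩ := (isCompact_closedBall c r).exists_bound_of_continuousOn (hyc.mono hsub)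
  have hM0 : 0 ≤ M := (norm_nonneg _).trans (hM c (mem_closedBall_self hr0))
  have hb := fun n => iterates_bound (c := c) (r := r) (M := M) (A := W) (k := 0) (Q := Q) hM0
    (fun z hz => hM z (ball_subset_closedBall hz)) (u := fun _ => y) (v := fun _ => y')
    (fun _ z hz => h1 z (hsub (ball_subset_closedBall hz)))
    (fun _ z hz => h2 z (hsub (ball_subset_closedBall hz))) (fun _ => ⟨h0, h0'⟩)
    (fun z hz => by simpa using hW z (ball_subset_closedBall hz)) n z hr1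
  have hlim : Tendsto (fun n : ℕ => W * M ^ n * (Nat.factorial 0) * ‖z - c‖ ^ (2 * n + 0) /
      (2 * n + 0).factorial) atTop (𝓝 0) := by
    have e : ∀ n : ℕ, W * M ^ n * (Nat.factorial 0) * ‖z - c‖ ^ (2 * n + 0) /
        (2 * n + 0).factorial = W * ((Real.sqrt M * ‖z - c‖) ^ (2 * n) / (2 * n).factorial) := by
      intro n
      rw [mul_pow, pow_mul, Real.sq_sqrt hM0]
      simp
      ring
    simp_rw [e]
    have h5 : Tendsto (fun n : ℕ => (Real.sqrt M * ‖z - c‖) ^ n / (n.factorial : ℝ)) atTop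
        (𝓝 0) := FloorSemiring.tendsto_pow_div_factorial_atTop _
    have h6 : Tendsto (fun n : ℕ => 2 * n) atTop atTop :=
      tendsto_id.const_mul_atTop' (by norm_num)
    have h7 := (h5.comp h6).const_mul W
    simpa using h7
  have h5 : ‖y z‖ ≤ 0 := ge_of_tendsto' hlim hb
  exact norm_le_zero_iff.1 h5

/-- the majorants are summable -/
theorem summable_major {A M ρ : ℝ} (hA : 0 ≤ A) (hM : 0 ≤ M) (hρ : 0 ≤ ρ) (k : ℕ) :
    Summable fun n : ℕ => A * M ^ n * k.factorial * ρ ^ (2 * n + k) / (2 * n + k).factorial := by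
  set m := max 1 (Real.sqrt M) with hm
  have hm1 : 1 ≤ m := le_max_left _ _
  have hmM : M ≤ m ^ 2 := by
    calc M = Real.sqrt M ^ 2 := (Real.sq_sqrt hM).symm
      _ ≤ m ^ 2 := by
        have : Real.sqrt M ≤ m := le_max_right _ _
        gcongr
  have h1 : Summable fun n : ℕ => (m * ρ) ^ n / (n.factorial : ℝ) :=
    Real.summable_pow_div_factorial _
  have hinj : Function.Injective fun n : ℕ => 2 * n + k := fun a b h => by
    simp only at h
    omega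
  have h2 := (h1.comp_injective hinj).mul_left (A * k.factorial)
  refine Summable.of_nonneg_of_le (fun n => by positivity) (fun n => ?_) h2
  simp only [Function.comp]
  have h3 : M ^ n * ρ ^ (2 * n + k) ≤ (m * ρ) ^ (2 * n + k) := by
    rw [mul_pow]
    apply mul_le_mul_of_nonneg_right _ (by positivity)
    calc M ^ n ≤ (m ^ 2) ^ n := pow_le_pow_left₀ hM hmM n
      _ = m ^ (2 * n) := by rw [← pow_mul]
      _ ≤ m ^ (2 * n + k) := pow_le_pow_right₀ hm1 (Nat.le_add_right _ _)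
  calc A * M ^ n * k.factorial * ρ ^ (2 * n + k) / (2 * n + k).factorial
      = A * k.factorial * ((M ^ n * ρ ^ (2 * n + k)) / (2 * n + k).factorial) := by ring
    _ ≤ A * k.factorial * ((m * ρ) ^ (2 * n + k) / (2 * n + k).factorial) := by gcongr

/-- existence, with the bounds -/
theorem exists_ode {c : ℂ} {R : ℝ} {Q : ℂ → ℂ} (hQ : DifferentiableOn ℂ Q (ball c R))
    (hR : 0 < R) {u₀ v₀ : ℂ → ℂ} {k : ℕ} {A : ℝ} (hA : 0 ≤ A)
    (hu₀ : ∀ z ∈ ball c R, HasDerivAt u₀ (v₀ z) z)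
    (hv₀ : ∀ z ∈ ball c R, HasDerivAt v₀ 0 z) (h0 : ∀ z ∈ ball c R, ‖u₀ z‖ ≤ A * ‖z - c‖ ^ k) :
    ∃ y y' : ℂ → ℂ, (∀ z ∈ ball c R, HasDerivAt y (y' z) z) ∧
      (∀ z ∈ ball c R, HasDerivAt y' (-(Q z * y z)) z) ∧ y c = u₀ c ∧ y' c = v₀ c ∧
      ∀ M : ℝ, ∀ r ≤ R, (∀ z ∈ ball c r, ‖Q z‖ ≤ M) → ∀ z ∈ ball c r,
        ‖y z - u₀ z‖ ≤ ∑' n : ℕ, A * M ^ (n + 1) * k.factorial * ‖z - c‖ ^ (2 * (n + 1) + k) /
          (2 * (n + 1) + k).factorial := by
  obtain ⟨u, v, hu, hv, h1, h2, h3⟩ := exists_iterates hQ hu₀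
  have h0' : ∀ z ∈ ball c R, ‖u 0 z‖ ≤ A * ‖z - c‖ ^ k := by
    rw [hu]
    exact h0
  have hc : c ∈ ball c R := mem_ball_self hR
  -- local bounds
  have hloc : ∀ r < R, 0 < r → ∃ M, 0 ≤ M ∧ ∀ z ∈ ball c r, ‖Q z‖ ≤ M := by
    intro r hr hr0
    obtain ⟨M, hM⟩ := (isCompact_closedBall c r).exists_bound_of_continuousOn
      (hQ.continuousOn.mono (closedBall_subset_ball hr))
    exact ⟨M, (norm_nonneg _).trans (hM c (mem_closedBall_self hr0.le)),
      fun z hz => hM z (ball_subset_closedBall hz)⟩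
  -- uniform bounds on smaller balls
  have hU : ∀ r < R, 0 < r → ∃ B : ℕ → ℝ, Summable B ∧ ∀ n, ∀ z ∈ ball c r, ‖u n z‖ ≤ B n := by
    intro r hr hr0
    obtain ⟨M, hM0, hM⟩ := hloc r hr hr0
    have hsub : ball c r ⊆ ball c R := ball_subset_ball hr.le
    refine ⟨_, summable_major hA hM0 hr0.le k, fun n z hz => ?_⟩
    refine (iterates_bound hM0 hM (fun n z hz => h1 n z (hsub hz))
      (fun n z hz => h2 n z (hsub hz)) h3 (fun z hz => h0' z (hsub hz)) n z hz).trans ?_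
    have : ‖z - c‖ ≤ r := by
      rw [← dist_eq_norm]
      exact (mem_ball.1 hz).le
    gcongr
  have hV : ∀ r < R, 0 < r → ∃ B : ℕ → ℝ, Summable B ∧
      ∀ n, ∀ z ∈ ball c r, ‖v (n + 1) z‖ ≤ B n := by
    intro r hr hr0
    obtain ⟨M, hM0, hM⟩ := hloc r hr hr0
    have hsub : ball c r ⊆ ball c R := ball_subset_ball hr.le
    have h5 := (summable_major (A := A * M * k.factorial / (k + 1).factorial) (by positivity)
      hM0 hr0.le (k + 1))
    refine ⟨_, h5, fun n z hz => ?_⟩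
    refine (iterates_bound' hM0 hM (fun n z hz => h1 n z (hsub hz))
      (fun n z hz => h2 n z (hsub hz)) h3 (fun z hz => h0' z (hsub hz)) n z hz).trans ?_
    have h6 : ‖z - c‖ ≤ r := by
      rw [← dist_eq_norm]
      exact (mem_ball.1 hz).le
    have h7 : ((k + 1).factorial : ℝ) ≠ 0 := by positivity
    calc A * M ^ (n + 1) * k.factorial * ‖z - c‖ ^ (2 * n + k + 1) / (2 * n + k + 1).factorial
        ≤ A * M ^ (n + 1) * k.factorial * r ^ (2 * n + k + 1) / (2 * n + k + 1).factorial := by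
          gcongr
      _ = A * M * k.factorial / (k + 1).factorial * M ^ n * (k + 1).factorial *
          r ^ (2 * n + (k + 1)) / (2 * n + (k + 1)).factorial := by
          have e : 2 * n + (k + 1) = 2 * n + k + 1 := by ring
          rw [e]
          field_simp
          ring
  have hsumv : ∀ z ∈ ball c R, Summable fun n => v n z := by
    intro z hz
    obtain ⟨r, hr1, hr2⟩ := exists_between (mem_ball.1 hz)
    obtain ⟨B, hB, hB'⟩ := hV r hr2 (dist_nonneg.trans_lt hr1)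
    exact (summable_nat_add_iff 1).1 (Summable.of_norm_bounded hB fun n => hB' n z hr1)
  have hsumu : ∀ z ∈ ball c R, Summable fun n => u n z := by
    intro z hz
    obtain ⟨r, hr1, hr2⟩ := exists_between (mem_ball.1 hz)
    obtain ⟨B, hB, hB'⟩ := hU r hr2 (dist_nonneg.trans_lt hr1)
    exact Summable.of_norm_bounded hB fun n => hB' n z hr1
  refine ⟨fun z => ∑' n, u n z, fun z => ∑' n, v n z, fun z hz => ?_, fun z hz => ?_, ?_, ?_, ?_⟩
  · obtain ⟨r, hr1, hr2⟩ := exists_between (mem_ball.1 hz)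
    have hr0 := dist_nonneg.trans_lt hr1
    have hsub : ball c r ⊆ ball c R := ball_subset_ball hr2.le
    obtain ⟨B, hB, hB'⟩ := hV r hr2 hr0
    have h5 : HasDerivAt (fun z => ∑' n, u (n + 1) z) (∑' n, v (n + 1) z) z :=
      hasDerivAt_tsum_of_isPreconnected hB isOpen_ball (convex_ball c r).isPreconnected
        (fun n w hw => h1 (n + 1) w (hsub hw)) hB' (mem_ball_self hr0)
        ((summable_nat_add_iff 1).2 (hsumu c hc)) hr1
    have h6 := (h1 0 z hz).add h5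
    show HasDerivAt (fun z => ∑' n, u n z) (∑' n, v n z) z
    rw [(hsumv z hz).tsum_eq_zero_add]
    refine h6.congr_of_eventuallyEq ?_
    filter_upwards [isOpen_ball.mem_nhds hz] with w hw
    exact (hsumu w hw).tsum_eq_zero_add
  · obtain ⟨r, hr1, hr2⟩ := exists_between (mem_ball.1 hz)
    have hr0 := dist_nonneg.trans_lt hr1
    have hsub : ball c r ⊆ ball c R := ball_subset_ball hr2.le
    obtain ⟨B, hB, hB'⟩ := hU r hr2 hr0
    obtain ⟨M, hM0, hM⟩ := hloc r hr2 hr0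
    have h5 : HasDerivAt (fun z => ∑' n, v (n + 1) z) (∑' n, -(Q z * u n z)) z :=
      hasDerivAt_tsum_of_isPreconnected (hB.mul_left M) isOpen_ball
        (convex_ball c r).isPreconnected
        (fun n w hw => h2 n w (hsub hw)) (fun n w hw => by
          rw [norm_neg, norm_mul]
          exact mul_le_mul (hM w hw) (hB' n w hw) (norm_nonneg _) hM0) (mem_ball_self hr0)
        ((summable_nat_add_iff 1).2 (hsumv c hc)) hr1
    have h6 : HasDerivAt (v 0) 0 z := by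
      rw [hv]
      exact hv₀ z hz
    have h7 := h6.add h5
    rw [zero_add, tsum_neg, tsum_mul_left] at h7
    refine h7.congr_of_eventuallyEq ?_
    filter_upwards [isOpen_ball.mem_nhds hz] with w hw
    exact (hsumv w hw).tsum_eq_zero_add
  · show ∑' n, u n c = u₀ c
    rw [(hsumu c hc).tsum_eq_zero_add, hu]
    simp [h3]
  · show ∑' n, v n c = v₀ c
    rw [(hsumv c hc).tsum_eq_zero_add, hv]
    simp [h3]
  · intro M r hr hM z hz
    have hsub : ball c r ⊆ ball c R := ball_subset_ball hr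
    have hr0 : 0 < r := dist_nonneg.trans_lt (mem_ball.1 hz)
    have hM0 : 0 ≤ M := (norm_nonneg _).trans (hM c (mem_ball_self hr0))
    have h5 : (∑' n, u n z) - u₀ z = ∑' n, u (n + 1) z := by
      rw [(hsumu z (hsub hz)).tsum_eq_zero_add, hu]
      ring
    show ‖(∑' n, u n z) - u₀ z‖ ≤ _
    rw [h5]
    have h6 := (summable_nat_add_iff 1).2 (summable_major hA hM0 (norm_nonneg (z - c)) k)
    exact tsum_of_norm_bounded h6.hasSum fun n => iterates_bound hM0 hM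
      (fun n z hz => h1 n z (hsub hz)) (fun n z hz => h2 n z (hsub hz)) h3
      (fun z hz => h0' z (hsub hz)) (n + 1) z hz

/-- the solution `y₁` with `y₁ c = 1`, `y₁' c = 0` -/
theorem exists_y1 {c : ℂ} {R : ℝ} {Q : ℂ → ℂ} (hQ : DifferentiableOn ℂ Q (ball c R))
    (hR : 0 < R) :
    ∃ y y' : ℂ → ℂ, (∀ z ∈ ball c R, HasDerivAt y (y' z) z) ∧
      (∀ z ∈ ball c R, HasDerivAt y' (-(Q z * y z)) z) ∧ y c = 1 ∧ y' c = 0 ∧
      ∀ M : ℝ, ∀ r ≤ R, (∀ z ∈ ball c r, ‖Q z‖ ≤ M) → ∀ z ∈ ball c r,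
        ‖y z - 1‖ ≤ Real.cosh (Real.sqrt M * ‖z - c‖) - 1 := by
  obtain ⟨y, y', h1, h2, h3, h4, h5⟩ := exists_ode hQ hR (u₀ := fun _ => 1) (v₀ := fun _ => 0)
    (k := 0) (A := 1) zero_le_one (fun z _ => hasDerivAt_const z 1)
    (fun z _ => hasDerivAt_const z 0) (fun z _ => by simp)
  refine ⟨y, y', h1, h2, h3, h4, fun M r hr hM z hz => (h5 M r hr hM z hz).trans ?_⟩
  have hr0 : 0 < r := dist_nonneg.trans_lt (mem_ball.1 hz)
  have hM0 : 0 ≤ M := (norm_nonneg _).trans (hM c (mem_ball_self hr0))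
  have h6 := Real.hasSum_cosh (Real.sqrt M * ‖z - c‖)
  have h7 := h6.summable.tsum_eq_zero_add
  rw [h6.tsum_eq] at h7
  rw [h7]
  simp only [Nat.mul_zero, pow_zero, Nat.factorial_zero, Nat.cast_one, div_one, add_sub_cancel_left]
  apply le_of_eq
  apply tsum_congr
  intro n
  rw [mul_pow, pow_mul, Real.sq_sqrt hM0]
  simp

/-- the solution `y₂` with `y₂ c = 0`, `y₂' c = 1` -/
theorem exists_y2 {c : ℂ} {R : ℝ} {Q : ℂ → ℂ} (hQ : DifferentiableOn ℂ Q (ball c R))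
    (hR : 0 < R) :
    ∃ y y' : ℂ → ℂ, (∀ z ∈ ball c R, HasDerivAt y (y' z) z) ∧
      (∀ z ∈ ball c R, HasDerivAt y' (-(Q z * y z)) z) ∧ y c = 0 ∧ y' c = 1 ∧
      ∀ M : ℝ, ∀ r ≤ R, (∀ z ∈ ball c r, ‖Q z‖ ≤ M) → ∀ z ∈ ball c r,
        Real.sqrt M * ‖y z - (z - c)‖ ≤
          Real.sinh (Real.sqrt M * ‖z - c‖) - Real.sqrt M * ‖z - c‖ := by
  obtain ⟨y, y', h1, h2, h3, h4, h5⟩ := exists_ode hQ hR (u₀ := fun z => z - c)
    (v₀ := fun _ => 1) (k := 1) (A := 1) zero_le_one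
    (fun z _ => (hasDerivAt_id z).sub_const c)
    (fun z _ => hasDerivAt_const z 1) (fun z _ => by simp)
  refine ⟨y, y', h1, h2, by simpa using h3, h4, fun M r hr hM z hz => ?_⟩
  refine (mul_le_mul_of_nonneg_left (h5 M r hr hM z hz) (Real.sqrt_nonneg _)).trans ?_
  have hr0 : 0 < r := dist_nonneg.trans_lt (mem_ball.1 hz)
  have hM0 : 0 ≤ M := (norm_nonneg _).trans (hM c (mem_ball_self hr0))
  have h6 := Real.hasSum_sinh (Real.sqrt M * ‖z - c‖)
  have h7 := h6.summable.tsum_eq_zero_add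
  rw [h6.tsum_eq] at h7
  rw [h7]
  simp only [Nat.mul_zero, Nat.zero_add, pow_one, Nat.factorial_one, Nat.cast_one, div_one,
    add_sub_cancel_left]
  rw [← tsum_mul_left]
  apply le_of_eq
  apply tsum_congr
  intro n
  rw [mul_pow, pow_succ (Real.sqrt M), pow_mul, Real.sq_sqrt hM0]
  simp
  ring

end Pool.Agent.Lib.MP_ae5b4e_an_LL
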