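import Pool.Agent.Lib.MP_ae5b4e_an_LL.Two

/-!
# Library layer: subharmonic functions in the plane, part 7: half discs, the log gain lemma
-/

set_option autoImplicit false

namespace Pool.Agent.Lib.MP_ae5b4e_an_LL

open Topology Filter Set Metric InnerProductSpace
open Real (circleAverage)

/-- the argument in the first quadrant -/
theorem arg_le_div {w : ℂ} (h1 : 0 < w.re) (h2 : 0 ≤ w.im) :
    0 ≤ w.arg ∧ w.arg ≤ w.im / w.re := by
  have h3 : 0 ≤ w.arg := Complex.arg_nonneg_iff.2 h2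
  have h4 : |w.arg| < Real.pi / 2 := Complex.abs_arg_lt_pi_div_two_iff.2 (Or.inl h1)
  rw [abs_of_nonneg h3] at h4
  have h5 := Real.le_tan h3 h4
  rw [Complex.tan_arg] at h5
  exact ⟨h3, h5⟩

/-- the argument in the second quadrant -/
theorem pi_sub_div_le_arg {w : ℂ} (h1 : w.re < 0) (h2 : 0 < w.im) :
    Real.pi - w.im / (-w.re) ≤ w.arg ∧ w.arg ≤ Real.pi := by
  refine ⟨?_, Complex.arg_le_pi w⟩
  have h3 := Complex.arg_neg_eq_arg_sub_pi_of_im_pos h2
  have hpos : 0 < (-w).re := by simpa using h1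
  have h4 : ((starRingEnd ℂ) (-w)).arg = - (-w).arg := by
    rw [Complex.arg_conj, if_neg]
    intro h
    have h5 := (Complex.abs_arg_lt_pi_div_two_iff.2 (Or.inl hpos))
    rw [h, abs_of_pos Real.pi_pos] at h5
    linarith [Real.pi_pos]
  have h5 := (arg_le_div (w := (starRingEnd ℂ) (-w)) (by simpa using h1) (by simpa using h2.le)).2
  rw [h4, h3] at h5
  simp only [map_neg, Complex.neg_im, Complex.conj_im, neg_neg, Complex.neg_re,
    Complex.conj_re] at h5
  linarith

/-- the argument function `arg ((η + i a) / (η - i a))` -/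
noncomputable def ang (a : ℝ) (η : ℂ) : ℝ :=
  ((η + Complex.I * a) / (η - Complex.I * a)).arg

theorem ang_re_im {a : ℝ} {η : ℂ} (hη : 0 < η.re) :
    0 < ‖η - Complex.I * a‖ ^ 2 ∧
    ((η + Complex.I * a) / (η - Complex.I * a)).re =
      (‖η‖ ^ 2 - a ^ 2) / ‖η - Complex.I * a‖ ^ 2 ∧
    ((η + Complex.I * a) / (η - Complex.I * a)).im =
      2 * a * η.re / ‖η - Complex.I * a‖ ^ 2 := by
  have h0 : η - Complex.I * a ≠ 0 := by
    intro h
    have := congrArg Complex.re h
    simp at this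
    linarith
  have h1 : 0 < ‖η - Complex.I * a‖ ^ 2 := by positivity
  refine ⟨h1, ?_, ?_⟩
  · rw [Complex.div_re, ← Complex.normSq_eq_norm_sq, ← Complex.normSq_eq_norm_sq,
      ← add_div]
    congr 1
    simp [Complex.normSq_apply]
    ring
  · rw [Complex.div_im, ← Complex.normSq_eq_norm_sq, ← sub_div]
    congr 1
    simp
    ring

theorem ang_harmonic {a : ℝ} (ha : 0 < a) {η : ℂ} (hη : 0 < η.re) : HarmonicAt (ang a) η := by
  have h := ang_re_im (a := a) hη
  have hne : η - Complex.I * a ≠ 0 := by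
    intro h0
    rw [h0] at h
    simp at h
  have him : 0 < ((η + Complex.I * a) / (η - Complex.I * a)).im := by
    rw [h.2.2]
    have := h.1
    positivity
  have hsl : (η + Complex.I * a) / (η - Complex.I * a) ∈ Complex.slitPlane := Or.inr him.ne'
  have hq : AnalyticAt ℂ (fun η : ℂ => (η + Complex.I * a) / (η - Complex.I * a)) η :=
    AnalyticAt.div (by fun_prop) (by fun_prop) hne
  have h2 := AnalyticAt.harmonicAt_im (hq.clog hsl)
  have h3 : (fun η : ℂ => (Complex.log ((η + Complex.I * a) / (η - Complex.I * a))).im) =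
      ang a := by
    funext η
    simp only [Complex.log_im, ang]
  rwa [h3] at h2

theorem ang_nonneg {a : ℝ} (ha : 0 < a) {η : ℂ} (hη : 0 < η.re) : 0 ≤ ang a η := by
  have h := ang_re_im (a := a) hη
  apply Complex.arg_nonneg_iff.2
  rw [h.2.2]
  have := h.1
  positivity

theorem ang_le_pi {a : ℝ} {η : ℂ} : ang a η ≤ Real.pi := Complex.arg_le_pi _

/-- outside of the disc the angle is small -/
theorem ang_le {a : ℝ} (ha : 0 < a) {η : ℂ} (hη : 0 < η.re) (h : a < ‖η‖) :
    ang a η ≤ 2 * a * η.re / (‖η‖ ^ 2 - a ^ 2) := by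
  obtain ⟨h1, h2, h3⟩ := ang_re_im (a := a) hη
  have h4 : 0 < ‖η‖ ^ 2 - a ^ 2 := by nlinarith [norm_nonneg η]
  have h5 := (arg_le_div (w := (η + Complex.I * a) / (η - Complex.I * a)) (by rw [h2]; positivity)
    (by rw [h3]; positivity)).2
  rw [h2, h3] at h5
  rwa [div_div_div_cancel_right₀ h1.ne'] at h5

/-- inside of the disc the angle is close to `π` -/
theorem le_ang {a : ℝ} (ha : 0 < a) {η : ℂ} (hη : 0 < η.re) (h : ‖η‖ < a) :
    Real.pi - 2 * a * η.re / (a ^ 2 - ‖η‖ ^ 2) ≤ ang a η := by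
  obtain ⟨h1, h2, h3⟩ := ang_re_im (a := a) hη
  have h4 : 0 < a ^ 2 - ‖η‖ ^ 2 := by nlinarith [norm_nonneg η]
  have h5 := (pi_sub_div_le_arg (w := (η + Complex.I * a) / (η - Complex.I * a))
    (by rw [h2]; apply div_neg_of_neg_of_pos _ h1; linarith) (by rw [h3]; positivity)).1
  rw [h2, h3] at h5
  have h6 : -((‖η‖ ^ 2 - a ^ 2) / ‖η - Complex.I * a‖ ^ 2) =
      (a ^ 2 - ‖η‖ ^ 2) / ‖η - Complex.I * a‖ ^ 2 := by ring
  rwa [h6, div_div_div_cancel_right₀ h1.ne'] at h5

/-- on the circle the angle is `π / 2` -/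
theorem ang_tendsto {a : ℝ} (ha : 0 < a) {ζ : ℂ} (hζ : 0 < ζ.re) (h : ‖ζ‖ = a) :
    Tendsto (ang a) (𝓝 ζ) (𝓝 (Real.pi / 2)) := by
  have h1 : ContinuousAt (ang a) ζ := (ang_harmonic ha hζ).1.continuousAt
  have h2 : ang a ζ = Real.pi / 2 := by
    obtain ⟨h3, h4, h5⟩ := ang_re_im (a := a) hζ
    rw [ang, Complex.arg_eq_pi_div_two_iff, h4, h5, h]
    refine ⟨by simp, by positivity⟩
  rw [← h2]
  exact h1

/-- `T η = Re (η log (η / R))` on the right half plane -/
noncomputable def tlog (R : ℝ) (η : ℂ) : ℝ := (η * (Complex.log η - Real.log R)).re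

theorem tlog_harmonic {R : ℝ} {η : ℂ} (hη : 0 < η.re) : HarmonicAt (tlog R) η := by
  have hsl : η ∈ Complex.slitPlane := Or.inl hη
  apply AnalyticAt.harmonicAt_re (f := fun η : ℂ => η * (Complex.log η - Real.log R))
  exact analyticAt_id.mul ((analyticAt_clog hsl).sub analyticAt_const)

theorem tlog_bounds {R : ℝ} {η : ℂ} (hη : 0 < η.re) :
    η.re * (Real.log ‖η‖ - Real.log R) - Real.pi / 2 * ‖η‖ ≤ tlog R η ∧
      tlog R η ≤ η.re * (Real.log ‖η‖ - Real.log R) := by
  have h1 : tlog R η = η.re * (Real.log ‖η‖ - Real.log R) - η.im * η.arg := by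
    simp [tlog, Complex.mul_re, Complex.log_re, Complex.log_im]
  have h2 : |η.arg| < Real.pi / 2 := Complex.abs_arg_lt_pi_div_two_iff.2 (Or.inl hη)
  have h3 : 0 ≤ η.im * η.arg := by
    rcases le_total 0 η.im with h | h
    · exact mul_nonneg h (Complex.arg_nonneg_iff.2 h)
    · apply mul_nonneg_of_nonpos_of_nonpos h
      by_contra hcon
      push Not at hcon
      have h4 := Complex.arg_nonneg_iff.1 hcon.le
      have h5 : η.im = 0 := le_antisymm h h4
      have h6 : η.arg = 0 := by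
        rw [Complex.arg_eq_zero_iff]
        exact ⟨hη.le, h5⟩
      linarith
  have h4 : η.im * η.arg ≤ Real.pi / 2 * ‖η‖ := by
    calc η.im * η.arg ≤ |η.im * η.arg| := le_abs_self _
      _ = |η.im| * |η.arg| := abs_mul _ _
      _ ≤ ‖η‖ * (Real.pi / 2) := mul_le_mul (Complex.abs_im_le_norm η) h2.le (abs_nonneg _)
          (norm_nonneg _)
      _ = _ := by ring
  rw [h1]
  constructor <;> linarith

/-- the right half disc -/
def RHD (R : ℝ) : Set ℂ := {η : ℂ | 0 < η.re ∧ ‖η‖ < R}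

theorem isOpen_RHD (R : ℝ) : IsOpen (RHD R) :=
  (isOpen_lt continuous_const Complex.continuous_re).inter (isOpen_lt continuous_norm
    continuous_const)

theorem isBounded_RHD (R : ℝ) : Bornology.IsBounded (RHD R) :=
  (isBounded_ball (x := (0 : ℂ)) (r := R)).subset fun z hz => by
    rw [mem_ball_zero_iff]; exact hz.2

theorem closure_RHD_subset {R : ℝ} : closure (RHD R) ⊆ {η : ℂ | 0 ≤ η.re ∧ ‖η‖ ≤ R} :=
  closure_minimal (fun z hz => ⟨hz.1.le, hz.2.le⟩)
    ((isClosed_le continuous_const Complex.continuous_re).inter (isClosed_le continuous_norm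
      continuous_const))

/-- the frontier of the half disc -/
theorem frontier_RHD {R : ℝ} {ζ : ℂ} (h : ζ ∈ frontier (RHD R)) :
    (ζ.re = 0 ∧ ‖ζ‖ < R) ∨ (0 < ζ.re ∧ ‖ζ‖ = R) ∨ ζ = Complex.I * R ∨ ζ = -(Complex.I * R) := by
  have h1 := closure_RHD_subset h.1
  have h2 : ζ ∉ RHD R := by
    have := h.2
    rwa [(isOpen_RHD R).interior_eq] at this
  rcases h1.1.eq_or_lt with h3 | h3
  · rcases h1.2.eq_or_lt with h4 | h4
    · right; right
      have h5 : ζ = Complex.I * ζ.im := by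
        apply Complex.ext <;> simp [← h3]
      have h6 : |ζ.im| = R := by
        rw [h5, norm_mul, Complex.norm_I, one_mul, Complex.norm_real, Real.norm_eq_abs] at h4
        exact h4
      rcases abs_cases ζ.im with ⟨h7, _⟩ | ⟨h7, _⟩
      · left
        rw [h5, ← h6, h7]
      · right
        rw [h5, ← h6, h7]
        push_cast
        ring
    · left; exact ⟨h3.symm, h4⟩
  · rcases h1.2.eq_or_lt with h4 | h4
    · right; left; exact ⟨h3, h4⟩
    · exact absurd ⟨h3, h4⟩ h2

/-- **Two constants in a half disc** -/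
theorem SubH.le_halfDisc {f : ℂ → ℝ} {R A B : ℝ} (hR : 0 < R) (hAB : B ≤ A)
    (hf : SubH f (RHD R)) (hA : ∀ z ∈ RHD R, f z ≤ A) {E : Set ℂ} (hE : E.Finite)
    (hB : ∀ ζ : ℂ, ζ.re = 0 → ‖ζ‖ < R → ζ ∉ E → ∀ ε > 0, ∀ᶠ z in 𝓝[RHD R] ζ, f z ≤ B + ε) :
    ∀ z ∈ RHD R, f z ≤ B + (A - B) * (4 / Real.pi * (R * z.re / (R ^ 2 - ‖z‖ ^ 2))) := by
  have hpi := Real.pi_pos
  set u : ℂ → ℝ := fun z => B + (A - B) * (2 - 2 / Real.pi * ang R z) with hu
  have huh : HarmonicOnNhd u (RHD R) := by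
    have e : u = (fun _ => B + (A - B) * 2) + (-((A - B) * (2 / Real.pi))) • ang R := by
      funext z
      simp only [hu, Pi.add_apply, Pi.smul_apply, smul_eq_mul]
      ring
    rw [e]
    exact (harmonicOnNhd_const _).add (HarmonicOnNhd.const_smul fun z hz =>
      ang_harmonic hR hz.1)
  have huB : ∀ z ∈ RHD R, B ≤ u z := by
    intro z hz
    have h1 := ang_le_pi (a := R) (η := z)
    have h2 : 2 / Real.pi * ang R z ≤ 2 := by
      rw [div_mul_eq_mul_div, div_le_iff₀ hpi]
      linarith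
    have := mul_nonneg (sub_nonneg.2 hAB) (sub_nonneg.2 h2)
    simp only [hu]
    linarith
  have key := hf.le_harmonic_diff (isOpen_RHD R) (isBounded_RHD R) huh (B := A - B)
    (fun z hz => by
      have h1 := hA z hz
      have h2 := huB z hz
      linarith) (E := E ∪ {Complex.I * R, -(Complex.I * R)}) (hE.union (by simp))
    (fun ζ hζ hζE ε hε => by
      rcases frontier_RHD hζ with h | h | h | h
      · filter_upwards [hB ζ h.1 h.2 (fun h' => hζE (Or.inl h')) ε hε, self_mem_nhdsWithin]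
          with z hz1 hz2
        have := huB z hz2
        linarith
      · have h1 := ang_tendsto hR h.1 h.2
        have h2 : Tendsto u (𝓝 ζ) (𝓝 (B + (A - B) * (2 - 2 / Real.pi * (Real.pi / 2)))) :=
          tendsto_const_nhds.add (tendsto_const_nhds.mul (tendsto_const_nhds.sub
            (tendsto_const_nhds.mul h1)))
        have h3 : B + (A - B) * (2 - 2 / Real.pi * (Real.pi / 2)) = A := by
          field_simp
          ring
        rw [h3] at h2
        have h4 : ∀ᶠ z in 𝓝 ζ, A - ε < u z := h2 (Ioi_mem_nhds (by linarith))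
        filter_upwards [h4.filter_mono nhdsWithin_le_nhds, self_mem_nhdsWithin] with z hz1 hz2
        have := hA z hz2
        linarith
      · exact absurd (Or.inr (Or.inl h)) hζE
      · exact absurd (Or.inr (Or.inr h)) hζE)
  intro z hz
  refine (key z hz).trans ?_
  have h1 := le_ang hR hz.1 hz.2
  have h2 : 2 - 2 / Real.pi * ang R z ≤ 4 / Real.pi * (R * z.re / (R ^ 2 - ‖z‖ ^ 2)) := by
    have h3 : 2 / Real.pi * (Real.pi - 2 * R * z.re / (R ^ 2 - ‖z‖ ^ 2)) ≤
        2 / Real.pi * ang R z := mul_le_mul_of_nonneg_left h1 (by positivity)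
    have h4 : 2 / Real.pi * (Real.pi - 2 * R * z.re / (R ^ 2 - ‖z‖ ^ 2)) =
        2 - 4 / Real.pi * (R * z.re / (R ^ 2 - ‖z‖ ^ 2)) := by
      have h5 : R ^ 2 - ‖z‖ ^ 2 ≠ 0 := by
        have := hz.2
        nlinarith [norm_nonneg z]
      field_simp
      ring
    linarith
  have := mul_le_mul_of_nonneg_left h2 (sub_nonneg.2 hAB)
  simp only [hu]
  linarith

end Pool.Agent.Lib.MP_ae5b4e_an_LL
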