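import Pool.Agent.Lib.MP_ae5b4e_an_LL.OdeS
import Pool.Agent.Lib.MP_ae5b4e_an_NBT.Defs

/-!
# Library layer: primitives and linear equations on a horizontal strip
-/

set_option autoImplicit false

namespace Pool.Agent.Lib.MP_ae5b4e_an_LL

open Topology Filter Set Metric Complex
open Pool.Agent.MP_ae5b4e_an_NBT (St isOpen_St convex_St)

/-- primitives on a strip -/
theorem exists_prim_strip {a b : ℝ} {c : ℂ} (hc : c ∈ St a b) {φ : ℂ → ℂ}
    (hφ : DifferentiableOn ℂ φ (St a b)) (v : ℂ) :
    ∃ g : ℂ → ℂ, g c = v ∧ ∀ z ∈ St a b, HasDerivAt g (φ z) z := by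
  have hrect : ∀ z w : ℂ, z.im ∈ Ioo a b → w.im ∈ Ioo a b →
      uIcc z.re w.re ×ℂ uIcc z.im w.im ⊆ St a b := by
    intro z w hz hw p hp
    have h1 : p.im ∈ uIcc z.im w.im := hp.2
    have h2 : uIcc z.im w.im ⊆ Ioo a b := (ordConnected_Ioo).uIcc_subset hz hw
    exact h2 h1
  have hcont : ContinuousOn φ (St a b) := hφ.continuousOn
  -- integrability
  have hint1 : ∀ (y x x' : ℝ), y ∈ Ioo a b →
      IntervalIntegrable (fun x : ℝ => φ (x + y * I)) MeasureTheory.volume x x' := by
    intro y x x' hy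
    apply Continuous.intervalIntegrable
    refine hcont.comp_continuous (by fun_prop) fun t => ?_
    show a < _ ∧ _ < b
    simpa using hy
  have hint2 : ∀ (x y y' : ℝ), y ∈ Ioo a b → y' ∈ Ioo a b →
      IntervalIntegrable (fun y : ℝ => φ (x + y * I)) MeasureTheory.volume y y' := by
    intro x y y' hy hy'
    apply ContinuousOn.intervalIntegrable
    refine hcont.comp (by fun_prop) fun t ht => ?_
    have h2 : uIcc y y' ⊆ Ioo a b := (ordConnected_Ioo).uIcc_subset hy hy'
    show a < _ ∧ _ < b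
    simpa using h2 ht
  set W : ℂ → ℂ → ℂ := fun z w => Complex.wedgeIntegral z w φ with hW
  have key : ∀ z ∈ St a b, ∀ w ∈ St a b, W c w = W c z + W z w := by
    intro z hz w hw
    have h1 := Complex.integral_boundary_rect_eq_zero_of_differentiableOn φ
      (z.re + c.im * I) (w.re + z.im * I) (hφ.mono (hrect _ _ (by
        rw [show ((z.re : ℂ) + c.im * I).im = c.im by simp]
        exact hc) (by
        rw [show ((w.re : ℂ) + z.im * I).im = z.im by simp]
        exact hz)))
    simp only [add_re, ofReal_re, mul_re, ofReal_im, I_re, mul_zero, I_im, mul_one, sub_self,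
      add_zero, add_im, mul_im, zero_add, smul_eq_mul] at h1
    simp only [hW, Complex.wedgeIntegral, smul_eq_mul]
    have h2 : (∫ x in c.re..w.re, φ (x + c.im * I)) = (∫ x in c.re..z.re, φ (x + c.im * I)) +
        ∫ x in z.re..w.re, φ (x + c.im * I) :=
      (intervalIntegral.integral_add_adjacent_intervals (hint1 _ _ _ hc) (hint1 _ _ _ hc)).symm
    have h3 : (∫ y in c.im..w.im, φ (w.re + y * I)) = (∫ y in c.im..z.im, φ (w.re + y * I)) +
        ∫ y in z.im..w.im, φ (w.re + y * I) :=
      (intervalIntegral.integral_add_adjacent_intervals (hint2 _ _ _ hc hz)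
        (hint2 _ _ _ hz hw)).symm
    rw [h2, h3]
    linear_combination h1
  refine ⟨fun z => W c z + v, ?_, fun z hz => ?_⟩
  · simp [hW, Complex.wedgeIntegral]
  · obtain ⟨r, hr, hsub⟩ := Metric.isOpen_iff.1 (isOpen_St a b) z hz
    have h1 : HasDerivAt (fun w => W z w) (φ z) z :=
      (hφ.mono hsub).isConservativeOn.hasDerivAt_wedgeIntegral (hcont.mono hsub)
        (mem_ball_self hr)
    have h2 : (fun w => W c w + v) =ᶠ[𝓝 z] fun w => W c z + v + W z w := by
      filter_upwards [(isOpen_St a b).mem_nhds hz] with w hw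
      rw [key z hz w hw]
      ring
    exact (h1.const_add (W c z + v)).congr_of_eventuallyEq h2

/-- solutions of `y'' + Q y = 0` on a strip -/
theorem exists_ode_strip {a b : ℝ} {c : ℂ} (hc : c ∈ St a b) {Q : ℂ → ℂ}
    (hQ : DifferentiableOn ℂ Q (St a b)) (v v' : ℂ) :
    ∃ y y' : ℂ → ℂ, (∀ z ∈ St a b, HasDerivAt y (y' z) z) ∧
      (∀ z ∈ St a b, HasDerivAt y' (-(Q z * y z)) z) ∧ y c = v ∧ y' c = v' :=
  exists_ode_convex (isOpen_St a b) (convex_St a b) hc
    (fun _ hφ => exists_prim_strip hc hφ 0) hQ v v'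

end Pool.Agent.Lib.MP_ae5b4e_an_LL
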