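import Pool.Agent.Lib.MP_ae5b4e_an_LL.Rad

/-!
# Library layer: a singular point on the boundary of the disc of regularity
-/

set_option autoImplicit false

namespace Pool.Agent.Lib.MP_ae5b4e_an_LL

open Topology Filter Set Metric

/-- two discs with centres on a circle which meet have a common point inside the circle -/
private theorem bad_mid {η₀ c d : ℂ} {x r s : ℝ} (hx : 0 < x) (hc : dist c η₀ = x)
    (hd : dist d η₀ = x) (hr : 0 < r) (hs : 0 < s) (h : (ball c r ∩ ball d s).Nonempty) :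
    ∃ m ∈ ball c r ∩ ball d s, dist m η₀ < x := by
  by_cases hcd : c = d
  · subst hcd
    set τ : ℝ := min (min r s / (2 * x)) (1 / 2) with hτ
    have hm : 0 < min r s := lt_min hr hs
    have hτ0 : 0 < τ := lt_min (by positivity) (by norm_num)
    have hτ1 : τ ≤ 1 / 2 := min_le_right _ _
    have hτ2 : τ * x < min r s := by
      have h1 : τ * x ≤ min r s / (2 * x) * x :=
        mul_le_mul_of_nonneg_right (min_le_left _ _) hx.le
      have h2 : min r s / (2 * x) * x = min r s / 2 := by field_simp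
      linarith
    have hn : ‖η₀ - c‖ = x := by rw [← dist_eq_norm, dist_comm, hc]
    have hmem : dist (c + (τ : ℂ) * (η₀ - c)) c < min r s := by
      rw [dist_eq_norm, add_sub_cancel_left, norm_mul, hn, Complex.norm_real,
        Real.norm_of_nonneg hτ0.le]
      exact hτ2
    refine ⟨c + (τ : ℂ) * (η₀ - c), ⟨hmem.trans_le (min_le_left _ _),
      hmem.trans_le (min_le_right _ _)⟩, ?_⟩
    have e : c + (τ : ℂ) * (η₀ - c) - η₀ = ((1 - τ : ℝ) : ℂ) * (c - η₀) := by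
      push_cast
      ring
    rw [dist_eq_norm, e, norm_mul, Complex.norm_real, Real.norm_of_nonneg (by linarith),
      ← dist_eq_norm, hc]
    nlinarith
  · obtain ⟨z, hz1, hz2⟩ := h
    have hlt : dist c d < r + s := by
      rw [mem_ball] at hz1 hz2
      have := dist_triangle_left c d z
      linarith
    have hrs : 0 < r + s := by positivity
    set a : ℝ := s / (r + s) with ha
    set b : ℝ := r / (r + s) with hb
    have ha0 : 0 < a := by positivity
    have hb0 : 0 < b := by positivity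
    have hab : a + b = 1 := by
      rw [ha, hb, ← add_div, add_comm s r, div_self hrs.ne']
    refine ⟨a • c + b • d, ⟨?_, ?_⟩, ?_⟩
    · rw [mem_ball, dist_eq_norm]
      have e : a • c + b • d - c = b • (d - c) := by
        have : a = 1 - b := by linarith
        rw [this, Complex.real_smul, Complex.real_smul, Complex.real_smul]
        push_cast
        ring
      rw [e, norm_smul, Real.norm_of_nonneg hb0.le, ← dist_eq_norm, dist_comm, hb,
        div_mul_eq_mul_div, div_lt_iff₀ hrs]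
      nlinarith
    · rw [mem_ball, dist_eq_norm]
      have e : a • c + b • d - d = a • (c - d) := by
        have : b = 1 - a := by linarith
        rw [this, Complex.real_smul, Complex.real_smul, Complex.real_smul]
        push_cast
        ring
      rw [e, norm_smul, Real.norm_of_nonneg ha0.le, ← dist_eq_norm, ha,
        div_mul_eq_mul_div, div_lt_iff₀ hrs]
      nlinarith
    · rw [dist_eq_norm]
      have e : a • c + b • d - η₀ = a • (c - η₀) + b • (d - η₀) := by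
        have : b = 1 - a := by linarith
        rw [this]
        simp only [Complex.real_smul]
        push_cast
        ring
      rw [e]
      apply norm_combo_lt_of_ne _ _ _ ha0 hb0 hab
      · rw [← dist_eq_norm, hc]
      · rw [← dist_eq_norm, hd]
      · intro h
        exact hcd (sub_left_injective h)

/-- gluing -/
private theorem bad_glue {ι : Type} (U : ι → Set (ℂ × ℂ)) (hU : ∀ i, IsOpen (U i))
    (g : ι → ℂ × ℂ → ℂ) (hg : ∀ i, AnalyticOnNhd ℂ (g i) (U i))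
    (hc : ∀ i j, ∀ p ∈ U i, p ∈ U j → g i p = g j p) :
    ∃ G : ℂ × ℂ → ℂ, (∀ i, ∀ p ∈ U i, G p = g i p) ∧ AnalyticOnNhd ℂ G (⋃ i, U i) := by
  classical
  let G : ℂ × ℂ → ℂ := fun p => if h : ∃ i, p ∈ U i then g h.choose p else 0
  have hG : ∀ i, ∀ p ∈ U i, G p = g i p := by
    intro i p hp
    have h : ∃ i, p ∈ U i := ⟨i, hp⟩
    have h1 : G p = g h.choose p := dif_pos h
    rw [h1]
    exact hc _ _ p h.choose_spec hp
  refine ⟨G, hG, ?_⟩
  intro p hp
  obtain ⟨i, hi⟩ := mem_iUnion.1 hp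
  refine (hg i p hi).congr ?_
  filter_upwards [(hU i).mem_nhds hi] with q hq
  exact (hG i q hq).symm

/-- If `Φ` extends near `{t} × ball η₀ s` for all `s < x` and for no `s > x` then some point of
the circle of radius `x` is singular: `F` (the maximal extension) has no extension, with values in
`Ω`, near this point. -/
theorem exists_bad {Φ F : ℂ × ℂ → ℂ} {η₀ t : ℂ} {Ω : Set ℂ} {x : ℝ}
    (hF1 : AnalyticOnNhd ℂ F (hdom Φ η₀ Ω)) (hF2 : MapsTo F (hdom Φ η₀ Ω) Ω)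
    (hF3 : ∀ t, (t, η₀) ∈ hdom Φ η₀ Ω → ∀ᶠ p in 𝓝 (t, η₀), F p = Φ p) (hx : 0 < x)
    (hreg : ∀ s < x, ExtH Φ η₀ Ω s t) (hnot : ∀ s > x, ¬ ExtH Φ η₀ Ω s t) :
    ∃ η₁ : ℂ, dist η₁ η₀ = x ∧ ∀ ε > 0, ∀ G : ℂ × ℂ → ℂ,
      AnalyticOnNhd ℂ G (ball t ε ×ˢ ball η₁ ε) → MapsTo G (ball t ε ×ˢ ball η₁ ε) Ω →
      ∀ η₂ ∈ ball η₁ ε, dist η₂ η₀ < x → ¬ ∀ᶠ p in 𝓝 (t, η₂), G p = F p := by
  by_contra hcon
  push Not at hcon
  choose! ε hε G hG1 hG2 e he1 he2 he3 using hcon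
  -- finitely many discs
  obtain ⟨S, hS, hcov⟩ := (isCompact_sphere η₀ x).elim_nhds_subcover (fun c => ball c (ε c))
    (fun c hc => ball_mem_nhds c (hε c hc))
  have hS' : ∀ c ∈ S, dist c η₀ = x := hS
  have hmid : ∀ c ∈ S, ∀ d ∈ S, ∃ m : ℂ, dist m η₀ < x ∧
      ((ball c (ε c) ∩ ball d (ε d)).Nonempty → m ∈ ball c (ε c) ∩ ball d (ε d)) := by
    intro c hc d hd
    by_cases h : (ball c (ε c) ∩ ball d (ε d)).Nonempty
    · obtain ⟨m, hm1, hm2⟩ := bad_mid hx (hS' c hc) (hS' d hd) (hε c (hS' c hc))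
        (hε d (hS' d hd)) h
      exact ⟨m, hm2, fun _ => hm1⟩
    · exact ⟨η₀, by rwa [dist_self], fun h' => absurd h' h⟩
  choose! m hm1 hm2 using hmid
  -- the compact rest
  set B : Set ℂ := ⋃ c ∈ S, ball c (ε c) with hB
  have hBo : IsOpen B := isOpen_biUnion fun c _ => isOpen_ball
  set K : Set ℂ := closedBall η₀ x \ B with hK
  have hKc : IsCompact K := (isCompact_closedBall η₀ x).diff hBo
  have hKx : ∀ z ∈ K, dist z η₀ < x := by
    intro z hz
    refine lt_of_le_of_ne hz.1 fun h => hz.2 (hcov ?_)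
    exact h
  have hsx : ∀ y < x, ∀ᶠ s in 𝓝[<] x, y < s := fun y hy =>
    (Ioo_mem_nhdsLT hy : Ioo y x ∈ 𝓝[<] x) |> fun h => by
      filter_upwards [h] with s hs
      exact hs.1
  have hKs : ∀ᶠ s in 𝓝[<] x, ∀ z ∈ K, dist z η₀ < s := by
    rcases K.eq_empty_or_nonempty with h0 | hne
    · rw [h0]
      exact Eventually.of_forall fun s z hz => absurd hz (notMem_empty z)
    · obtain ⟨z0, hz0, hmax⟩ := hKc.exists_isMaxOn hne
        (continuous_id.dist continuous_const).continuousOn (f := fun z => dist z η₀)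
      filter_upwards [hsx _ (hKx z0 hz0)] with s hs z hz
      exact (hmax hz).trans_lt hs
  obtain ⟨s, hs0, hsK, hse, hsm, hslt⟩ : ∃ s, 0 < s ∧ (∀ z ∈ K, dist z η₀ < s) ∧
      (∀ c ∈ S, dist (e c) η₀ < s) ∧ (∀ c ∈ S, ∀ d ∈ S, dist (m c d) η₀ < s) ∧ s < x := by
    have h1 : ∀ᶠ s in 𝓝[<] x, ∀ c ∈ S, dist (e c) η₀ < s :=
      (Finset.eventually_all S).2 fun c hc => hsx _ (he2 c (hS' c hc))
    have h2 : ∀ᶠ s in 𝓝[<] x, ∀ c ∈ S, ∀ d ∈ S, dist (m c d) η₀ < s :=
      (Finset.eventually_all S).2 fun c hc => (Finset.eventually_all S).2 fun d hd =>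
        hsx _ (hm1 c hc d hd)
    have h3 : ∀ᶠ s in 𝓝[<] x, s < x := eventually_mem_nhdsWithin
    obtain ⟨s, a1, a2, a3, a4, a5⟩ := ((hsx 0 hx).and (hKs.and (h1.and (h2.and h3)))).exists
    exact ⟨s, a1, a2, a3, a4, a5⟩
  -- the radius in `t`
  obtain ⟨δ, hδ0, hδε, hδdom⟩ : ∃ δ > 0, (∀ c ∈ S, δ ≤ ε c) ∧
      ∀ t' ∈ ball t δ, ExtH Φ η₀ Ω s t' := by
    obtain ⟨δ₁, hδ₁, h1⟩ := Metric.eventually_nhds_iff_ball.1 (hreg s hslt).eventually
    have h2 : ∀ᶠ δ in 𝓝[>] (0 : ℝ), ∀ c ∈ S, δ < ε c :=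
      (Finset.eventually_all S).2 fun c hc => by
        filter_upwards [Ioo_mem_nhdsGT (hε c (hS' c hc))] with δ hδ
        exact hδ.2
    have h3 : ∀ᶠ δ in 𝓝[>] (0 : ℝ), δ < δ₁ := by
      filter_upwards [Ioo_mem_nhdsGT hδ₁] with δ hδ
      exact hδ.2
    have h4 : ∀ᶠ δ in 𝓝[>] (0 : ℝ), 0 < δ := eventually_mem_nhdsWithin
    obtain ⟨δ, a1, a2, a3⟩ := (h2.and (h3.and h4)).exists
    exact ⟨δ, a3, fun c hc => (a1 c hc).le,
      fun t' ht' => h1 t' (ball_subset_ball a2.le ht')⟩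
  have htδ : t ∈ ball t δ := mem_ball_self hδ0
  have hdom0 : ball t δ ×ˢ ball η₀ s ⊆ hdom Φ η₀ Ω := by
    rintro ⟨t', η⟩ ⟨h1, h2⟩
    exact ⟨s, h2, hδdom t' h1⟩
  -- the pieces agree
  have hsubG : ∀ c ∈ S, ball t δ ×ˢ ball c (ε c) ⊆ ball t (ε c) ×ˢ ball c (ε c) :=
    fun c hc => prod_mono (ball_subset_ball (hδε c hc)) le_rfl
  have hFG : ∀ c ∈ S, ∀ p ∈ ball t δ ×ˢ (ball η₀ s ∩ ball c (ε c)), F p = G c p := by
    intro c hc
    have hconv : IsPreconnected (ball t δ ×ˢ (ball η₀ s ∩ ball c (ε c))) :=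
      ((convex_ball _ _).prod ((convex_ball _ _).inter (convex_ball _ _))).isPreconnected
    have a1 : AnalyticOnNhd ℂ F (ball t δ ×ˢ (ball η₀ s ∩ ball c (ε c))) :=
      hF1.mono ((prod_mono le_rfl inter_subset_left).trans hdom0)
    have a2 : AnalyticOnNhd ℂ (G c) (ball t δ ×ˢ (ball η₀ s ∩ ball c (ε c))) :=
      (hG1 c (hS' c hc)).mono ((prod_mono le_rfl inter_subset_right).trans (hsubG c hc))
    have a3 : (t, e c) ∈ ball t δ ×ˢ (ball η₀ s ∩ ball c (ε c)) :=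
      ⟨htδ, hse c hc, he1 c (hS' c hc)⟩
    have a4 : F =ᶠ[𝓝 (t, e c)] G c := by
      filter_upwards [he3 c (hS' c hc)] with p hp
      exact hp.symm
    exact fun p hp => a1.eqOn_of_preconnected_of_eventuallyEq a2 hconv a3 a4 hp
  have hGG : ∀ c ∈ S, ∀ d ∈ S, ∀ p ∈ ball t δ ×ˢ (ball c (ε c) ∩ ball d (ε d)),
      G c p = G d p := by
    intro c hc d hd p hp
    have hmm := hm2 c hc d hd ⟨p.2, hp.2⟩
    have hconv : IsPreconnected (ball t δ ×ˢ (ball c (ε c) ∩ ball d (ε d))) :=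
      ((convex_ball _ _).prod ((convex_ball _ _).inter (convex_ball _ _))).isPreconnected
    have a1 : AnalyticOnNhd ℂ (G c) (ball t δ ×ˢ (ball c (ε c) ∩ ball d (ε d))) :=
      (hG1 c (hS' c hc)).mono ((prod_mono le_rfl inter_subset_left).trans (hsubG c hc))
    have a2 : AnalyticOnNhd ℂ (G d) (ball t δ ×ˢ (ball c (ε c) ∩ ball d (ε d))) :=
      (hG1 d (hS' d hd)).mono ((prod_mono le_rfl inter_subset_right).trans (hsubG d hd))
    have a3 : (t, m c d) ∈ ball t δ ×ˢ (ball c (ε c) ∩ ball d (ε d)) := ⟨htδ, hmm⟩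
    have a4 : G c =ᶠ[𝓝 (t, m c d)] G d := by
      have ho : IsOpen (ball t δ ×ˢ (ball η₀ s ∩ (ball c (ε c) ∩ ball d (ε d)))) :=
        isOpen_ball.prod (isOpen_ball.inter (isOpen_ball.inter isOpen_ball))
      have hmem : (t, m c d) ∈ ball t δ ×ˢ (ball η₀ s ∩ (ball c (ε c) ∩ ball d (ε d))) :=
        ⟨htδ, hsm c hc d hd, hmm⟩
      filter_upwards [ho.mem_nhds hmem] with q hq
      rw [← hFG c hc q ⟨hq.1, hq.2.1, hq.2.2.1⟩, ← hFG d hd q ⟨hq.1, hq.2.1, hq.2.2.2⟩]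
    exact a1.eqOn_of_preconnected_of_eventuallyEq a2 hconv a3 a4 hp
  -- glue
  let U : Option S → Set (ℂ × ℂ) := fun i => match i with
    | none => ball t δ ×ˢ ball η₀ s
    | some c => ball t δ ×ˢ ball (c : ℂ) (ε c)
  let g : Option S → ℂ × ℂ → ℂ := fun i => match i with
    | none => F
    | some c => G c
  obtain ⟨H, hH1, hH2⟩ := bad_glue U (by
      rintro (_ | c)
      · exact isOpen_ball.prod isOpen_ball
      · exact isOpen_ball.prod isOpen_ball) g (by
      rintro (_ | c)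
      · exact hF1.mono hdom0
      · exact (hG1 c (hS' c c.2)).mono (hsubG c c.2)) (by
      rintro (_ | c) (_ | d) p hp hp'
      · rfl
      · exact hFG d d.2 p ⟨hp.1, hp.2, hp'.2⟩
      · exact (hFG c c.2 p ⟨hp.1, hp'.2, hp.2⟩).symm
      · exact hGG c c.2 d d.2 p ⟨hp.1, hp.2, hp'.2⟩)
  -- the larger disc
  have hW : closedBall η₀ x ⊆ ball η₀ s ∪ B := by
    intro z hz
    by_cases hzB : z ∈ B
    · exact Or.inr hzB
    · exact Or.inl (hsK z ⟨hz, hzB⟩)
  obtain ⟨ρ, hρ, hρW⟩ := (isCompact_closedBall η₀ x).exists_thickening_subset_open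
    (isOpen_ball.union hBo) hW
  rw [thickening_closedBall hρ hx.le] at hρW
  have hUsub : ball t δ ×ˢ ball η₀ (ρ + x) ⊆ ⋃ i, U i := by
    rintro ⟨t', η⟩ ⟨h1, h2⟩
    rcases hρW h2 with h3 | h3
    · exact mem_iUnion.2 ⟨none, h1, h3⟩
    · rw [hB, mem_iUnion₂] at h3
      obtain ⟨c, hc, h3⟩ := h3
      exact mem_iUnion.2 ⟨some ⟨c, hc⟩, h1, h3⟩
  refine hnot (ρ + x) (by linarith) ⟨δ, hδ0, H, hH2.mono hUsub, ?_, ?_⟩
  · intro p hp
    obtain ⟨i, hi⟩ := mem_iUnion.1 (hUsub hp)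
    rw [hH1 i p hi]
    rcases i with _ | c
    · exact hF2 (hdom0 hi)
    · exact hG2 c (hS' c c.2) (hsubG c c.2 hi)
  · intro t' ht'
    have h1 : (t', η₀) ∈ ball t δ ×ˢ ball η₀ s := ⟨ht', mem_ball_self hs0⟩
    filter_upwards [(isOpen_ball.prod isOpen_ball).mem_nhds h1, hF3 t' (hdom0 h1)] with p hp hp'
    rw [← hp']
    exact hH1 none p hp

end Pool.Agent.Lib.MP_ae5b4e_an_LL
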