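import Pool.Agent.Lib.MP_ae5b4e_an_LL.Sub

/-!
# Library layer: subharmonic functions in the plane, part 2: integrability on circles, sums
-/

set_option autoImplicit false

namespace Pool.Agent.Lib.MP_ae5b4e_an_LL

open Topology Filter Set Metric InnerProductSpace MeasureTheory
open Real (circleAverage)

/-- An upper semicontinuous function on a circle is the limit of a decreasing sequence of
continuous functions. -/
theorem exists_antitone_approx {f : ℂ → ℝ} {c : ℂ} {r : ℝ} (hr : 0 < r)
    (hf : UpperSemicontinuousOn f (sphere c r)) :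
    ∃ g : ℕ → ℂ → ℝ, (∀ n, Continuous (g n)) ∧ (∀ n, ∀ z ∈ sphere c r, f z ≤ g n z) ∧
      (∀ z, Antitone fun n => g n z) ∧
      (∀ z ∈ sphere c r, Tendsto (fun n => g n z) atTop (𝓝 (f z))) ∧
      ∃ B, (∀ z ∈ sphere c r, f z ≤ B) ∧ ∀ n z, g n z ≤ B := by
  have hne : (sphere c r).Nonempty := (NormedSpace.sphere_nonempty (x := c)).2 hr.le
  obtain ⟨z₀, hz₀, hmax⟩ := hf.exists_isMaxOn hne (isCompact_sphere c r)
  set B := f z₀ with hB
  have hB' : ∀ z ∈ sphere c r, f z ≤ B := fun z hz => hmax hz
  set S : ℕ → ℂ → Set ℝ := fun n z => (fun w => f w - n * dist z w) '' sphere c r with hS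
  have hSne : ∀ n z, (S n z).Nonempty := fun n z => hne.image _
  have hSle : ∀ n z, ∀ y ∈ S n z, y ≤ B := by
    rintro n z _ ⟨w, hw, rfl⟩
    have h1 := hB' w hw
    have h2 : 0 ≤ (n : ℝ) * dist z w := by positivity
    show f w - n * dist z w ≤ B
    linarith
  have hSb : ∀ n z, BddAbove (S n z) := fun n z => ⟨B, hSle n z⟩
  refine ⟨fun n z => sSup (S n z), ?_, ?_, ?_, ?_, B, hB', fun n z => csSup_le (hSne n z) (hSle n z)⟩
  · intro n
    have : LipschitzWith (n : NNReal) (fun z => sSup (S n z)) := by
      apply LipschitzWith.of_le_add_mul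
      intro x y
      apply csSup_le (hSne n x)
      rintro _ ⟨w, hw, rfl⟩
      have h1 : f w - n * dist y w ≤ sSup (S n y) := le_csSup (hSb n y) ⟨w, hw, rfl⟩
      have h2 : dist y w ≤ dist x y + dist x w := by
        rw [dist_comm x y]; exact dist_triangle y x w
      have h3 : (n : ℝ) * dist y w ≤ n * (dist x y + dist x w) :=
        mul_le_mul_of_nonneg_left h2 (by positivity)
      show f w - n * dist x w ≤ _
      push_cast
      linarith
    exact this.continuous
  · intro n z hz
    apply le_csSup (hSb n z)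
    exact ⟨z, hz, by simp⟩
  · intro z m n hmn
    apply csSup_le (hSne n z)
    rintro _ ⟨w, hw, rfl⟩
    have h1 : f w - m * dist z w ≤ sSup (S m z) := le_csSup (hSb m z) ⟨w, hw, rfl⟩
    have h2 : (m : ℝ) * dist z w ≤ n * dist z w :=
      mul_le_mul_of_nonneg_right (by exact_mod_cast hmn) dist_nonneg
    show f w - n * dist z w ≤ _
    linarith
  · intro z hz
    rw [tendsto_order]
    constructor
    · intro a ha
      filter_upwards with n
      exact lt_of_lt_of_le ha (le_csSup (hSb n z) ⟨z, hz, by simp⟩)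
    · intro a ha
      obtain ⟨b, hb1, hb2⟩ := exists_between ha
      have h1 := hf z hz b hb1
      rw [eventually_nhdsWithin_iff, Metric.eventually_nhds_iff] at h1
      obtain ⟨δ, hδ, h1⟩ := h1
      obtain ⟨N, hN⟩ := exists_nat_gt ((B - b) / δ)
      filter_upwards [eventually_ge_atTop N] with n hn
      refine lt_of_le_of_lt (csSup_le (hSne n z) ?_) hb2
      rintro _ ⟨w, hw, rfl⟩
      show f w - n * dist z w ≤ b
      by_cases hd : dist z w < δ
      · have h2 : f w < b := h1 (by rw [dist_comm]; exact hd) hw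
        have h3 : 0 ≤ (n : ℝ) * dist z w := by positivity
        linarith
      · push Not at hd
        have h2 : (B - b) / δ < n := hN.trans_le (by exact_mod_cast hn)
        rw [div_lt_iff₀ hδ] at h2
        have h3 : (n : ℝ) * δ ≤ n * dist z w := mul_le_mul_of_nonneg_left hd (by positivity)
        have := hB' w hw
        linarith

/-- The mean value inequality with the function itself. -/
theorem circleIntegrable_and_le {f : ℂ → ℝ} {c : ℂ} {r a : ℝ} (hr : 0 < r)
    (hf : UpperSemicontinuousOn f (sphere c r))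
    (h : ∀ g : ℂ → ℝ, Continuous g → (∀ z ∈ sphere c r, f z ≤ g z) → a ≤ circleAverage g c r) :
    CircleIntegrable f c r ∧ a ≤ circleAverage f c r := by
  obtain ⟨g, hg1, hg2, hg3, hg4, B, hB1, hB2⟩ := exists_antitone_approx hr hf
  have hmem : ∀ θ : ℝ, circleMap c r θ ∈ sphere c r := fun θ => circleMap_mem_sphere c hr.le θ
  set μ : Measure ℝ := volume.restrict (Ioc 0 (2 * Real.pi)) with hμ
  set G : ℕ → ℝ → ℝ := fun n θ => B - g n (circleMap c r θ) with hG
  set F : ℝ → ℝ := fun θ => B - f (circleMap c r θ) with hF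
  have hGc : ∀ n, Continuous (G n) := fun n =>
    continuous_const.sub ((hg1 n).comp (continuous_circleMap c r))
  have hG0 : ∀ n θ, 0 ≤ G n θ := fun n θ => by
    have := hB2 n (circleMap c r θ)
    simp only [hG]; linarith
  have hF0 : ∀ θ, 0 ≤ F θ := fun θ => by
    have := hB1 _ (hmem θ)
    simp only [hF]; linarith
  have hlim : ∀ θ, Tendsto (fun n => G n θ) atTop (𝓝 (F θ)) := fun θ =>
    tendsto_const_nhds.sub (hg4 _ (hmem θ))
  have hFm : Measurable F := measurable_of_tendsto_metrizable (fun n => (hGc n).measurable)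
    (tendsto_pi_nhds.2 hlim)
  have hGint : ∀ n, Integrable (G n) μ := fun n =>
    ((hGc n).integrableOn_Icc (a := 0) (b := 2 * Real.pi)).mono_set Ioc_subset_Icc_self
  have hGle : ∀ n, ∫ θ, G n θ ∂μ ≤ 2 * Real.pi * (B - a) := by
    intro n
    have h1 := h (g n) (hg1 n) (hg2 n)
    rw [Real.circleAverage_def, smul_eq_mul, le_inv_mul_iff₀ Real.two_pi_pos,
      intervalIntegral.integral_of_le Real.two_pi_pos.le] at h1
    have h2 : ∫ θ, G n θ ∂μ = 2 * Real.pi * B - ∫ θ, g n (circleMap c r θ) ∂μ := by
      simp only [hG]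
      rw [integral_sub (integrable_const _)]
      · rw [integral_const, hμ, measureReal_restrict_apply MeasurableSet.univ, univ_inter,
          Real.volume_real_Ioc_of_le Real.two_pi_pos.le, smul_eq_mul, sub_zero]
      · exact ((((hg1 n).comp (continuous_circleMap c r))).integrableOn_Icc (a := 0)
          (b := 2 * Real.pi)).mono_set Ioc_subset_Icc_self
    rw [h2, hμ]
    linarith
  have hlint : ∫⁻ θ, ENNReal.ofReal (F θ) ∂μ ≤ ENNReal.ofReal (2 * Real.pi * (B - a)) := by
    have h1 : Tendsto (fun n => ∫⁻ θ, ENNReal.ofReal (G n θ) ∂μ) atTop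
        (𝓝 (∫⁻ θ, ENNReal.ofReal (F θ) ∂μ)) := by
      apply lintegral_tendsto_of_tendsto_of_monotone
      · intro n
        exact (hGc n).measurable.ennreal_ofReal.aemeasurable
      · filter_upwards with θ m n hmn
        apply ENNReal.ofReal_le_ofReal
        have := hg3 (circleMap c r θ) hmn
        simp only [hG] at this ⊢
        linarith
      · filter_upwards with θ
        exact (ENNReal.continuous_ofReal.tendsto _).comp (hlim θ)
    apply le_of_tendsto h1
    filter_upwards with n
    rw [← ofReal_integral_eq_lintegral_ofReal (hGint n) (Eventually.of_forall (hG0 n))]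
    exact ENNReal.ofReal_le_ofReal (hGle n)
  have hFint : Integrable F μ := by
    refine ⟨hFm.aestronglyMeasurable, ?_⟩
    rw [hasFiniteIntegral_iff_ofReal (Eventually.of_forall hF0)]
    exact lt_of_le_of_lt hlint ENNReal.ofReal_lt_top
  have hfint : Integrable (fun θ => f (circleMap c r θ)) μ := by
    have := (integrable_const B).sub hFint
    refine this.congr (Eventually.of_forall fun θ => ?_)
    simp [hF]
  have hci : CircleIntegrable f c r := by
    rw [CircleIntegrable, intervalIntegrable_iff_integrableOn_Ioc_of_le Real.two_pi_pos.le]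
    exact hfint
  refine ⟨hci, ?_⟩
  rw [Real.circleAverage_def, smul_eq_mul, le_inv_mul_iff₀ Real.two_pi_pos,
      intervalIntegral.integral_of_le Real.two_pi_pos.le]
  have h3 : ∫ θ, F θ ∂μ ≤ 2 * Real.pi * (B - a) := by
    have hBa : 0 ≤ 2 * Real.pi * (B - a) := le_trans (integral_nonneg (hG0 0)) (hGle 0)
    rw [← ofReal_integral_eq_lintegral_ofReal hFint (Eventually.of_forall hF0)] at hlint
    exact (ENNReal.ofReal_le_ofReal_iff hBa).1 hlint
  have h4 : ∫ θ, F θ ∂μ = 2 * Real.pi * B - ∫ θ, f (circleMap c r θ) ∂μ := by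
    simp only [hF]
    rw [integral_sub (integrable_const _) hfint]
    rw [integral_const, hμ, measureReal_restrict_apply MeasurableSet.univ, univ_inter,
          Real.volume_real_Ioc_of_le Real.two_pi_pos.le, smul_eq_mul, sub_zero]
  rw [h4, hμ] at h3
  linarith

namespace SubH

variable {f g : ℂ → ℝ} {U V : Set ℂ}

theorem circleIntegrable {c : ℂ} {r : ℝ} (hr : 0 < r) (hf : SubH f (ball c r))
    (hfc : UpperSemicontinuousOn f (closedBall c r)) : CircleIntegrable f c r :=
  (circleIntegrable_and_le (a := f c) hr (hfc.mono sphere_subset_closedBall)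
    (fun _ hg h => hf.le_circleAverage hr hfc hg.continuousOn h)).1

theorem le_average {c : ℂ} {r : ℝ} (hr : 0 < r) (hf : SubH f (ball c r))
    (hfc : UpperSemicontinuousOn f (closedBall c r)) : f c ≤ circleAverage f c r :=
  (circleIntegrable_and_le (a := f c) hr (hfc.mono sphere_subset_closedBall)
    (fun _ hg h => hf.le_circleAverage hr hfc hg.continuousOn h)).2

theorem circleIntegrable' {c : ℂ} {r : ℝ} (hr : 0 < r) (hf : SubH f U)
    (h : closedBall c r ⊆ U) : CircleIntegrable f c r :=
  (hf.mono (ball_subset_closedBall.trans h)).circleIntegrable hr (hf.usc.mono h)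

theorem le_average' {c : ℂ} {r : ℝ} (hr : 0 < r) (hf : SubH f U)
    (h : closedBall c r ⊆ U) : f c ≤ circleAverage f c r :=
  (hf.mono (ball_subset_closedBall.trans h)).le_average hr (hf.usc.mono h)

/-- the definition through circle averages -/
theorem of_average (hU : IsOpen U) (hf : UpperSemicontinuousOn f U)
    (h : ∀ c ∈ U, ∀ᶠ r in 𝓝[>] (0 : ℝ), CircleIntegrable f c r ∧ f c ≤ circleAverage f c r) :
    SubH f U := by
  refine ⟨hf, fun c hc => ?_⟩
  filter_upwards [h c hc, eventually_closedBall_subset (hU.mem_nhds hc)] with r h1 h2 g hg1 hg2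
  refine h1.2.trans (Real.circleAverage_mono h1.1 (hg1.circleIntegrable h2.1.le) fun z hz => ?_)
  rw [abs_of_pos h2.1] at hz
  exact hg2 z hz

theorem add (hU : IsOpen U) (hf : SubH f U) (hg : SubH g U) : SubH (fun z => f z + g z) U := by
  apply of_average hU
  · exact hf.usc.add hg.usc
  · intro c hc
    filter_upwards [eventually_closedBall_subset (hU.mem_nhds hc)] with r h2
    have i1 := hf.circleIntegrable' h2.1 h2.2
    have i2 := hg.circleIntegrable' h2.1 h2.2
    refine ⟨i1.add i2, ?_⟩
    rw [Real.circleAverage_fun_add i1 i2]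
    exact add_le_add (hf.le_average' h2.1 h2.2) (hg.le_average' h2.1 h2.2)

end SubH

end Pool.Agent.Lib.MP_ae5b4e_an_LL
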