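import Pool.Agent.Lib.MP_ae5b4e_an_LL.Ode

/-!
# Library layer: the equation `y'' + Q y = 0` on a horizontal strip

Primitives on strips, existence of solutions on star-shaped open sets with primitives.
-/

set_option autoImplicit false

namespace Pool.Agent.Lib.MP_ae5b4e_an_LL

open Topology Filter Set Metric

/-- `K` is star-shaped about `c` -/
def Star (c : ℂ) (K : Set ℂ) : Prop := ∀ z ∈ K, ∀ t ∈ Icc (0:ℝ) 1, c + t * (z - c) ∈ K

/-- integration of a bound along the segments to `c` -/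
theorem norm_le_of_deriv_pow' {c : ℂ} {K : Set ℂ} (hK : Star c K) {A : ℝ} {k : ℕ} {g φ : ℂ → ℂ}
    (hg : ∀ z ∈ K, HasDerivAt g (φ z) z) (h0 : g c = 0)
    (hφ : ∀ z ∈ K, ‖φ z‖ ≤ A * ‖z - c‖ ^ k) :
    ∀ z ∈ K, ‖g z‖ ≤ A * ‖z - c‖ ^ (k + 1) / (k + 1) := by
  intro z hz
  have hf : ∀ t ∈ Icc (0:ℝ) 1, HasDerivAt (fun t : ℝ => g (c + t * (z - c)))
      (φ (c + t * (z - c)) * (z - c)) t := by
    intro t ht
    have h1 := hg _ (hK z hz t ht)
    have h2 : HasDerivAt (fun t : ℂ => c + t * (z - c)) (1 * (z - c)) (t : ℂ) :=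
      ((hasDerivAt_id (t : ℂ)).mul_const (z - c)).const_add c
    have h3 := (h1.comp (t : ℂ) h2).comp_ofReal
    simpa using h3
  have key := image_norm_le_of_norm_deriv_right_le_deriv_boundary
    (f := fun t : ℝ => g (c + t * (z - c))) (f' := fun t => φ (c + t * (z - c)) * (z - c))
    (a := 0) (b := 1)
    (B := fun t => A * ‖z - c‖ ^ (k + 1) * t ^ (k + 1) / (k + 1))
    (B' := fun t => A * ‖z - c‖ ^ (k + 1) * t ^ k)
    (fun t ht => (hf t ht).continuousAt.continuousWithinAt)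
    (fun t ht => (hf t ⟨ht.1, ht.2.le⟩).hasDerivWithinAt) (by simp [h0]) (fun t => by
      have h1 := (hasDerivAt_pow (k + 1) t).const_mul (A * ‖z - c‖ ^ (k + 1))
      have h2 := h1.div_const ((k : ℝ) + 1)
      have h3 : (k : ℝ) + 1 ≠ 0 := by positivity
      convert! h2 using 1
      push_cast
      field_simp) (fun t ht => by
      have h1 := hφ _ (hK z hz t ⟨ht.1, ht.2.le⟩)
      rw [add_sub_cancel_left, norm_mul, Complex.norm_real, Real.norm_eq_abs,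
        abs_of_nonneg ht.1] at h1
      rw [norm_mul]
      calc ‖φ (c + t * (z - c))‖ * ‖z - c‖ ≤ A * (t * ‖z - c‖) ^ k * ‖z - c‖ := by gcongr
        _ = A * ‖z - c‖ ^ (k + 1) * t ^ k := by ring)
  have h1 := key (right_mem_Icc.2 zero_le_one)
  simpa using h1

/-- the iterates of the integral equation -/
theorem exists_iterates' {c : ℂ} {U : Set ℂ}
    (hprim : ∀ φ : ℂ → ℂ, DifferentiableOn ℂ φ U → ∃ g : ℂ → ℂ, g c = 0 ∧
      ∀ z ∈ U, HasDerivAt g (φ z) z)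
    {Q : ℂ → ℂ} (hQ : DifferentiableOn ℂ Q U)
    {u₀ v₀ : ℂ → ℂ} (hu₀ : ∀ z ∈ U, HasDerivAt u₀ (v₀ z) z) :
    ∃ u v : ℕ → ℂ → ℂ, u 0 = u₀ ∧ v 0 = v₀ ∧
      (∀ n, ∀ z ∈ U, HasDerivAt (u n) (v n z) z) ∧
      (∀ n, ∀ z ∈ U, HasDerivAt (v (n + 1)) (-(Q z * u n z)) z) ∧
      ∀ n, u (n + 1) c = 0 ∧ v (n + 1) c = 0 := by
  classical
  have hstep : ∀ p : {p : (ℂ → ℂ) × (ℂ → ℂ) // ∀ z ∈ U, HasDerivAt p.1 (p.2 z) z},
      ∃ q : {p : (ℂ → ℂ) × (ℂ → ℂ) // ∀ z ∈ U, HasDerivAt p.1 (p.2 z) z},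
        (∀ z ∈ U, HasDerivAt q.1.2 (-(Q z * p.1.1 z)) z) ∧ q.1.1 c = 0 ∧ q.1.2 c = 0 := by
    rintro ⟨⟨u, v⟩, huv⟩
    have hu : DifferentiableOn ℂ u U := fun z hz =>
      (huv z hz).differentiableAt.differentiableWithinAt
    obtain ⟨v', hv'0, hv'⟩ := hprim _ ((hQ.mul hu).neg)
    have hv'd : DifferentiableOn ℂ v' U := fun z hz =>
      (hv' z hz).differentiableAt.differentiableWithinAt
    obtain ⟨u', hu'0, hu'⟩ := hprim _ hv'd
    exact ⟨⟨(u', v'), hu'⟩, fun z hz => hv' z hz, hu'0, hv'0⟩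
  choose S hS1 hS2 hS3 using hstep
  set s : ℕ → {p : (ℂ → ℂ) × (ℂ → ℂ) // ∀ z ∈ U, HasDerivAt p.1 (p.2 z) z} :=
    fun n => Nat.rec ⟨(u₀, v₀), hu₀⟩ (fun _ p => S p) n with hs
  have hsucc : ∀ n, s (n + 1) = S (s n) := fun n => rfl
  refine ⟨fun n => (s n).1.1, fun n => (s n).1.2, rfl, rfl, fun n => (s n).2, fun n => ?_,
    fun n => ?_⟩
  · show ∀ z ∈ U, HasDerivAt (s (n + 1)).1.2 _ z
    rw [hsucc]
    exact hS1 (s n)
  · show (s (n + 1)).1.1 c = 0 ∧ (s (n + 1)).1.2 c = 0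
    rw [hsucc]
    exact ⟨hS2 _, hS3 _⟩

/-- the bounds for the iterates and their derivatives -/
theorem iterates_bound_star {c : ℂ} {K : Set ℂ} (hK : Star c K) {M A : ℝ} {Q : ℂ → ℂ}
    (hM : 0 ≤ M) (hQ : ∀ z ∈ K, ‖Q z‖ ≤ M) {u v : ℕ → ℂ → ℂ}
    (h1 : ∀ n, ∀ z ∈ K, HasDerivAt (u n) (v n z) z)
    (h2 : ∀ n, ∀ z ∈ K, HasDerivAt (v (n + 1)) (-(Q z * u n z)) z)
    (h3 : ∀ n, u (n + 1) c = 0 ∧ v (n + 1) c = 0)
    (h0 : ∀ z ∈ K, ‖u 0 z‖ ≤ A) (n : ℕ) : ∀ z ∈ K,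
      ‖u n z‖ ≤ A * M ^ n * ‖z - c‖ ^ (2 * n) / (2 * n).factorial ∧
      ‖v (n + 1) z‖ ≤ A * M ^ (n + 1) * ‖z - c‖ ^ (2 * n + 1) / (2 * n + 1).factorial := by
  have step : ∀ n, (∀ z ∈ K, ‖u n z‖ ≤ A * M ^ n * ‖z - c‖ ^ (2 * n) / (2 * n).factorial) →
      ∀ z ∈ K, ‖v (n + 1) z‖ ≤
        A * M ^ (n + 1) * ‖z - c‖ ^ (2 * n + 1) / (2 * n + 1).factorial := by
    intro n ih z hz
    have h4 : ∀ z ∈ K, ‖-(Q z * u n z)‖ ≤
        (A * M ^ (n + 1) / (2 * n).factorial) * ‖z - c‖ ^ (2 * n) := by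
      intro z hz
      rw [norm_neg, norm_mul]
      calc ‖Q z‖ * ‖u n z‖ ≤ M * (A * M ^ n * ‖z - c‖ ^ (2 * n) / (2 * n).factorial) :=
            mul_le_mul (hQ z hz) (ih z hz) (norm_nonneg _) hM
        _ = _ := by ring
    refine (norm_le_of_deriv_pow' hK (h2 n) (h3 n).2 h4 z hz).trans (le_of_eq ?_)
    rw [Nat.factorial_succ]
    have h5 : ((2 * n).factorial : ℝ) ≠ 0 := by positivity
    push_cast
    have h6 : (2 * (n:ℝ) + 1) ≠ 0 := by positivity
    field_simp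
  have hu : ∀ n, ∀ z ∈ K, ‖u n z‖ ≤ A * M ^ n * ‖z - c‖ ^ (2 * n) / (2 * n).factorial := by
    intro n
    induction n with
    | zero =>
      intro z hz
      simpa using h0 z hz
    | succ n ih =>
      intro z hz
      have h4 : ∀ z ∈ K, ‖v (n + 1) z‖ ≤
          (A * M ^ (n + 1) / (2 * n + 1).factorial) * ‖z - c‖ ^ (2 * n + 1) := by
        intro z hz
        refine (step n ih z hz).trans (le_of_eq (by ring))
      refine (norm_le_of_deriv_pow' hK (h1 (n + 1)) (h3 n).1 h4 z hz).trans (le_of_eq ?_)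
      have e1 : 2 * (n + 1) = (2 * n + 1) + 1 := by ring
      rw [e1, Nat.factorial_succ (2 * n + 1)]
      have h5 : ((2 * n + 1).factorial : ℝ) ≠ 0 := by positivity
      push_cast
      have h6 : (2 * (n:ℝ) + 1 + 1) ≠ 0 := by positivity
      field_simp
  exact fun z hz => ⟨hu n z hz, step n (hu n) z hz⟩

/-- existence of solutions on a convex open set with primitives -/
theorem exists_ode_convex {c : ℂ} {U : Set ℂ} (hU : IsOpen U) (hUc : Convex ℝ U) (hc : c ∈ U)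
    (hprim : ∀ φ : ℂ → ℂ, DifferentiableOn ℂ φ U → ∃ g : ℂ → ℂ, g c = 0 ∧
      ∀ z ∈ U, HasDerivAt g (φ z) z)
    {Q : ℂ → ℂ} (hQ : DifferentiableOn ℂ Q U) (a b : ℂ) :
    ∃ y y' : ℂ → ℂ, (∀ z ∈ U, HasDerivAt y (y' z) z) ∧
      (∀ z ∈ U, HasDerivAt y' (-(Q z * y z)) z) ∧ y c = a ∧ y' c = b := by
  obtain ⟨u, v, hu, hv, h1, h2, h3⟩ := exists_iterates' hprim hQ
    (u₀ := fun z => a + b * (z - c)) (v₀ := fun _ => b)
    (fun z _ => by simpa using (((hasDerivAt_id z).sub_const c).const_mul b).const_add a)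
  -- local uniform bounds
  have hloc : ∀ z₀ ∈ U, ∃ δ > 0, ball z₀ δ ⊆ U ∧ ∃ B : ℕ → ℝ, Summable B ∧
      ∃ M, 0 ≤ M ∧ (∀ z ∈ ball z₀ δ, ‖Q z‖ ≤ M) ∧
      ∀ n, ∀ z ∈ ball z₀ δ, ‖u n z‖ ≤ B n ∧ ‖v (n + 1) z‖ ≤ B n := by
    intro z₀ hz₀
    obtain ⟨δ, hδ, hδU⟩ := Metric.nhds_basis_closedBall.mem_iff.1 (hU.mem_nhds hz₀)
    set f : ℝ × ℂ → ℂ := fun p => c + p.1 * (p.2 - c) with hf
    have hfc : Continuous f := by fun_prop
    set K : Set ℂ := f '' (Icc (0:ℝ) 1 ×ˢ closedBall z₀ δ) with hK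
    have hKc : IsCompact K := (isCompact_Icc.prod (isCompact_closedBall z₀ δ)).image hfc
    have hKU : K ⊆ U := by
      rintro _ ⟨⟨t, z⟩, ⟨ht, hz⟩, rfl⟩
      have h4 := hUc hc (hδU hz) (sub_nonneg.2 ht.2) ht.1 (by ring)
      have h5 : (1 - t) • c + t • z = c + t * (z - c) := by
        simp only [Complex.real_smul]
        push_cast
        ring
      rw [h5] at h4
      exact h4
    have hKs : Star c K := by
      rintro _ ⟨⟨t, z⟩, ⟨ht, hz⟩, rfl⟩ s hs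
      refine ⟨(s * t, z), ⟨⟨mul_nonneg hs.1 ht.1, mul_le_one₀ hs.2 ht.1 ht.2⟩, hz⟩, ?_⟩
      simp only [hf]
      push_cast
      ring
    have hball : ball z₀ δ ⊆ K := fun z hz =>
      ⟨(1, z), ⟨⟨zero_le_one, le_rfl⟩, ball_subset_closedBall hz⟩, by simp [hf]⟩
    have hcK : c ∈ K := ⟨(0, z₀), ⟨⟨le_rfl, zero_le_one⟩, mem_closedBall_self hδ.le⟩, by
      simp [hf]⟩
    obtain ⟨M, hM⟩ := hKc.exists_bound_of_continuousOn (hQ.continuousOn.mono hKU)
    have hM0 : 0 ≤ M := (norm_nonneg _).trans (hM c hcK)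
    obtain ⟨ρ, hρ⟩ := hKc.exists_bound_of_continuousOn (f := fun z => z - c)
      (by fun_prop : Continuous fun z : ℂ => z - c).continuousOn
    have hρ0 : 0 ≤ ρ := (norm_nonneg _).trans (hρ c hcK)
    obtain ⟨A, hA⟩ := hKc.exists_bound_of_continuousOn (f := fun z => a + b * (z - c))
      (by fun_prop : Continuous fun z : ℂ => a + b * (z - c)).continuousOn
    have hA0 : 0 ≤ A := (norm_nonneg _).trans (hA c hcK)
    have hb := iterates_bound_star hKs hM0 hM (fun n z hz => h1 n z (hKU hz))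
      (fun n z hz => h2 n z (hKU hz)) h3 (A := A) (fun z hz => by rw [hu]; exact hA z hz)
    have hs1 := summable_major (A := A) hA0 hM0 hρ0 0
    have hs2 := summable_major (A := A * M) (mul_nonneg hA0 hM0) hM0 hρ0 1
    refine ⟨δ, hδ, fun z hz => hδU (ball_subset_closedBall hz), _, hs1.add hs2, M, hM0,
      fun z hz => hM z (hball hz), fun n z hz => ?_⟩
    have hzK := hball hz
    have h4 := hρ z hzK
    have h5 : 0 ≤ A * M ^ n * (Nat.factorial 0) * ρ ^ (2 * n + 0) / (2 * n + 0).factorial := by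
      positivity
    have h6 : 0 ≤ A * M * M ^ n * (Nat.factorial 1) * ρ ^ (2 * n + 1) /
        (2 * n + 1).factorial := by
      positivity
    constructor
    · refine ((hb n z hzK).1.trans ?_).trans (le_add_of_nonneg_right h6)
      simp only [Nat.factorial_zero, Nat.cast_one, mul_one, Nat.add_zero]
      gcongr
    · refine ((hb n z hzK).2.trans ?_).trans (le_add_of_nonneg_left h5)
      simp only [Nat.factorial_one, Nat.cast_one, mul_one]
      calc A * M ^ (n + 1) * ‖z - c‖ ^ (2 * n + 1) / (2 * n + 1).factorial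
          ≤ A * M ^ (n + 1) * ρ ^ (2 * n + 1) / (2 * n + 1).factorial := by gcongr
        _ = A * M * M ^ n * ρ ^ (2 * n + 1) / (2 * n + 1).factorial := by ring
  have hsumv : ∀ z ∈ U, Summable fun n => v n z := by
    intro z hz
    obtain ⟨δ, hδ, -, B, hB, M, -, -, hB'⟩ := hloc z hz
    exact (summable_nat_add_iff 1).1
      (Summable.of_norm_bounded hB fun n => (hB' n z (mem_ball_self hδ)).2)
  have hsumu : ∀ z ∈ U, Summable fun n => u n z := by
    intro z hz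
    obtain ⟨δ, hδ, -, B, hB, M, -, -, hB'⟩ := hloc z hz
    exact Summable.of_norm_bounded hB fun n => (hB' n z (mem_ball_self hδ)).1
  refine ⟨fun z => ∑' n, u n z, fun z => ∑' n, v n z, fun z hz => ?_, fun z hz => ?_, ?_, ?_⟩
  · obtain ⟨δ, hδ, hsub, B, hB, M, hM0, hM, hB'⟩ := hloc z hz
    have h5 : HasDerivAt (fun z => ∑' n, u (n + 1) z) (∑' n, v (n + 1) z) z :=
      hasDerivAt_tsum_of_isPreconnected hB isOpen_ball (convex_ball z δ).isPreconnected
        (fun n w hw => h1 (n + 1) w (hsub hw)) (fun n w hw => (hB' n w hw).2)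
        (mem_ball_self hδ) ((summable_nat_add_iff 1).2 (hsumu z hz)) (mem_ball_self hδ)
    have h6 := (h1 0 z hz).add h5
    show HasDerivAt (fun z => ∑' n, u n z) (∑' n, v n z) z
    rw [(hsumv z hz).tsum_eq_zero_add]
    refine h6.congr_of_eventuallyEq ?_
    filter_upwards [hU.mem_nhds hz] with w hw
    exact (hsumu w hw).tsum_eq_zero_add
  · obtain ⟨δ, hδ, hsub, B, hB, M, hM0, hM, hB'⟩ := hloc z hz
    have h5 : HasDerivAt (fun z => ∑' n, v (n + 1) z) (∑' n, -(Q z * u n z)) z :=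
      hasDerivAt_tsum_of_isPreconnected (hB.mul_left M) isOpen_ball
        (convex_ball z δ).isPreconnected
        (fun n w hw => h2 n w (hsub hw)) (fun n w hw => by
          rw [norm_neg, norm_mul]
          exact mul_le_mul (hM w hw) (hB' n w hw).1 (norm_nonneg _) hM0) (mem_ball_self hδ)
        ((summable_nat_add_iff 1).2 (hsumv z hz)) (mem_ball_self hδ)
    have h6 : HasDerivAt (v 0) 0 z := by
      rw [hv]
      exact hasDerivAt_const z b
    have h7 := h6.add h5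
    rw [zero_add, tsum_neg, tsum_mul_left] at h7
    refine h7.congr_of_eventuallyEq ?_
    filter_upwards [hU.mem_nhds hz] with w hw
    exact (hsumv w hw).tsum_eq_zero_add
  · show ∑' n, u n c = a
    rw [(hsumu c hc).tsum_eq_zero_add, hu]
    simp [h3]
  · show ∑' n, v n c = b
    rw [(hsumv c hc).tsum_eq_zero_add, hv]
    simp [h3]

/-- uniqueness on preconnected open sets -/
theorem ode_unique' {c : ℂ} {U : Set ℂ} (hU : IsOpen U) (hUc : IsPreconnected U) (hc : c ∈ U)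
    {Q y y' : ℂ → ℂ} (hQ : DifferentiableOn ℂ Q U) (h1 : ∀ z ∈ U, HasDerivAt y (y' z) z)
    (h2 : ∀ z ∈ U, HasDerivAt y' (-(Q z * y z)) z) (h0 : y c = 0) (h0' : y' c = 0) :
    ∀ z ∈ U, y z = 0 := by
  obtain ⟨δ, hδ, hsub⟩ := Metric.isOpen_iff.1 hU c hc
  have h3 := ode_unique (hQ.continuousOn.mono hsub) (fun z hz => h1 z (hsub hz))
    (fun z hz => h2 z (hsub hz)) h0 h0'
  have h4 : AnalyticOnNhd ℂ y U := DifferentiableOn.analyticOnNhd
    (fun z hz => (h1 z hz).differentiableAt.differentiableWithinAt) hU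
  have h5 : y =ᶠ[𝓝 c] 0 := by
    filter_upwards [isOpen_ball.mem_nhds (mem_ball_self hδ)] with z hz
    exact h3 z hz
  exact h4.eqOn_zero_of_preconnected_of_eventuallyEq_zero hUc hc h5

end Pool.Agent.Lib.MP_ae5b4e_an_LL
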