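import Pool.Agent.Lib.MP_ae5b4e_an_LL.Max
import Pool.Agent.Lib.MP_ae5b4e_an_LL.Bridge
import Pool.Agent.Lib.MP_ae5b4e_an_NBT.SupA

/-!
# Library layer: radii with the disc property are log superharmonic

`P s t` is a property of a radius `s` and a parameter `t`, monotone in `s`, open in `t`, with the
disc property (Kontinuitaetssatz).  The supremum `prad` of the radii has `-log prad` subharmonic.
-/

set_option autoImplicit false

namespace Pool.Agent.Lib.MP_ae5b4e_an_LL

open Topology Filter Set Metric InnerProductSpace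
open Real (circleAverage)
open Pool.Agent.MP_ae5b4e_an_NBT (SupH supH_of_disc)

/-- the radius, cut off at `Y` -/
noncomputable def prad (P : ℝ → ℂ → Prop) (Y : ℝ) (t : ℂ) : ℝ :=
  sSup {s | 0 < s ∧ s ≤ Y ∧ P s t}

/-- properties with the disc property over `V` -/
structure DiscP (P : ℝ → ℂ → Prop) (V : Set ℂ) : Prop where
  isOpen : IsOpen V
  mono : ∀ t ∈ V, ∀ s s', P s t → s' ≤ s → P s' t
  open' : ∀ t ∈ V, ∀ s, P s t → ∀ᶠ t' in 𝓝 t, P s t'
  pos : ∀ t ∈ V, ∃ s > 0, P s t
  disc : ∀ (c : ℂ) (r : ℝ), 0 < r → closedBall c r ⊆ V → ∀ Q : ℂ → ℂ, Differentiable ℂ Q →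
    (∀ t ∈ sphere c r, ∃ s > Real.exp (Q t).re, P s t) → ∀ s < Real.exp (Q c).re, P s c

variable {P : ℝ → ℂ → Prop} {V : Set ℂ} {Y s : ℝ} {t : ℂ}

theorem prad_bddAbove : BddAbove {s | 0 < s ∧ s ≤ Y ∧ P s t} :=
  ⟨Y, fun _ hs => hs.2.1⟩

theorem le_prad (hs : 0 < s) (hsY : s ≤ Y) (h : P s t) : s ≤ prad P Y t :=
  le_csSup prad_bddAbove ⟨hs, hsY, h⟩

namespace DiscP

theorem exists_mem (hP : DiscP P V) (ht : t ∈ V) (hY : 0 < Y) :
    ∃ s, 0 < s ∧ s ≤ Y ∧ P s t := by
  obtain ⟨s, hs, h⟩ := hP.pos t ht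
  exact ⟨min s Y, lt_min hs hY, min_le_right _ _, hP.mono t ht _ _ h (min_le_left _ _)⟩

theorem prad_pos (hP : DiscP P V) (ht : t ∈ V) (hY : 0 < Y) : 0 < prad P Y t := by
  obtain ⟨s, hs, hsY, h⟩ := hP.exists_mem ht hY
  exact hs.trans_le (le_prad hs hsY h)

theorem prad_le (hP : DiscP P V) (ht : t ∈ V) (hY : 0 < Y) : prad P Y t ≤ Y := by
  obtain ⟨s, hs, hsY, h⟩ := hP.exists_mem ht hY
  exact csSup_le ⟨s, hs, hsY, h⟩ fun _ hs => hs.2.1

theorem of_lt (hP : DiscP P V) (ht : t ∈ V) (hY : 0 < Y) (h : s < prad P Y t) : P s t := by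
  obtain ⟨s₀, hs₀, hs₀Y, h₀⟩ := hP.exists_mem ht hY
  have hne : {s | 0 < s ∧ s ≤ Y ∧ P s t}.Nonempty := ⟨s₀, hs₀, hs₀Y, h₀⟩
  obtain ⟨s₁, hs₁, hlt⟩ := exists_lt_of_lt_csSup hne h
  exact hP.mono t ht _ _ hs₁.2.2 hlt.le

theorem prad_lsc (hP : DiscP P V) (ht : t ∈ V) (hY : 0 < Y) :
    LowerSemicontinuousAt (prad P Y) t := by
  intro y hy
  obtain ⟨m, hm1, hm2⟩ := exists_between (max_lt hy (hP.prad_pos ht hY))
  have hm0 : 0 < m := (le_max_right _ _).trans_lt hm1
  have hmY : m ≤ Y := hm2.le.trans (hP.prad_le ht hY)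
  filter_upwards [hP.open' t ht m (hP.of_lt ht hY hm2)] with t' ht'
  exact ((le_max_left _ _).trans_lt hm1).trans_le (le_prad hm0 hmY ht')

/-- **the radius is log superharmonic** -/
theorem subH_neg_log (hP : DiscP P V) (hY : 0 < Y) :
    SubH (fun t => -Real.log (prad P Y t)) V := by
  apply SubH.of_local
  intro t₀ ht₀
  have h0 := hP.prad_pos ht₀ hY
  set m := prad P Y t₀ / 2 with hm
  have hm0 : 0 < m := half_pos h0
  have hmlt : m < prad P Y t₀ := half_lt_self h0
  obtain ⟨ε, hε, hb⟩ := Metric.eventually_nhds_iff_ball.1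
    ((hP.prad_lsc ht₀ hY m hmlt).and (hP.isOpen.mem_nhds ht₀ : V ∈ 𝓝 t₀))
  refine ⟨ball t₀ ε, isOpen_ball.mem_nhds (mem_ball_self hε), ?_⟩
  have hpos : ∀ z ∈ ball t₀ ε, 0 < prad P Y z := fun z hz => hm0.trans (hb z hz).1
  have hkey : SupH (fun t => Real.log (prad P Y t) - Real.log m + 1) (ball t₀ ε) := by
    refine supH_of_disc isOpen_ball one_pos (fun z hz => ?_) (fun z hz => ?_) ?_
    · intro y hy
      have hy' : y < Real.log (prad P Y z) - Real.log m + 1 := hy
      have h2 : Real.exp (y + Real.log m - 1) < prad P Y z := by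
        rw [← Real.lt_log_iff_exp_lt (hpos z hz)]
        linarith
      filter_upwards [hP.prad_lsc (hb z hz).2 hY _ h2, isOpen_ball.mem_nhds hz] with w hw1 hw2
      have hw1 : Real.exp (y + Real.log m - 1) < prad P Y w := hw1
      rw [← Real.lt_log_iff_exp_lt (hpos w hw2)] at hw1
      show y < Real.log (prad P Y w) - Real.log m + 1
      linarith
    · have := Real.log_lt_log hm0 (hb z hz).1
      show (1:ℝ) ≤ Real.log (prad P Y z) - Real.log m + 1
      linarith
    · intro c s hs hcs q hq hq1 hq2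
      set Q : ℂ → ℂ := fun t => q t + (Real.log m - 1 : ℝ) with hQ
      have hQd : Differentiable ℂ Q := hq.add (differentiable_const _)
      have hQre : ∀ t, (Q t).re = (q t).re + (Real.log m - 1) := fun t => by
        simp [hQ]
      have hcV : closedBall c s ⊆ V := fun z hz => (hb z (hcs hz)).2
      have hsph : ∀ t ∈ sphere c s, Real.exp (Q t).re < prad P Y t := by
        intro t ht
        have h3 := hq2 t ht
        rw [← Real.lt_log_iff_exp_lt (hpos t (hcs (sphere_subset_closedBall ht))), hQre]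
        have h4 : (q t).re < Real.log (prad P Y t) - Real.log m + 1 := h3
        linarith
      have hYle : Real.exp (Q c).re ≤ Y := by
        have hd : DiffContOnCl ℂ (fun z => Complex.exp (Q z)) (ball c s) :=
          (hQd.cexp).diffContOnCl
        have h3 := Complex.norm_le_of_forall_mem_frontier_norm_le isBounded_ball hd
          (C := Y) (fun z hz => by
            rw [Complex.norm_exp]
            have hz' : z ∈ sphere c s := by rwa [frontier_ball c hs.ne'] at hz
            exact (hsph z hz').le.trans (hP.prad_le (hcV (sphere_subset_closedBall hz')) hY))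
          (z := c) (subset_closure (mem_ball_self hs))
        rwa [Complex.norm_exp] at h3
      have hmain : Real.exp (Q c).re ≤ prad P Y c := by
        apply le_of_forall_lt
        intro x hx
        obtain ⟨y, hy1, hy2⟩ := exists_between (max_lt hx (Real.exp_pos (Q c).re))
        have hy0 : 0 < y := (le_max_right _ _).trans_lt hy1
        refine ((le_max_left _ _).trans_lt hy1).trans_le (le_prad hy0 (hy2.le.trans hYle) ?_)
        refine hP.disc c s hs hcV Q hQd (fun t ht => ?_) y hy2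
        obtain ⟨z, hz1, hz2⟩ := exists_between (hsph t ht)
        exact ⟨z, hz1, hP.of_lt (hcV (sphere_subset_closedBall ht)) hY hz2⟩
      have hc : c ∈ ball t₀ ε := hcs (mem_closedBall_self hs.le)
      rw [← Real.le_log_iff_exp_le (hpos c hc), hQre] at hmain
      show (q c).re ≤ Real.log (prad P Y c) - Real.log m + 1
      linarith
  have h5 := (subH_neg_of_supH isOpen_ball hkey).add_const (1 - Real.log m)
  refine h5.congr isOpen_ball fun z hz => ?_
  show -(Real.log (prad P Y z) - Real.log m + 1) + (1 - Real.log m) = -Real.log (prad P Y z)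
  ring

end DiscP

end Pool.Agent.Lib.MP_ae5b4e_an_LL
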