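import Pool.Agent.Lib.MP_1f4a82_an.Plane

/-!
# Library layer: subharmonic functions in the plane, part 1

Real valued, upper semicontinuous functions `f : ℂ → ℝ` which satisfy the local sub-mean value
inequality, tested against continuous majorants on small circles.  Maximum principle, comparison
with harmonic functions, the sub-mean value inequality on all discs, local character.
-/

set_option autoImplicit false

namespace Pool.Agent.Lib.MP_ae5b4e_an_LL

open Topology Filter Set Metric InnerProductSpace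
open Real (circleAverage)

/-- `f` is subharmonic on `U` (real valued; a function that may take the value `-∞` is treated
through its truncations `max f (-N)`). -/
structure SubH (f : ℂ → ℝ) (U : Set ℂ) : Prop where
  usc : UpperSemicontinuousOn f U
  mean : ∀ c ∈ U, ∀ᶠ r in 𝓝[>] (0 : ℝ), ∀ g : ℂ → ℝ, ContinuousOn g (sphere c r) →
    (∀ z ∈ sphere c r, f z ≤ g z) → f c ≤ circleAverage g c r

/-- small closed discs around an interior point -/
theorem eventually_closedBall_subset {U : Set ℂ} {c : ℂ} (h : U ∈ 𝓝 c) :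
    ∀ᶠ r in 𝓝[>] (0 : ℝ), 0 < r ∧ closedBall c r ⊆ U := by
  obtain ⟨R, hR, hball⟩ := Metric.nhds_basis_closedBall.mem_iff.mp h
  filter_upwards [Ioo_mem_nhdsGT hR] with r hr
  exact ⟨hr.1, (closedBall_subset_closedBall hr.2.le).trans hball⟩

theorem eq_of_le_circleAverage {g : ℂ → ℝ} {c : ℂ} {r M : ℝ}
    (hg : ContinuousOn g (Metric.sphere c r)) (hr : 0 < r) (hle : ∀ z ∈ Metric.sphere c r, g z ≤ M)
    (hM : M ≤ Real.circleAverage g c r) : ∀ z ∈ Metric.sphere c r, g z = M := by
  intro z hz
  by_contra hne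
  have hlt : g z < M := lt_of_le_of_ne (hle z hz) hne
  have hmem : ∀ θ : ℝ, circleMap c r θ ∈ Metric.sphere c r := fun θ =>
    circleMap_mem_sphere c hr.le θ
  have hcont : ContinuousOn (fun θ : ℝ => g (circleMap c r θ)) (Icc 0 (2 * Real.pi)) :=
    hg.comp (continuous_circleMap c r).continuousOn (fun θ _ => hmem θ)
  obtain ⟨θ, hθ, hθz⟩ : ∃ θ ∈ Icc (0 : ℝ) (2 * Real.pi), circleMap c r θ = z := by
    have h1 : z ∈ circleMap c r '' Ioc 0 (2 * Real.pi) := by
      rw [image_circleMap_Ioc, abs_of_pos hr]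
      exact hz
    obtain ⟨θ, hθ, rfl⟩ := h1
    exact ⟨θ, Ioc_subset_Icc_self hθ, rfl⟩
  have h2 := intervalIntegral.integral_lt_integral_of_continuousOn_of_le_of_exists_lt
    (a := 0) (b := 2 * Real.pi) (f := fun θ : ℝ => g (circleMap c r θ)) (g := fun _ => M)
    Real.two_pi_pos hcont continuousOn_const (fun θ _ => hle _ (hmem θ))
    ⟨θ, hθ, by simp only [hθz]; exact hlt⟩
  rw [Real.circleAverage_def, smul_eq_mul] at hM
  rw [intervalIntegral.integral_const, smul_eq_mul, sub_zero] at h2
  have h3 : (2 * Real.pi)⁻¹ * ∫ θ in (0 : ℝ)..2 * Real.pi, g (circleMap c r θ) < M := by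
    rw [inv_mul_lt_iff₀ Real.two_pi_pos]
    exact h2
  linarith

/-- An upper semicontinuous function below `M` on a circle, strictly at one point, has a continuous
majorant with the same properties. -/
theorem exists_bump {f : ℂ → ℝ} {c : ℂ} {r M : ℝ} (hf : UpperSemicontinuousOn f (sphere c r))
    (hM : ∀ z ∈ sphere c r, f z ≤ M) {z : ℂ} (hz : z ∈ sphere c r) (hlt : f z < M) :
    ∃ g : ℂ → ℝ, Continuous g ∧ (∀ w ∈ sphere c r, f w ≤ g w) ∧ (∀ w, g w ≤ M) ∧ g z < M := by
  obtain ⟨m, hm1, hm2⟩ := exists_between hlt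
  have h1 := hf z hz m hm1
  rw [eventually_nhdsWithin_iff, Metric.eventually_nhds_iff] at h1
  obtain ⟨δ, hδ, h1⟩ := h1
  refine ⟨fun w => M - (M - m) * max 0 (1 - dist w z / δ), by fun_prop, ?_, ?_, ?_⟩
  · intro w hw
    by_cases hd : dist w z < δ
    · have h2 : max 0 (1 - dist w z / δ) ≤ 1 := by
        apply max_le zero_le_one
        have : 0 ≤ dist w z / δ := by positivity
        linarith
      have h3 : (M - m) * max 0 (1 - dist w z / δ) ≤ (M - m) * 1 :=
        mul_le_mul_of_nonneg_left h2 (by linarith)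
      have := h1 hd hw
      linarith
    · have h2 : max 0 (1 - dist w z / δ) = 0 := by
        apply max_eq_left
        have : 1 ≤ dist w z / δ := by
          rw [le_div_iff₀ hδ]; push Not at hd; linarith
        linarith
      beta_reduce
      rw [h2]
      have := hM w hw
      linarith
  · intro w
    have h2 : 0 ≤ (M - m) * max 0 (1 - dist w z / δ) :=
      mul_nonneg (by linarith) (le_max_left _ _)
    linarith
  · simp only [dist_self, zero_div, sub_zero]
    rw [max_eq_right zero_le_one]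
    linarith

namespace SubH

variable {f : ℂ → ℝ} {U V : Set ℂ}

theorem mono (hf : SubH f U) (h : V ⊆ U) : SubH f V :=
  ⟨hf.usc.mono h, fun c hc => hf.mean c (h hc)⟩

/-- near a local maximum a subharmonic function is constant -/
theorem eventually_eq_of_isLocalMax (hf : SubH f U) (hU : IsOpen U) {c : ℂ} (hc : c ∈ U)
    (hmax : ∀ᶠ z in 𝓝 c, f z ≤ f c) : ∀ᶠ z in 𝓝 c, f z = f c := by
  have h1 := (hf.mean c hc).and (eventually_closedBall_subset (inter_mem (hU.mem_nhds hc) hmax))
  rw [eventually_nhdsWithin_iff, Metric.eventually_nhds_iff] at h1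
  obtain ⟨R, hR, h1⟩ := h1
  rw [Metric.eventually_nhds_iff]
  refine ⟨R, hR, fun z hz => ?_⟩
  by_cases hzc : z = c
  · rw [hzc]
  have hpos : 0 < dist z c := dist_pos.2 hzc
  obtain ⟨h2, h3, h4⟩ := h1 (y := dist z c) (by rw [Real.dist_eq, sub_zero, abs_of_pos hpos]; exact hz)
    hpos
  by_contra hne
  have hzs : z ∈ sphere c (dist z c) := rfl
  have hle : ∀ w ∈ sphere c (dist z c), f w ≤ f c := fun w hw =>
    (h4 (sphere_subset_closedBall hw)).2
  obtain ⟨g, hg1, hg2, hg3, hg4⟩ := exists_bump (f := f) (c := c) (r := dist z c) (M := f c)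
    (hf.usc.mono (fun w hw => (h4 (sphere_subset_closedBall hw)).1)) hle hzs
    (lt_of_le_of_ne (hle z hzs) hne)
  have h5 := h2 g hg1.continuousOn hg2
  have h6 := eq_of_le_circleAverage hg1.continuousOn h3 (fun w _ => hg3 w) h5 z hzs
  linarith

/-- **Maximum principle** on a bounded open set. -/
theorem le_of_frontier (hV : IsOpen V) (hb : Bornology.IsBounded V) (hf : SubH f V) {M : ℝ}
    (hfr : ∀ ζ ∈ frontier V, ∀ ε > 0, ∀ᶠ z in 𝓝[V] ζ, f z ≤ M + ε) : ∀ z ∈ V, f z ≤ M := by
  intro z₀ hz₀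
  by_contra hcon
  push Not at hcon
  -- super level sets above `M` are compact
  have key : ∀ m, M < m → IsCompact {z | z ∈ V ∧ m ≤ f z} := by
    intro m hm
    apply Metric.isCompact_of_isClosed_isBounded _ (hb.subset fun z hz => hz.1)
    rw [← isSeqClosed_iff_isClosed]
    intro x ζ hx hlim
    have hcl : ζ ∈ closure V := mem_closure_of_tendsto hlim (Eventually.of_forall fun n => (hx n).1)
    have hlim' : Tendsto x atTop (𝓝[V] ζ) :=
      tendsto_nhdsWithin_iff.2 ⟨hlim, Eventually.of_forall fun n => (hx n).1⟩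
    by_cases hζ : ζ ∈ V
    · refine ⟨hζ, ?_⟩
      by_contra hlt
      push Not at hlt
      obtain ⟨n, hn⟩ := (hlim'.eventually (hf.usc ζ hζ m hlt)).exists
      exact absurd (hx n).2 (not_le.2 hn)
    · exfalso
      have hfrm : ζ ∈ frontier V := ⟨hcl, by rwa [hV.interior_eq]⟩
      obtain ⟨n, hn⟩ := (hlim'.eventually (hfr ζ hfrm ((m - M) / 2) (by linarith))).exists
      have := (hx n).2
      linarith
  obtain ⟨m, hm1, hm2⟩ := exists_between hcon
  obtain ⟨z₁, hz₁, hmax⟩ := UpperSemicontinuousOn.exists_isMaxOn (f := f)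
    (s := {z | z ∈ V ∧ m ≤ f z}) ⟨z₀, hz₀, hm2.le⟩ (key m hm1) (hf.usc.mono fun z hz => hz.1)
  have hmax' : ∀ z ∈ V, f z ≤ f z₁ := by
    intro z hz
    by_cases h : m ≤ f z
    · exact hmax ⟨hz, h⟩
    · push Not at h
      exact h.le.trans hz₁.2
  have hMz : M < f z₁ := lt_of_lt_of_le hm1 hz₁.2
  obtain ⟨z₂, hz₂, hre⟩ := (key (f z₁) hMz).exists_isMaxOn ⟨z₁, hz₁.1, le_rfl⟩
    (f := fun x : ℂ => x.re) Complex.continuous_re.continuousOn
  have hz₂eq : f z₂ = f z₁ := le_antisymm (hmax' z₂ hz₂.1) hz₂.2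
  have h1 := hf.eventually_eq_of_isLocalMax hV hz₂.1 (by
    filter_upwards [hV.mem_nhds hz₂.1] with z hz
    rw [hz₂eq]; exact hmax' z hz)
  have h2 := h1.and (hV.mem_nhds hz₂.1)
  rw [Metric.eventually_nhds_iff] at h2
  obtain ⟨R, hR, h2⟩ := h2
  have h3 := h2 (y := z₂ + ((R / 2 : ℝ) : ℂ)) (by
    rw [dist_eq_norm, add_sub_cancel_left, Complex.norm_real, Real.norm_eq_abs,
      abs_of_pos (by linarith)]
    linarith)
  have h4 : z₂ + ((R / 2 : ℝ) : ℂ) ∈ {z | z ∈ V ∧ f z₁ ≤ f z} :=
    ⟨h3.2, by rw [h3.1, hz₂eq]⟩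
  have h5 := hre h4
  simp only [Complex.add_re, Complex.ofReal_re, mem_ofPred_eq] at h5
  linarith

/-- addition of a harmonic function -/
theorem add_harmonic (hf : SubH f U) (hU : IsOpen U) {h : ℂ → ℝ} (hh : HarmonicOnNhd h U) :
    SubH (fun z => f z + h z) U := by
  refine ⟨?_, fun c hc => ?_⟩
  · intro z hz y hy
    have h1 : f z < y - h z - (y - h z - f z) / 2 := by linarith
    have h2 := hf.usc z hz _ h1
    have h3 : ContinuousWithinAt h U z := (hh.continuousOn) z hz
    have h4 : ∀ᶠ w in 𝓝[U] z, h w < h z + (y - h z - f z) / 2 :=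
      h3 (Iio_mem_nhds (by linarith))
    filter_upwards [h2, h4] with w hw1 hw2
    linarith
  · filter_upwards [hf.mean c hc, eventually_closedBall_subset (hU.mem_nhds hc)] with r h1 h2 g hg1
      hg2
    have h3 : ContinuousOn h (sphere c r) :=
      hh.continuousOn.mono (sphere_subset_closedBall.trans h2.2)
    have h4 := h1 (fun z => g z - h z) (hg1.sub h3) (fun z hz => by
      have := hg2 z hz
      linarith)
    have h5 : circleAverage h c r = h c := by
      apply InnerProductSpace.HarmonicOnNhd.circleAverage_eq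
      rw [abs_of_pos h2.1]
      exact hh.mono h2.2
    rw [Real.circleAverage_fun_sub (hg1.circleIntegrable h2.1.le) (h3.circleIntegrable h2.1.le),
      h5] at h4
    linarith

theorem of_harmonic (hU : IsOpen U) {h : ℂ → ℝ} (hh : HarmonicOnNhd h U) : SubH h U := by
  refine ⟨fun z hz => (hh.continuousOn z hz).upperSemicontinuousWithinAt, fun c hc => ?_⟩
  filter_upwards [eventually_closedBall_subset (hU.mem_nhds hc)] with r h2 g hg1 hg2
  have h3 : ContinuousOn h (sphere c r) :=
      hh.continuousOn.mono (sphere_subset_closedBall.trans h2.2)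
  have h5 : circleAverage h c r = h c := by
    apply InnerProductSpace.HarmonicOnNhd.circleAverage_eq
    rw [abs_of_pos h2.1]
    exact hh.mono h2.2
  rw [← h5]
  apply Real.circleAverage_mono (h3.circleIntegrable h2.1.le) (hg1.circleIntegrable h2.1.le)
  intro z hz
  rw [abs_of_pos h2.1] at hz
  exact hg2 z hz

theorem sub_harmonic (hf : SubH f U) (hU : IsOpen U) {h : ℂ → ℝ} (hh : HarmonicOnNhd h U) :
    SubH (fun z => f z - h z) U := by
  have := hf.add_harmonic hU (h := -h) hh.neg
  simpa [sub_eq_add_neg] using this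

/-- **Comparison principle** -/
theorem le_harmonic (hV : IsOpen V) (hb : Bornology.IsBounded V) (hf : SubH f V) {u : ℂ → ℝ}
    (hu : HarmonicOnNhd u V)
    (hfr : ∀ ζ ∈ frontier V, ∀ ε > 0, ∀ᶠ z in 𝓝[V] ζ, f z ≤ u z + ε) : ∀ z ∈ V, f z ≤ u z := by
  intro z hz
  have := (hf.sub_harmonic hV hu).le_of_frontier hV hb (M := 0) (fun ζ hζ ε hε => by
    filter_upwards [hfr ζ hζ ε hε] with z hz
    linarith) z hz
  linarith

/-- comparison on a compact set -/
theorem le_harmonic_of_compact {K : Set ℂ} (hK : IsCompact K) (hV : IsOpen V) (hVK : V ⊆ K)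
    (hf : SubH f V) (hfK : UpperSemicontinuousOn f K) {u : ℂ → ℝ} (hu : HarmonicOnNhd u V)
    (huK : ContinuousOn u K) (h : ∀ z ∈ K, z ∉ V → f z ≤ u z) : ∀ z ∈ K, f z ≤ u z := by
  have h1 : ∀ z ∈ V, f z ≤ u z := by
    apply hf.le_harmonic hV (hK.isBounded.subset hVK) hu
    intro ζ hζ ε hε
    have hζK : ζ ∈ K := closure_minimal hVK hK.isClosed hζ.1
    have hζV : ζ ∉ V := by
      have := hζ.2
      rwa [hV.interior_eq] at this
    have h2 : f ζ < u ζ + ε / 2 := by
      have := h ζ hζK hζV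
      linarith
    have h3 := hfK ζ hζK _ h2
    have h4 : ∀ᶠ z in 𝓝[K] ζ, u ζ - ε / 2 < u z := huK ζ hζK (Ioi_mem_nhds (by linarith))
    filter_upwards [h3.filter_mono (nhdsWithin_mono ζ hVK), h4.filter_mono (nhdsWithin_mono ζ hVK)]
      with z hz1 hz2
    linarith
  intro z hz
  by_cases hzV : z ∈ V
  · exact h1 z hzV
  · exact h z hz hzV

/-- The Poisson majorant: `u` solves the Dirichlet problem with data above `f`. -/
theorem le_dirichlet {c : ℂ} {r : ℝ} (hf : SubH f (ball c r))
    (hfc : UpperSemicontinuousOn f (closedBall c r)) {u : ℂ → ℝ}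
    (huc : ContinuousOn u (closedBall c r)) (hu : HarmonicOnNhd u (ball c r))
    (h : ∀ z ∈ sphere c r, f z ≤ u z) : ∀ z ∈ closedBall c r, f z ≤ u z := by
  apply hf.le_harmonic_of_compact (isCompact_closedBall c r) isOpen_ball ball_subset_closedBall hfc
    hu huc
  intro z hz hz2
  apply h z
  rw [mem_closedBall] at hz
  rw [mem_ball, not_lt] at hz2
  exact le_antisymm hz hz2

/-- The sub-mean value inequality on every closed disc in `U`. -/
theorem le_circleAverage {c : ℂ} {r : ℝ} (hr : 0 < r) (hf : SubH f (ball c r))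
    (hfc : UpperSemicontinuousOn f (closedBall c r)) {g : ℂ → ℝ} (hg : ContinuousOn g (sphere c r))
    (h : ∀ z ∈ sphere c r, f z ≤ g z) : f c ≤ circleAverage g c r := by
  obtain ⟨u, hu1, hu2, hu3⟩ := MP_1f4a82_an.exists_dirichlet hr hg
  have h1 := hf.le_dirichlet hfc hu1 hu2 (fun z hz => by rw [hu3 z hz]; exact h z hz) c
    (mem_closedBall_self hr.le)
  have h2 : circleAverage u c r = u c := by
    have : HarmonicContOnCl u (ball c |r|) := by
      rw [abs_of_pos hr]
      exact HarmonicContOnCl.mk_ball hu2 hu1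
    exact this.circleAverage_eq
  have h3 : circleAverage u c r = circleAverage g c r := by
    apply Real.circleAverage_congr_sphere
    rw [abs_of_pos hr]
    exact fun z hz => hu3 z hz
  rw [← h3, h2]
  exact h1

/-- being subharmonic is local -/
theorem of_local (h : ∀ p ∈ U, ∃ W ∈ 𝓝 p, SubH f W) : SubH f U := by
  refine ⟨fun p hp => ?_, fun p hp => ?_⟩
  · obtain ⟨W, hW, hfW⟩ := h p hp
    intro y hy
    have h1 := hfW.usc p (mem_of_mem_nhds hW) y hy
    rw [nhdsWithin_eq_nhds.2 hW] at h1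
    exact h1.filter_mono nhdsWithin_le_nhds
  · obtain ⟨W, hW, hfW⟩ := h p hp
    exact hfW.mean p (mem_of_mem_nhds hW)

theorem congr (hf : SubH f U) (hU : IsOpen U) {g : ℂ → ℝ} (h : EqOn f g U) : SubH g U := by
  refine ⟨fun p hp y hy => ?_, fun p hp => ?_⟩
  · beta_reduce at hy ⊢
    rw [← h hp] at hy
    filter_upwards [hf.usc p hp y hy, self_mem_nhdsWithin] with z hz1 hz2
    rw [← h hz2]; exact hz1
  · filter_upwards [hf.mean p hp, eventually_closedBall_subset (hU.mem_nhds hp)] with r h1 h2 k hk1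
      hk2
    rw [← h hp]
    exact h1 k hk1 fun z hz => by
      rw [h (h2.2 (sphere_subset_closedBall hz))]
      exact hk2 z hz

theorem max {g : ℂ → ℝ} (hf : SubH f U) (hg : SubH g U) : SubH (fun z => max (f z) (g z)) U := by
  refine ⟨hf.usc.sup hg.usc, fun c hc => ?_⟩
  filter_upwards [hf.mean c hc, hg.mean c hc] with r h1 h2 k hk1 hk2
  exact max_le (h1 k hk1 fun z hz => (le_max_left _ _).trans (hk2 z hz))
    (h2 k hk1 fun z hz => (le_max_right _ _).trans (hk2 z hz))

theorem const (a : ℝ) (U : Set ℂ) : SubH (fun _ => a) U :=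
  (of_harmonic isOpen_univ (U := univ) (h := fun _ => a) (fun _ _ => by simp)).mono
    (subset_univ U)

theorem add_const (hf : SubH f U) (a : ℝ) : SubH (fun z => f z + a) U := by
  refine ⟨?_, fun c hc => ?_⟩
  · intro z hz y hy
    have h1 : f z < y - a := by linarith
    filter_upwards [hf.usc z hz _ h1] with w hw
    linarith
  · filter_upwards [hf.mean c hc, self_mem_nhdsWithin] with r h1 hr g hg1 hg2
    have h4 := h1 (fun z => g z - a) (hg1.sub continuousOn_const) (fun z hz => by
      have := hg2 z hz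
      linarith)
    rw [Real.circleAverage_fun_sub (hg1.circleIntegrable (le_of_lt hr))
      (continuousOn_const.circleIntegrable (le_of_lt hr)), Real.circleAverage_const] at h4
    linarith

theorem const_mul (hf : SubH f U) {a : ℝ} (ha : 0 ≤ a) : SubH (fun z => a * f z) U := by
  rcases ha.eq_or_lt with rfl | ha
  · simpa using SubH.const 0 U
  refine ⟨?_, fun c hc => ?_⟩
  · intro z hz y hy
    have h1 : f z < y / a := by rw [lt_div_iff₀ ha]; linarith
    filter_upwards [hf.usc z hz _ h1] with w hw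
    rw [lt_div_iff₀ ha] at hw
    linarith
  · filter_upwards [hf.mean c hc] with r h1 g hg1 hg2
    have h4 := h1 (fun z => a⁻¹ * g z) (continuousOn_const.mul hg1) (fun z hz => by
      have := hg2 z hz
      rw [le_inv_mul_iff₀ ha]
      exact this)
    have h5 : circleAverage (fun z => a⁻¹ * g z) c r = a⁻¹ * circleAverage g c r := by
      have := Real.circleAverage_fun_smul (a := a⁻¹) (f := g) (c := c) (R := r)
      simpa [smul_eq_mul] using this
    rw [h5, le_inv_mul_iff₀ ha] at h4
    exact h4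

end SubH

end Pool.Agent.Lib.MP_ae5b4e_an_LL
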