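import Pool.Agent.Lib.MP_ae5b4e_an_LL.Max

/-!
# Library layer: subharmonic functions in the plane, part 6: two constants

Majorant principles with exceptional points; half plane, half disc, annulus, strip.
-/

set_option autoImplicit false

namespace Pool.Agent.Lib.MP_ae5b4e_an_LL

open Topology Filter Set Metric InnerProductSpace
open Real (circleAverage)

namespace SubH

variable {f g u : ℂ → ℝ} {U V : Set ℂ}

/-- Majorant principle, bounded open set, finitely many exceptional boundary points. -/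
theorem le_harmonic_diff (hV : IsOpen V) (hb : Bornology.IsBounded V) (hf : SubH f V)
    (hu : HarmonicOnNhd u V) {B : ℝ} (hB : ∀ z ∈ V, f z - u z ≤ B) {E : Set ℂ} (hE : E.Finite)
    (hfr : ∀ ζ ∈ frontier V, ζ ∉ E → ∀ ε > 0, ∀ᶠ z in 𝓝[V] ζ, f z ≤ u z + ε) :
    ∀ z ∈ V, f z ≤ u z := by
  intro z hz
  have := (hf.sub_harmonic hV hu).le_of_frontier_diff hV hb (B := B) hB hE (M := 0)
    (fun ζ hζ hζE ε hε => by
      filter_upwards [hfr ζ hζ hζE ε hε] with z hz
      linarith) z hz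
  linarith

/-- Majorant principle, open set whose complement contains a disc. -/
theorem le_harmonic_unbounded (hV : IsOpen V) (hf : SubH f V)
    (hu : HarmonicOnNhd u V) {B : ℝ} (hB : ∀ z ∈ V, f z - u z ≤ B) {a : ℂ} {δ : ℝ} (hδ : 0 < δ)
    (ha : ∀ z ∈ V, δ ≤ ‖z - a‖) {E : Set ℂ} (hE : E.Finite)
    (hfr : ∀ ζ ∈ frontier V, ζ ∉ E → ∀ ε > 0, ∀ᶠ z in 𝓝[V] ζ, f z ≤ u z + ε) :
    ∀ z ∈ V, f z ≤ u z := by
  intro z hz
  have := (hf.sub_harmonic hV hu).le_of_frontier_unbounded hV (B := B) hB hδ ha hE (M := 0)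
    (fun ζ hζ hζE ε hε => by
      filter_upwards [hfr ζ hζ hζE ε hε] with z hz
      linarith) z hz
  linarith

/-- the upper half plane -/
theorem le_of_halfPlane (hf : SubH f {z : ℂ | 0 < z.im}) {B M : ℝ}
    (hB : ∀ z : ℂ, 0 < z.im → f z ≤ B) {E : Set ℂ} (hE : E.Finite)
    (hfr : ∀ ζ : ℂ, ζ.im = 0 → ζ ∉ E → ∀ ε > 0, ∀ᶠ z in 𝓝[{z : ℂ | 0 < z.im}] ζ, f z ≤ M + ε) :
    ∀ z : ℂ, 0 < z.im → f z ≤ M := by
  have hV : IsOpen {z : ℂ | 0 < z.im} := isOpen_lt continuous_const Complex.continuous_im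
  apply hf.le_of_frontier_unbounded hV hB (a := -Complex.I) (δ := 1) one_pos (fun z hz => ?_) hE
    (fun ζ hζ => hfr ζ ?_)
  · have h1 : |(z - -Complex.I).im| ≤ ‖z - -Complex.I‖ := Complex.abs_im_le_norm _
    have h2 : (z - -Complex.I).im = z.im + 1 := by simp
    rw [h2] at h1
    have h3 : z.im + 1 ≤ |z.im + 1| := le_abs_self _
    have h4 : 0 < z.im := hz
    linarith
  · have h1 : frontier {z : ℂ | 0 < z.im} = {z : ℂ | z.im = 0} := Complex.frontier_setOfPred_lt_im 0
    rw [h1] at hζ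
    exact hζ

/-- **Annulus** (Hadamard three circles) -/
theorem le_annulus {c : ℂ} {r₁ r₂ M₁ M₂ : ℝ} (h1 : 0 < r₁) (h12 : r₁ < r₂)
    (hf : UpperSemicontinuousOn f (closedBall c r₂ \ ball c r₁))
    (hs : SubH f (ball c r₂ \ closedBall c r₁)) (hM₁ : ∀ z ∈ sphere c r₁, f z ≤ M₁)
    (hM₂ : ∀ z ∈ sphere c r₂, f z ≤ M₂) {z : ℂ} (hz1 : r₁ ≤ dist z c) (hz2 : dist z c ≤ r₂) :
    f z ≤ M₁ + (M₂ - M₁) * (Real.log (dist z c / r₁) / Real.log (r₂ / r₁)) := by
  have hlog : 0 < Real.log (r₂ / r₁) := Real.log_pos (by rw [lt_div_iff₀ h1]; linarith)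
  set V : Set ℂ := ball c r₂ \ closedBall c r₁ with hV
  have hVo : IsOpen V := isOpen_ball.sdiff isClosed_closedBall
  set u : ℂ → ℝ := fun z => M₁ + (M₂ - M₁) * ((Real.log ‖z - c‖ - Real.log r₁) /
    Real.log (r₂ / r₁)) with hu
  have hcV : c ∉ V := fun h => h.2 (mem_closedBall_self h1.le)
  have huh : HarmonicOnNhd u V := by
    have e : u = (fun _ => M₁ - (M₂ - M₁) * (Real.log r₁ / Real.log (r₂ / r₁))) +
        ((M₂ - M₁) / Real.log (r₂ / r₁)) • (fun z => Real.log ‖z - c‖) := by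
      funext z
      simp only [hu, Pi.add_apply, Pi.smul_apply, smul_eq_mul]
      ring
    rw [e]
    exact (harmonicOnNhd_const _).add ((harmonicOnNhd_log_norm_sub hcV).const_smul)
  have hK : IsCompact (closedBall c r₂ \ ball c r₁) := (isCompact_closedBall c r₂).diff isOpen_ball
  have hne : ∀ z ∈ closedBall c r₂ \ ball c r₁, ‖z - c‖ ≠ 0 := by
    intro z hz h
    apply hz.2
    rw [mem_ball, dist_eq_norm, h]
    exact h1
  have huc : ContinuousOn u (closedBall c r₂ \ ball c r₁) := by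
    apply ContinuousOn.add continuousOn_const
    apply ContinuousOn.mul continuousOn_const
    apply ContinuousOn.div_const
    apply ContinuousOn.sub _ continuousOn_const
    exact ContinuousOn.log (by fun_prop) hne
  have key := hs.le_harmonic_of_compact hK hVo
    (fun z hz => ⟨ball_subset_closedBall hz.1, fun h => hz.2 (ball_subset_closedBall h)⟩) hf huh huc
    (fun z hz hzV => by
      by_cases h2 : dist z c = r₂
      · have h3 : u z = M₂ := by
          simp only [hu]
          rw [← dist_eq_norm, h2, ← Real.log_div (by linarith) h1.ne', div_self hlog.ne']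
          ring
        rw [h3]
        exact hM₂ z h2
      · have h3 : dist z c = r₁ := by
          have h4 : dist z c < r₂ := lt_of_le_of_ne hz.1 h2
          have h5 : z ∈ closedBall c r₁ := by
            by_contra h6
            exact hzV ⟨h4, h6⟩
          have h6 : ¬ dist z c < r₁ := hz.2
          exact le_antisymm h5 (not_lt.1 h6)
        have h4 : u z = M₁ := by
          simp only [hu]
          rw [← dist_eq_norm, h3, sub_self]
          ring
        rw [h4]
        exact hM₁ z h3) z ⟨hz2, not_lt.2 hz1⟩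
  have h3 : u z = M₁ + (M₂ - M₁) * (Real.log (dist z c / r₁) / Real.log (r₂ / r₁)) := by
    have h4 : Real.log (dist z c / r₁) = Real.log (dist z c) - Real.log r₁ :=
      Real.log_div (by linarith) h1.ne'
    simp only [hu]
    rw [← dist_eq_norm, h4]
  rw [← h3]
  exact key

/-- **Three lines** -/
theorem three_lines {a b M₁ M₂ B : ℝ} (hab : a < b)
    (hf : UpperSemicontinuousOn f {z : ℂ | a ≤ z.im ∧ z.im ≤ b})
    (hs : SubH f {z : ℂ | a < z.im ∧ z.im < b}) (hB : ∀ z : ℂ, a < z.im → z.im < b → f z ≤ B)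
    (hM₁ : ∀ z : ℂ, z.im = a → f z ≤ M₁) (hM₂ : ∀ z : ℂ, z.im = b → f z ≤ M₂) {z : ℂ}
    (hz1 : a ≤ z.im) (hz2 : z.im ≤ b) :
    f z ≤ M₁ + (M₂ - M₁) * ((z.im - a) / (b - a)) := by
  have hba : 0 < b - a := by linarith
  rcases hz1.eq_or_lt with h1 | h1
  · rw [← h1, sub_self, zero_div, mul_zero, add_zero]
    exact hM₁ z h1.symm
  rcases hz2.eq_or_lt with h2 | h2
  · rw [h2, div_self hba.ne', mul_one]
    have := hM₂ z h2
    linarith
  set V : Set ℂ := {z : ℂ | a < z.im ∧ z.im < b} with hV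
  have hVo : IsOpen V := (isOpen_lt continuous_const Complex.continuous_im).inter
    (isOpen_lt Complex.continuous_im continuous_const)
  set u : ℂ → ℝ := fun z => M₁ + (M₂ - M₁) * ((z.im - a) / (b - a)) with hu
  have huc : Continuous u := by
    have := Complex.continuous_im
    fun_prop
  have huh : HarmonicOnNhd u V := by
    have e : u = (fun _ => M₁ - (M₂ - M₁) * (a / (b - a))) +
        ((M₂ - M₁) / (b - a)) • (fun z => z.im) := by
      funext z
      simp only [hu, Pi.add_apply, Pi.smul_apply, smul_eq_mul]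
      ring
    rw [e]
    exact (harmonicOnNhd_const _).add (HarmonicOnNhd.const_smul fun z _ =>
      AnalyticAt.harmonicAt_im analyticAt_id)
  have hclV : closure V ⊆ {z : ℂ | a ≤ z.im ∧ z.im ≤ b} := by
    apply closure_minimal
    · exact fun z hz => ⟨hz.1.le, hz.2.le⟩
    · exact (isClosed_le continuous_const Complex.continuous_im).inter
        (isClosed_le Complex.continuous_im continuous_const)
  apply hs.le_harmonic_unbounded hVo huh (B := B + |M₁| + |M₂ - M₁|) (a := ⟨0, a - 1⟩) (δ := 1)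
    (fun z hz => ?_) one_pos (fun z hz => ?_) finite_empty (fun ζ hζ _ ε hε => ?_) z ⟨h1, h2⟩
  · have h3 : |(z.im - a) / (b - a)| ≤ 1 := by
      rw [abs_div, abs_of_pos hba, div_le_one hba, abs_of_nonneg (by linarith [hz.1])]
      linarith [hz.2]
    have h4 : |(M₂ - M₁) * ((z.im - a) / (b - a))| ≤ |M₂ - M₁| := by
      rw [abs_mul]
      exact mul_le_of_le_one_right (abs_nonneg _) h3
    have h5 := neg_abs_le ((M₂ - M₁) * ((z.im - a) / (b - a)))
    have h6 := neg_abs_le M₁
    have h7 := hB z hz.1 hz.2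
    simp only [hu]
    linarith
  · have h3 : |(z - ⟨0, a - 1⟩ : ℂ).im| ≤ ‖z - ⟨0, a - 1⟩‖ := Complex.abs_im_le_norm _
    have h4 : (z - ⟨0, a - 1⟩ : ℂ).im = z.im - (a - 1) := by simp
    rw [h4] at h3
    have h5 : z.im - (a - 1) ≤ |z.im - (a - 1)| := le_abs_self _
    have h6 : a < z.im := hz.1
    linarith
  · have hζcl := hclV hζ.1
    have hfu : f ζ ≤ u ζ := by
      have hζV : ζ ∉ V := by
        have := hζ.2
        rwa [hVo.interior_eq] at this
      rcases hζcl.1.eq_or_lt with h3 | h3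
      · simp only [hu]
        rw [← h3, sub_self, zero_div, mul_zero, add_zero]
        exact hM₁ ζ h3.symm
      · have h4 : ζ.im = b := le_antisymm hζcl.2 (not_lt.1 fun h => hζV ⟨h3, h⟩)
        simp only [hu]
        rw [h4, div_self hba.ne', mul_one]
        have := hM₂ ζ h4
        linarith
    have h3 := (hf ζ hζcl (u ζ + ε / 2) (by
      show f ζ < u ζ + ε / 2
      linarith)).filter_mono (nhdsWithin_mono ζ (subset_closure.trans hclV))
    have h4 : ∀ᶠ z in 𝓝[V] ζ, u ζ - ε / 2 < u z :=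
      Filter.Eventually.filter_mono nhdsWithin_le_nhds
        (huc.continuousAt (Ioi_mem_nhds (by linarith)))
    filter_upwards [h3, h4] with z hz1 hz2
    have : f z < u ζ + ε / 2 := hz1
    linarith

/-- three lines for functions with real period -/
theorem three_lines_periodic {a b M₁ M₂ : ℝ} (hab : a < b)
    (hf : UpperSemicontinuousOn f {z : ℂ | a ≤ z.im ∧ z.im ≤ b})
    (hs : SubH f {z : ℂ | a < z.im ∧ z.im < b}) {p : ℝ} (hp : 0 < p)
    (hper : ∀ z : ℂ, f (z + p) = f z)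
    (hM₁ : ∀ z : ℂ, z.im = a → f z ≤ M₁) (hM₂ : ∀ z : ℂ, z.im = b → f z ≤ M₂) {z : ℂ}
    (hz1 : a ≤ z.im) (hz2 : z.im ≤ b) :
    f z ≤ M₁ + (M₂ - M₁) * ((z.im - a) / (b - a)) := by
  set K : Set ℂ := {z : ℂ | z.re ∈ Icc 0 p ∧ z.im ∈ Icc a b} with hK
  have hKc : IsCompact K := by
    have h1 : K = Icc 0 p ×ℂ Icc a b := rfl
    rw [h1]
    exact isCompact_Icc.reProdIm isCompact_Icc
  have hKne : K.Nonempty := ⟨⟨0, a⟩, ⟨le_rfl, hp.le⟩, ⟨le_rfl, hab.le⟩⟩
  obtain ⟨z₀, hz₀, hmax⟩ := (hf.mono (fun z (hz : z ∈ K) => hz.2)).exists_isMaxOn hKne hKc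
  have hperZ : ∀ (n : ℤ) (z : ℂ), f (z + n * p) = f z := by
    have hnat : ∀ (n : ℕ) (z : ℂ), f (z + n * p) = f z := by
      intro n
      induction n with
      | zero => intro z; simp
      | succ n ih =>
        intro z
        have := hper (z + n * p)
        rw [ih] at this
        rw [← this]
        congr 1
        push_cast
        ring
    intro n z
    obtain ⟨m, rfl | rfl⟩ := n.eq_nat_or_neg
    · exact_mod_cast hnat m z
    · have := hnat m (z + ((-m : ℤ) : ℂ) * p)
      rw [← this]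
      congr 1
      push_cast
      ring
  apply three_lines hab hf hs (B := f z₀) (fun z h1 h2 => ?_) hM₁ hM₂ hz1 hz2
  have h3 := hperZ (-⌊z.re / p⌋) z
  rw [← h3]
  apply hmax
  have e1 : (z + ((-⌊z.re / p⌋ : ℤ) : ℂ) * p).re = z.re - ⌊z.re / p⌋ * p := by
    simp [sub_eq_add_neg]
  have e2 : (z + ((-⌊z.re / p⌋ : ℤ) : ℂ) * p).im = z.im := by
    simp
  refine ⟨?_, ?_⟩
  · rw [e1]
    have h4 := Int.floor_le (z.re / p)
    have h5 := Int.lt_floor_add_one (z.re / p)
    rw [le_div_iff₀ hp] at h4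
    rw [div_lt_iff₀ hp] at h5
    constructor <;> linarith
  · rw [e2]
    exact ⟨h1.le, h2.le⟩

end SubH

end Pool.Agent.Lib.MP_ae5b4e_an_LL
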